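import Pool.Agent.TH467.Twin

set_option autoImplicit false
set_option linter.unusedSectionVars false

open Finset

namespace Pool.Agent.TH467

noncomputable section
open Classical

variable {k : ℕ} [NeZero k]

def mu (P : Finset (ZMod k)) (e : ZMod k) : ℝ :=
  (if e ∈ Av P then 1 else 0) + (if e + 1 ∈ Av P then 1 else 0)

def PE (P : Finset (ZMod k)) (e : ZMod k) : Finset (ZMod k) := insert (e + 1) (insert e P)

theorem insM_eq (P : Finset (ZMod k)) (w : ZMod k) :
    insert (w - 1) (insert w P) = PE P (w - 1) := by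
  unfold PE
  rw [sub_add_cancel, Finset.insert_comm]

theorem mem_Av {P : Finset (ZMod k)} {w : ZMod k} :
    w ∈ Av P ↔ w ∉ P ∧ w + 1 ∉ P ∧ w - 1 ∉ P := by simp [Av]

theorem mem_PE {P : Finset (ZMod k)} {e y : ZMod k} :
    y ∈ PE P e ↔ y = e + 1 ∨ y = e ∨ y ∈ P := by simp [PE]

theorem subset_PE (P : Finset (ZMod k)) (e : ZMod k) : P ⊆ PE P e := by
  intro y hy; rw [mem_PE]; tauto

theorem mu_nonneg (P : Finset (ZMod k)) (e : ZMod k) : 0 ≤ mu P e := by
  unfold mu; split_ifs <;> norm_num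

theorem mu_le_two (P : Finset (ZMod k)) (e : ZMod k) : mu P e ≤ 2 := by
  unfold mu; split_ifs <;> norm_num

theorem mu_eq_two {P : Finset (ZMod k)} {e : ZMod k} (h1 : e ∈ Av P) (h2 : e + 1 ∈ Av P) :
    mu P e = 2 := by
  unfold mu; rw [if_pos h1, if_pos h2]; norm_num

theorem mu_ne_zero {P : Finset (ZMod k)} {e : ZMod k} (h : mu P e ≠ 0) : e ∉ P ∧ e + 1 ∉ P := by
  unfold mu at h
  by_cases h1 : e ∈ Av P
  · rw [mem_Av] at h1; exact ⟨h1.1, h1.2.1⟩
  · by_cases h2 : e + 1 ∈ Av P
    · rw [mem_Av] at h2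
      refine ⟨?_, h2.1⟩
      have := h2.2.2
      rwa [add_sub_cancel_right] at this
    · rw [if_neg h1, if_neg h2] at h; simp at h

theorem sum_edges (F : Finset (ZMod k) → ℝ) (P : Finset (ZMod k)) :
    ∑ w ∈ Av P, (F (insert (w+1) (insert w P)) + F (insert (w-1) (insert w P))) =
    ∑ e : ZMod k, mu P e * F (PE P e) := by
  have h1 : ∑ w ∈ Av P, F (insert (w+1) (insert w P)) =
      ∑ e : ZMod k, (if e ∈ Av P then 1 else 0) * F (PE P e) := by
    rw [← Finset.sum_filter_add_sum_filter_not Finset.univ (fun e => e ∈ Av P)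
      (fun e => (if e ∈ Av P then (1:ℝ) else 0) * F (PE P e))]
    have e1 : Finset.univ.filter (fun e => e ∈ Av P) = Av P := by ext; simp
    rw [e1]
    rw [Finset.sum_eq_zero (s := Finset.univ.filter (fun e => ¬ e ∈ Av P)), add_zero]
    · apply Finset.sum_congr rfl
      intro w hw
      rw [if_pos hw, one_mul]; rfl
    · intro w hw
      rw [Finset.mem_filter] at hw
      rw [if_neg hw.2, zero_mul]
  have h2 : ∑ w ∈ Av P, F (insert (w-1) (insert w P)) =
      ∑ e : ZMod k, (if e + 1 ∈ Av P then 1 else 0) * F (PE P e) := by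
    have e0 : ∑ e : ZMod k, (if e + 1 ∈ Av P then (1:ℝ) else 0) * F (PE P e) =
        ∑ w : ZMod k, (if w ∈ Av P then (1:ℝ) else 0) * F (PE P (w - 1)) := by
      refine Fintype.sum_equiv (Equiv.addRight (1 : ZMod k)) _ _ ?_
      intro e
      by_cases h : e + 1 ∈ Av P <;> simp [h]
    rw [e0, ← Finset.sum_filter_add_sum_filter_not Finset.univ (fun e => e ∈ Av P)
      (fun w => (if w ∈ Av P then (1:ℝ) else 0) * F (PE P (w - 1)))]
    have e1 : Finset.univ.filter (fun e => e ∈ Av P) = Av P := by ext; simp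
    rw [e1]
    rw [Finset.sum_eq_zero (s := Finset.univ.filter (fun e => ¬ e ∈ Av P)), add_zero]
    · apply Finset.sum_congr rfl
      intro w hw
      rw [if_pos hw, one_mul, insM_eq]
    · intro w hw
      rw [Finset.mem_filter] at hw
      rw [if_neg hw.2, zero_mul]
  rw [Finset.sum_add_distrib, h1, h2, ← Finset.sum_add_distrib]
  apply Finset.sum_congr rfl
  intro e _
  unfold mu; ring

theorem sum_mu (P : Finset (ZMod k)) : ∑ e : ZMod k, mu P e = 2 * ((Av P).card : ℝ) := by
  have := sum_edges (fun _ => (1:ℝ)) P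
  simp only [mul_one] at this
  rw [← this, Finset.sum_const, nsmul_eq_mul]; ring

theorem sum_mu_ind (P : Finset (ZMod k)) (a : ZMod k) :
    ∑ e : ZMod k, mu P e * (if e = a then 1 else 0) = mu P a := by
  simp

/-- The complement of `Av P` is small. -/
theorem card_compl_Av (P : Finset (ZMod k)) :
    (Finset.univ.filter (fun w => w ∉ Av P)).card ≤ 3 * P.card := by
  have h : Finset.univ.filter (fun w => w ∉ Av P) ⊆
      P ∪ (P.image (fun y => y - 1) ∪ P.image (fun y => y + 1)) := by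
    intro w hw
    rw [Finset.mem_filter, mem_Av] at hw
    rw [Finset.mem_union, Finset.mem_union, Finset.mem_image, Finset.mem_image]
    by_contra hcon
    push Not at hcon
    apply hw.2
    refine ⟨hcon.1, ?_, ?_⟩
    · intro h1; exact hcon.2.1 (w + 1) h1 (by ring)
    · intro h1; exact hcon.2.2 (w - 1) h1 (by ring)
  refine (Finset.card_le_card h).trans ?_
  refine (Finset.card_union_le _ _).trans ?_
  have h1 := Finset.card_union_le (P.image (fun y => y - 1)) (P.image (fun y => y + 1))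
  have h2 := Finset.card_image_le (s := P) (f := fun y => y - 1)
  have h3 := Finset.card_image_le (s := P) (f := fun y => y + 1)
  omega

theorem card_Av_ge (P : Finset (ZMod k)) : k ≤ (Av P).card + 3 * P.card := by
  have h1 := card_compl_Av P
  have h2 := Finset.card_filter_add_card_filter_not (s := (Finset.univ : Finset (ZMod k)))
    (fun w => w ∈ Av P)
  have e1 : Finset.univ.filter (fun e => e ∈ Av P) = Av P := by ext; simp
  rw [e1, Finset.card_univ, ZMod.card] at h2
  omega

theorem card_Av_le (P : Finset (ZMod k)) : (Av P).card ≤ k := by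
  have := Finset.card_le_univ (Av P)
  rwa [ZMod.card] at this

theorem card_PE {P : Finset (ZMod k)} {e : ZMod k} (hk : 5 ≤ k) (h : mu P e ≠ 0) :
    (PE P e).card = P.card + 2 := by
  obtain ⟨h1, h2⟩ := mu_ne_zero h
  unfold PE
  rw [Finset.card_insert_of_notMem, Finset.card_insert_of_notMem h1]
  rw [Finset.mem_insert, not_or]
  exact ⟨fun h => ne0_1 hk (by linear_combination h), h2⟩

/-- generic step bound: replacing the value after a round -/
theorem sum_mu_le {P : Finset (ZMod k)} {F G : ZMod k → ℝ}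
    (h : ∀ e, mu P e ≠ 0 → F e ≤ G e) : ∑ e : ZMod k, mu P e * F e ≤ ∑ e : ZMod k, mu P e * G e := by
  apply Finset.sum_le_sum
  intro e _
  by_cases h0 : mu P e = 0
  · rw [h0]; simp
  · exact mul_le_mul_of_nonneg_left (h e h0) (mu_nonneg P e)

/-- the nonempty-neighbour cost -/
theorem nbr_cost_le (S P : Finset (ZMod k)) :
    ∑ w ∈ Av P, (if w ∈ S ∧ (S ∩ insert w P).card ≤ 2 then (1/2 : ℝ) else 0) ≤ (S.card : ℝ) / 2 := by
  have h1 : ∑ w ∈ Av P, (if w ∈ S ∧ (S ∩ insert w P).card ≤ 2 then (1/2 : ℝ) else 0) ≤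
      ∑ w ∈ Av P, (if w ∈ S then (1/2 : ℝ) else 0) := by
    apply Finset.sum_le_sum
    intro w _
    by_cases h : w ∈ S
    · rw [if_pos h]; split_ifs <;> norm_num
    · rw [if_neg h, if_neg (fun h' => h h'.1)]
  refine h1.trans ?_
  rw [← Finset.sum_filter, Finset.sum_const, nsmul_eq_mul]
  have h2 : ((Av P).filter (fun w => w ∈ S)).card ≤ S.card :=
    Finset.card_le_card (fun w hw => (Finset.mem_filter.1 hw).2)
  have h3 : (((Av P).filter (fun w => w ∈ S)).card : ℝ) ≤ (S.card : ℝ) := by exact_mod_cast h2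
  linarith

theorem c1_succ (i : ℕ) (S P : Finset (ZMod k)) :
    c1 (i+1) S P = (if S ∩ P = ∅ then 1 else 0) / ((Av P).card : ℝ)
      + (∑ w ∈ Av P, (if w ∈ S ∧ (S ∩ insert w P).card ≤ 2 then (1/2 : ℝ) else 0)) / ((Av P).card : ℝ)
      + (∑ e : ZMod k, mu P e * c1 i S (PE P e)) / (2 * ((Av P).card : ℝ)) := by
  conv_lhs => rw [c1]
  rw [← sum_edges (fun Q => c1 i S Q) P]

end

end Pool.Agent.TH467
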