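import Pool.Agent.TH467.Proc
import Pool.Agent.TH467.Edge

set_option autoImplicit false

open Finset

namespace Pool.Agent.TH467

noncomputable section
open Classical

variable {V : Type} [Fintype V] {k : ℕ} [NeZero k]

/-- exp of minus an average is at most the average of exp of minus -/
theorem exp_avg_le {I : Type} (H : Finset I) (hH : H.Nonempty) (X : I → ℝ) :
    (H.card : ℝ) * Real.exp (-((∑ w ∈ H, X w) / (H.card : ℝ))) ≤ ∑ w ∈ H, Real.exp (-X w) := by
  have hc : (0 : ℝ) < H.card := by exact_mod_cast hH.card_pos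
  set A : ℝ := (∑ w ∈ H, X w) / (H.card : ℝ) with hA
  have h1 : ∀ w ∈ H, Real.exp (-A) * (1 + (A - X w)) ≤ Real.exp (-X w) := by
    intro w _
    have h2 := Real.add_one_le_exp (A - X w)
    calc Real.exp (-A) * (1 + (A - X w)) ≤ Real.exp (-A) * Real.exp (A - X w) := by
          have := Real.exp_pos (-A)
          gcongr
          linarith
      _ = Real.exp (-X w) := by rw [← Real.exp_add]; congr 1; ring
  calc (H.card : ℝ) * Real.exp (-A) = ∑ w ∈ H, Real.exp (-A) * (1 + (A - X w)) := by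
        rw [← Finset.mul_sum, Finset.sum_add_distrib, Finset.sum_sub_distrib, Finset.sum_const,
          Finset.sum_const, nsmul_eq_mul, nsmul_eq_mul]
        have h3 : (H.card : ℝ) * A = ∑ w ∈ H, X w := by rw [hA]; field_simp
        rw [h3]; ring
    _ ≤ ∑ w ∈ H, Real.exp (-X w) := Finset.sum_le_sum h1

omit [Fintype V] in
theorem comb2 {Z I : Type} (s : Finset Z) (H : Z → Finset I) (val : Z → I → V) (Gd : Finset V)
    (X : Z → I → ℝ) (hH : ∀ z ∈ s, (H z).Nonempty) (hmem : ∀ z ∈ s, ∀ w ∈ H z, val z w ∈ Gd)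
    (hv : ∀ v ∈ Gd, ∑ z ∈ s, ∑ w ∈ (H z).filter (fun w => val z w = v), Real.exp (-X z w) ≤ 1) :
    ∑ z ∈ s, Real.exp (-(Real.log (Gd.card : ℝ) - Real.log ((H z).card : ℝ) +
      (∑ w ∈ H z, X z w) / ((H z).card : ℝ))) ≤ 1 := by
  rcases s.eq_empty_or_nonempty with rfl | ⟨z0, hz0⟩
  · simp
  obtain ⟨w0, hw0⟩ := hH z0 hz0
  have hG : (0 : ℝ) < Gd.card := by
    exact_mod_cast Finset.card_pos.2 ⟨_, hmem z0 hz0 w0 hw0⟩
  have h1 : ∀ z ∈ s, Real.exp (-(Real.log (Gd.card : ℝ) - Real.log ((H z).card : ℝ) +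
      (∑ w ∈ H z, X z w) / ((H z).card : ℝ))) ≤
      (1 / (Gd.card : ℝ)) * ∑ w ∈ H z, Real.exp (-X z w) := by
    intro z hz
    have hc : (0 : ℝ) < (H z).card := by exact_mod_cast (hH z hz).card_pos
    have h2 := exp_avg_le (H z) (hH z hz) (X z)
    have e : Real.exp (-(Real.log (Gd.card : ℝ) - Real.log ((H z).card : ℝ) +
      (∑ w ∈ H z, X z w) / ((H z).card : ℝ))) = (1 / (Gd.card : ℝ)) *
        (((H z).card : ℝ) * Real.exp (-((∑ w ∈ H z, X z w) / ((H z).card : ℝ)))) := by
      have e1 : -(Real.log (Gd.card : ℝ) - Real.log ((H z).card : ℝ) +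
        (∑ w ∈ H z, X z w) / ((H z).card : ℝ)) = -Real.log (Gd.card : ℝ) +
          (Real.log ((H z).card : ℝ) + -((∑ w ∈ H z, X z w) / ((H z).card : ℝ))) := by ring
      rw [e1, Real.exp_add, Real.exp_add, Real.exp_log hc, Real.exp_neg, Real.exp_log hG,
        one_div]
    rw [e]
    gcongr
  have h3 : ∀ z ∈ s, ∑ w ∈ H z, Real.exp (-X z w) =
      ∑ v ∈ Gd, ∑ w ∈ (H z).filter (fun w => val z w = v), Real.exp (-X z w) := by
    intro z hz
    exact (Finset.sum_fiberwise_of_maps_to (fun w hw => hmem z hz w hw) _).symm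
  calc ∑ z ∈ s, Real.exp (-(Real.log (Gd.card : ℝ) - Real.log ((H z).card : ℝ) +
      (∑ w ∈ H z, X z w) / ((H z).card : ℝ)))
      ≤ ∑ z ∈ s, (1 / (Gd.card : ℝ)) * ∑ w ∈ H z, Real.exp (-X z w) := Finset.sum_le_sum h1
    _ = (1 / (Gd.card : ℝ)) * ∑ z ∈ s, ∑ v ∈ Gd,
        ∑ w ∈ (H z).filter (fun w => val z w = v), Real.exp (-X z w) := by
        rw [← Finset.mul_sum, Finset.sum_congr rfl h3]
    _ = (1 / (Gd.card : ℝ)) * ∑ v ∈ Gd, ∑ z ∈ s,
        ∑ w ∈ (H z).filter (fun w => val z w = v), Real.exp (-X z w) := by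
        rw [Finset.sum_comm]
    _ ≤ (1 / (Gd.card : ℝ)) * ∑ _v ∈ Gd, (1 : ℝ) := by
        gcongr with v hv'
        exact hv v hv'
    _ = 1 := by
        rw [Finset.sum_const, nsmul_eq_mul, mul_one, one_div, inv_mul_cancel₀ hG.ne']

theorem round_code_of (hk : 5 ≤ k) (G : SimpleGraph V) (a b : V)
    (hpair : ∀ Q : Finset V, a ∈ Q → b ∈ Q → Q.card + 2 ≤ k →
      ∑ z ∈ zs G k a b Q, Real.exp (-(L10 G (Pz z Q) z)) ≤ 1)
    (i : ℕ) (Q : Finset V)
    (ha : a ∈ Q) (hb : b ∈ Q) (hQ : 3 * (Q.card + 2 * i) < k) :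
    ∑ z ∈ zs G k a b Q, Real.exp (-(L1 G i (Pz z Q) z)) ≤ 1 := by
  induction i generalizing Q with
  | zero =>
    have h1 : 1 ≤ Q.card := Finset.card_pos.2 ⟨a, ha⟩
    have := hpair Q ha hb (by omega)
    simpa only [L1] using this
  | succ i ih =>
    -- facts on the members
    have hz : ∀ z ∈ zs G k a b Q, IsCyc G z ∧ Function.Injective z ∧ (Pz z Q).image z = Q ∧
        (Pz z Q).card = Q.card := by
      intro z hz
      obtain ⟨h1, -, -, h4⟩ := mem_zs.1 hz
      exact ⟨h1, h1.inj hk, image_Pz h4, card_Pz (h1.inj hk) h4⟩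
    have hne : ∀ w : ZMod k, w + 1 ≠ w - 1 := fun w h => ne0_2 hk (by linear_combination h)
    set X : (ZMod k → V) → ZMod k → ℝ := fun z w =>
      Real.log ((nbd G (insert (z w) Q) (z w)).card : ℝ) - Real.log 2 +
        (L1 G i (insert (w + 1) (insert w (Pz z Q))) z +
          L1 G i (insert (w - 1) (insert w (Pz z Q))) z) / 2 with hX
    have hL : ∀ z ∈ zs G k a b Q, Real.exp (-(L1 G (i + 1) (Pz z Q) z)) =
        Real.exp (-(Real.log ((emp G Q).card : ℝ) - Real.log ((Av (Pz z Q)).card : ℝ) +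
          (∑ w ∈ Av (Pz z Q), X z w) / ((Av (Pz z Q)).card : ℝ))) := by
      intro z hz'
      obtain ⟨-, -, h3, -⟩ := hz z hz'
      congr 2
      rw [L1, h3]
      congr 2
      refine Finset.sum_congr rfl fun w _ => ?_
      rw [Finset.image_insert, h3]
    rw [Finset.sum_congr rfl hL]
    refine comb2 (zs G k a b Q) (fun z => Av (Pz z Q)) (fun z w => z w) (emp G Q) X ?_ ?_ ?_
    · intro z hz'
      obtain ⟨-, -, -, h4⟩ := hz z hz'
      have h5 := card_Av_ge (Pz z Q)
      rw [← Finset.card_pos]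
      omega
    · intro z hz' w hw
      obtain ⟨h1, h2, h3, h4⟩ := hz z hz'
      rw [emp, Finset.mem_filter]
      refine ⟨Finset.mem_univ _, ?_⟩
      conv_lhs => rw [← h3]
      rw [nb_image, h1.pat_self, Finset.image_eq_empty, Finset.eq_empty_iff_forall_notMem]
      intro y hy
      rw [Finset.mem_inter, Finset.mem_insert, Finset.mem_singleton] at hy
      rw [Av, Finset.mem_filter] at hw
      obtain ⟨-, -, h6, h7⟩ := hw
      rcases hy with ⟨h8 | h8, h9⟩
      · rw [h8] at h9; exact h7 h9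
      · rw [h8] at h9; exact h6 h9
    · intro v hv
      -- pairs (z, w) with z w = v
      set s' : Finset ((ZMod k → V) × ZMod k) := ((zs G k a b Q) ×ˢ (Finset.univ : Finset (ZMod k))).filter
        (fun q => q.2 ∈ Av (Pz q.1 Q) ∧ q.1 q.2 = v) with hs'
      have e1 : ∑ z ∈ zs G k a b Q, ∑ w ∈ (Av (Pz z Q)).filter (fun w => z w = v),
          Real.exp (-X z w) = ∑ q ∈ s', Real.exp (-(Real.log ((nbd G (insert v Q) v).card : ℝ) -
            Real.log ((({q.2 + 1, q.2 - 1} : Finset (ZMod k)).card : ℕ) : ℝ) +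
            (∑ w' ∈ ({q.2 + 1, q.2 - 1} : Finset (ZMod k)),
              L1 G i (insert w' (insert q.2 (Pz q.1 Q))) q.1) /
              ((({q.2 + 1, q.2 - 1} : Finset (ZMod k)).card : ℕ) : ℝ))) := by
        rw [hs', Finset.sum_filter, Finset.sum_product]
        refine Finset.sum_congr rfl fun z _ => ?_
        rw [← Finset.sum_filter]
        refine Finset.sum_congr ?_ fun w hw => ?_
        · ext w
          simp only [Finset.mem_filter, Finset.mem_univ, true_and]
        · rw [Finset.mem_filter] at hw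
          have hw2 : z w = v := hw.2.2
          rw [Finset.card_pair (hne w), Finset.sum_pair (hne w), hX]
          simp only [hw2]
          push_cast
          ring_nf
      rw [e1]
      refine comb2 s' (fun q => {q.2 + 1, q.2 - 1}) (fun q w' => q.1 w') (nbd G (insert v Q) v)
        (fun q w' => L1 G i (insert w' (insert q.2 (Pz q.1 Q))) q.1) ?_ ?_ ?_
      · intro q _
        exact ⟨q.2 + 1, by simp⟩
      · intro q hq w' hw'
        rw [hs', Finset.mem_filter, Finset.mem_product] at hq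
        obtain ⟨⟨hq1, -⟩, hq2, hq3⟩ := hq
        obtain ⟨h1, h2, h3, h4⟩ := hz q.1 hq1
        rw [nbd, Finset.mem_filter]
        refine ⟨Finset.mem_univ _, ?_, ?_⟩
        · rw [← hq3]
          rw [Finset.mem_insert, Finset.mem_singleton] at hw'
          rcases hw' with rfl | rfl
          · exact (h1.adj_succ q.2).symm
          · exact (h1.adj_pred q.2).symm
        · have e2 : insert v Q = (insert q.2 (Pz q.1 Q)).image q.1 := by
            rw [Finset.image_insert, h3, hq3]
          rw [e2, card_nb_image h2, h1.pat_self]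
          exact (Finset.card_le_card Finset.inter_subset_left).trans Finset.card_le_two
      · intro u hu
        set Q' : Finset V := insert u (insert v Q) with hQ'
        -- triples
        set T : Finset (((ZMod k → V) × ZMod k) × ZMod k) :=
          (s' ×ˢ (Finset.univ : Finset (ZMod k))).filter
            (fun q => q.2 ∈ ({q.1.2 + 1, q.1.2 - 1} : Finset (ZMod k)) ∧ q.1.1 q.2 = u) with hT
        have hTm : ∀ q ∈ T, q.1.1 ∈ zs G k a b Q ∧ q.1.1 q.1.2 = v ∧ q.1.1 q.2 = u := by
          intro q hq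
          rw [hT, Finset.mem_filter, Finset.mem_product, hs', Finset.mem_filter,
            Finset.mem_product] at hq
          exact ⟨hq.1.1.1.1, hq.1.1.2.2, hq.2.2⟩
        have e2 : ∑ q ∈ s', ∑ w' ∈ ({q.2 + 1, q.2 - 1} : Finset (ZMod k)).filter
            (fun w' => q.1 w' = u), Real.exp (-L1 G i (insert w' (insert q.2 (Pz q.1 Q))) q.1) =
            ∑ q ∈ T, Real.exp (-L1 G i (Pz q.1.1 Q') q.1.1) := by
          have e20 : ∑ q ∈ T, Real.exp (-L1 G i (Pz q.1.1 Q') q.1.1) =
              ∑ q ∈ s', ∑ w' : ZMod k, if (w' ∈ ({q.2 + 1, q.2 - 1} : Finset (ZMod k)) ∧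
                q.1 w' = u) then Real.exp (-L1 G i (Pz q.1 Q') q.1) else 0 := by
            rw [hT, Finset.sum_filter, Finset.sum_product]
          rw [e20]
          refine Finset.sum_congr rfl fun q hq => ?_
          rw [← Finset.sum_filter]
          have e3 : (Finset.univ.filter fun a : ZMod k =>
              a ∈ ({q.2 + 1, q.2 - 1} : Finset (ZMod k)) ∧ q.1 a = u) =
              ({q.2 + 1, q.2 - 1} : Finset (ZMod k)).filter (fun w' => q.1 w' = u) := by
            ext w
            simp only [Finset.mem_filter, Finset.mem_univ, true_and]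
          rw [e3]
          refine Finset.sum_congr rfl fun w' hw' => ?_
          rw [hs', Finset.mem_filter, Finset.mem_product] at hq
          obtain ⟨⟨hq1, -⟩, hq2, hq3⟩ := hq
          obtain ⟨h1, h2, h3, h4⟩ := hz q.1 hq1
          rw [Finset.mem_filter] at hw'
          congr 3
          rw [hQ', ← hw'.2, ← hq3, Pz_insert h2, Pz_insert h2]
        have hinj : Set.InjOn (fun q : ((ZMod k → V) × ZMod k) × ZMod k => q.1.1) T := by
          rintro ⟨⟨z, w⟩, w'⟩ hq ⟨⟨z2, w2⟩, w2'⟩ hq2 h
          have h : z = z2 := h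
          subst h
          obtain ⟨h1, h2, h3⟩ := hTm _ hq
          obtain ⟨-, h5, h6⟩ := hTm _ hq2
          have hi := (hz z h1).2.1
          have h7 : w = w2 := hi (h2.trans h5.symm)
          have h8 : w' = w2' := hi (h3.trans h6.symm)
          rw [h7, h8]
        rw [e2]
        have e4 : ∑ q ∈ T, Real.exp (-L1 G i (Pz q.1.1 Q') q.1.1) =
            ∑ z ∈ T.image (fun q : ((ZMod k → V) × ZMod k) × ZMod k => q.1.1),
              Real.exp (-L1 G i (Pz z Q') z) := by
          rw [Finset.sum_image hinj]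
        rw [e4]
        have hcardQ : Q'.card ≤ Q.card + 2 := by
          rw [hQ']
          have h1 := Finset.card_insert_le u (insert v Q)
          have h2 := Finset.card_insert_le v Q
          omega
        have hsub : T.image (fun q : ((ZMod k → V) × ZMod k) × ZMod k => q.1.1) ⊆
            zs G k a b Q' := ?_
        · exact (Finset.sum_le_sum_of_subset_of_nonneg
            (f := fun z : ZMod k → V => Real.exp (-L1 G i (Pz z Q') z)) hsub
            fun _ _ _ => (Real.exp_pos _).le).trans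
            (ih Q' (by rw [hQ']; simp [ha]) (by rw [hQ']; simp [hb]) (by omega))
        intro z hz'
        rw [Finset.mem_image] at hz'
        obtain ⟨q, hq, rfl⟩ := hz'
        obtain ⟨h1, h2, h3⟩ := hTm q hq
        rw [mem_zs] at h1 ⊢
        refine ⟨h1.1, h1.2.1, h1.2.2.1, fun x hx => ?_⟩
        rw [hQ', Finset.mem_insert, Finset.mem_insert] at hx
        rcases hx with rfl | rfl | hx
        · exact ⟨_, h3⟩
        · exact ⟨_, h2⟩
        · exact h1.2.2.2 x hx

end

end Pool.Agent.TH467
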