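import Pool.Agent.TH467.Proc

set_option autoImplicit false
set_option linter.unusedSectionVars false

open Finset

namespace Pool.Agent.TH467

noncomputable section
open Classical

variable {V : Type} [Fintype V] {k : ℕ} [NeZero k]

/-- One step of a Kraft-type inequality. -/
theorem comb1 {Z I : Type} [Fintype I] (s : Finset Z) (g : Z → I) (w : I → ℝ) (L : Z → ℝ)
    (hw : ∀ v, 0 ≤ w v) (hpos : ∀ z ∈ s, 0 < w (g z))
    (hL : ∀ v, 0 < w v → ∑ z ∈ s.filter (fun z => g z = v), Real.exp (-(L z)) ≤ 1) :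
    ∑ z ∈ s, Real.exp (-(Real.log (∑ v, w v) - Real.log (w (g z)) + L z)) ≤ 1 := by
  rcases s.eq_empty_or_nonempty with rfl | ⟨z₀, hz₀⟩
  · simp
  have hW : 0 < ∑ v, w v :=
    lt_of_lt_of_le (hpos z₀ hz₀) (Finset.single_le_sum (fun v _ => hw v) (Finset.mem_univ _))
  have h1 : ∀ z ∈ s, Real.exp (-(Real.log (∑ v, w v) - Real.log (w (g z)) + L z))
      = (w (g z) / ∑ v, w v) * Real.exp (-(L z)) := by
    intro z hz
    have : -(Real.log (∑ v, w v) - Real.log (w (g z)) + L z) =
      Real.log (w (g z)) - Real.log (∑ v, w v) + (-(L z)) := by ring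
    rw [this, Real.exp_add, Real.exp_sub, Real.exp_log (hpos z hz), Real.exp_log hW]
  rw [Finset.sum_congr rfl h1, ← Finset.sum_fiberwise s g]
  calc ∑ v, ∑ z ∈ s.filter (fun z => g z = v), (w (g z) / ∑ v, w v) * Real.exp (-(L z))
      ≤ ∑ v, w v / ∑ v, w v := by
        refine Finset.sum_le_sum (fun v _ => ?_)
        have h2 : ∑ z ∈ s.filter (fun z => g z = v), (w (g z) / ∑ v, w v) * Real.exp (-(L z))
          = (w v / ∑ v, w v) * ∑ z ∈ s.filter (fun z => g z = v), Real.exp (-(L z)) := by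
          rw [Finset.mul_sum]
          refine Finset.sum_congr rfl (fun z hz => ?_)
          rw [(Finset.mem_filter.1 hz).2]
        rw [h2]
        rcases (hw v).eq_or_lt with h3 | h3
        · rw [← h3]; simp
        · exact mul_le_of_le_one_right (div_nonneg (hw v) hW.le) (hL v h3)
    _ = 1 := by rw [← Finset.sum_div, div_self hW.ne']

/-- Variant of `comb1` with subsets of the fibres. -/
theorem comb1' {Z I : Type} [Fintype I] (s : Finset Z) (g : Z → I) (w : I → ℝ) (L : Z → ℝ)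
    (hw : ∀ v, 0 ≤ w v) (hpos : ∀ z ∈ s, 0 < w (g z))
    (hL : ∀ v, 0 < w v → ∀ t : Finset Z, t ⊆ s → (∀ z ∈ t, g z = v) →
      ∑ z ∈ t, Real.exp (-(L z)) ≤ 1) :
    ∑ z ∈ s, Real.exp (-(Real.log (∑ v, w v) - Real.log (w (g z)) + L z)) ≤ 1 :=
  comb1 s g w L hw hpos (fun v hv => hL v hv _ (Finset.filter_subset _ _)
    (fun _ hz => (Finset.mem_filter.1 hz).2))

/-! ### walking -/

theorem walk_pos (hk : 5 ≤ k) {G : SimpleGraph V} {a b : V} {Q : Finset V} {z z' : ZMod k → V}
    (hz : z ∈ zs G k a b Q) (hz' : z' ∈ zs G k a b Q) (t : ℕ)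
    (h : ∀ s : ℕ, s ≤ t + 1 → (s : ZMod k) ∈ Pz z Q) :
    z' (t : ZMod k) = z (t : ZMod k) ∧ z' ((t : ZMod k) + 1) = z ((t : ZMod k) + 1) := by
  rw [mem_zs] at hz hz'
  obtain ⟨c, z0, z1, hQ⟩ := hz
  obtain ⟨c', z0', z1', hQ'⟩ := hz'
  induction t with
  | zero => simp [z0, z1, z0', z1']
  | succ t ih =>
    obtain ⟨i1, i2⟩ := ih (fun s hs => h s (by omega))
    have e1 : ((t + 1 : ℕ) : ZMod k) = (t : ZMod k) + 1 := by push_cast; ring
    rw [e1]
    refine ⟨i2, ?_⟩
    have hm := h (t + 2) (by omega)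
    rw [mem_Pz] at hm
    obtain ⟨l, hl⟩ := hQ' _ hm
    have e2 : ((t + 2 : ℕ) : ZMod k) = (t : ZMod k) + 1 + 1 := by push_cast; ring
    rw [e2] at hl
    have ha := c.adj_pred ((t : ZMod k) + 1 + 1)
    rw [add_sub_cancel_right, ← hl, ← i2] at ha
    rw [c'] at ha
    rcases ha with ha | ha
    · exfalso
      have hlt : l = t := by linear_combination -ha
      rw [hlt, i1] at hl
      have := c.inj hk hl
      exact ne0_2 hk (by linear_combination -this)
    · rw [ha] at hl; exact hl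

theorem walk_neg (hk : 5 ≤ k) {G : SimpleGraph V} {a b : V} {Q : Finset V} {z z' : ZMod k → V}
    (hz : z ∈ zs G k a b Q) (hz' : z' ∈ zs G k a b Q) (t : ℕ)
    (h : ∀ s : ℕ, s ≤ t → -(s : ZMod k) ∈ Pz z Q) :
    z' (-(t : ZMod k)) = z (-(t : ZMod k)) ∧ z' (-(t : ZMod k) + 1) = z (-(t : ZMod k) + 1) := by
  rw [mem_zs] at hz hz'
  obtain ⟨c, z0, z1, hQ⟩ := hz
  obtain ⟨c', z0', z1', hQ'⟩ := hz'
  induction t with
  | zero => simp [z0, z1, z0', z1']
  | succ t ih =>
    obtain ⟨i1, i2⟩ := ih (fun s hs => h s (by omega))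
    have e0 : -((t + 1 : ℕ) : ZMod k) + 1 = -(t : ZMod k) := by push_cast; ring
    rw [e0]
    refine ⟨?_, i1⟩
    have hm := h (t + 1) (by omega)
    rw [mem_Pz] at hm
    obtain ⟨l, hl⟩ := hQ' _ hm
    have ha := c.adj_succ (-((t + 1 : ℕ) : ZMod k))
    rw [e0, ← hl, ← i1] at ha
    rw [c'] at ha
    rcases ha with ha | ha
    · have : l = -((t + 1 : ℕ) : ZMod k) := by push_cast; linear_combination -ha
      rw [this] at hl; exact hl
    · exfalso
      rw [ha, i2] at hl
      have := c.inj hk hl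
      push_cast at this
      exact ne0_2 hk (by linear_combination this)

theorem card_Pz_zs (hk : 5 ≤ k) {G : SimpleGraph V} {a b : V} {Q : Finset V} {z : ZMod k → V}
    (hz : z ∈ zs G k a b Q) : (Pz z Q).card = Q.card := by
  rw [mem_zs] at hz
  exact card_Pz (hz.1.inj hk) hz.2.2.2

theorem zero_mem_Pz {G : SimpleGraph V} {a b : V} {Q : Finset V} {z : ZMod k → V}
    (hz : z ∈ zs G k a b Q) (ha : a ∈ Q) : (0 : ZMod k) ∈ Pz z Q := by
  rw [mem_zs] at hz
  rw [mem_Pz, hz.2.1]; exact ha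

theorem one_mem_Pz {G : SimpleGraph V} {a b : V} {Q : Finset V} {z : ZMod k → V}
    (hz : z ∈ zs G k a b Q) (hb : b ∈ Q) : (1 : ZMod k) ∈ Pz z Q := by
  rw [mem_zs] at hz
  rw [mem_Pz, hz.2.2.1]; exact hb

theorem fr_le_fr (hk : 5 ≤ k) {G : SimpleGraph V} {a b : V} {Q : Finset V} {z z' : ZMod k → V}
    (hz : z ∈ zs G k a b Q) (hz' : z' ∈ zs G k a b Q) (ha : a ∈ Q) (hb : b ∈ Q)
    (hQ : Q.card < k) : fr (Pz z Q) ≤ fr (Pz z' Q) := by
  by_contra hcon
  push Not at hcon
  have hc' := card_Pz_zs hk hz'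
  have h2 := two_le_fr (P := Pz z' Q) (by omega) (zero_mem_Pz hz' ha) (one_mem_Pz hz' hb)
  have h3 := qq_notMem (P := Pz z' Q) (by omega)
  apply h3
  have h4 := (walk_pos hk hz hz' (fr (Pz z' Q) - 1)
    (fun s hs => mem_of_lt_fr (by omega))).2
  have e : (((fr (Pz z' Q) - 1 : ℕ) : ZMod k) + 1) = (fr (Pz z' Q) : ZMod k) := by
    rw [Nat.cast_sub (by omega)]; push_cast; ring
  rw [e] at h4
  rw [mem_Pz, qq, h4, ← mem_Pz]
  exact mem_of_lt_fr hcon

theorem fr_eq (hk : 5 ≤ k) {G : SimpleGraph V} {a b : V} {Q : Finset V} {z z' : ZMod k → V}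
    (hz : z ∈ zs G k a b Q) (hz' : z' ∈ zs G k a b Q) (ha : a ∈ Q) (hb : b ∈ Q)
    (hQ : Q.card < k) : fr (Pz z Q) = fr (Pz z' Q) :=
  le_antisymm (fr_le_fr hk hz hz' ha hb hQ) (fr_le_fr hk hz' hz ha hb hQ)

theorem bk_le_bk (hk : 5 ≤ k) {G : SimpleGraph V} {a b : V} {Q : Finset V} {z z' : ZMod k → V}
    (hz : z ∈ zs G k a b Q) (hz' : z' ∈ zs G k a b Q) (_ha : a ∈ Q) (_hb : b ∈ Q)
    (hQ : Q.card < k) : bk (Pz z Q) ≤ bk (Pz z' Q) := by
  by_contra hcon
  push Not at hcon
  have hc' := card_Pz_zs hk hz'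
  have h3 := bk_notMem (P := Pz z' Q) (by omega)
  apply h3
  have h4 := (walk_neg hk hz hz' (bk (Pz z' Q))
    (fun s hs => mem_of_lt_bk (by omega))).1
  rw [mem_Pz, h4, ← mem_Pz]
  exact mem_of_lt_bk hcon

theorem bk_eq (hk : 5 ≤ k) {G : SimpleGraph V} {a b : V} {Q : Finset V} {z z' : ZMod k → V}
    (hz : z ∈ zs G k a b Q) (hz' : z' ∈ zs G k a b Q) (ha : a ∈ Q) (hb : b ∈ Q)
    (hQ : Q.card < k) : bk (Pz z Q) = bk (Pz z' Q) :=
  le_antisymm (bk_le_bk hk hz hz' ha hb hQ) (bk_le_bk hk hz' hz ha hb hQ)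

theorem front_eq (hk : 5 ≤ k) {G : SimpleGraph V} {a b : V} {Q : Finset V} {z z' : ZMod k → V}
    (hz : z ∈ zs G k a b Q) (hz' : z' ∈ zs G k a b Q) (ha : a ∈ Q) (hb : b ∈ Q)
    (hQ : Q.card < k) : z' (qq (Pz z' Q) - 1) = z (qq (Pz z Q) - 1) := by
  have hc := card_Pz_zs hk hz
  have h2 := two_le_fr (P := Pz z Q) (by omega) (zero_mem_Pz hz ha) (one_mem_Pz hz hb)
  unfold qq
  rw [← fr_eq hk hz hz' ha hb hQ]
  have h4 := (walk_pos hk hz hz' (fr (Pz z Q) - 2)
    (fun s hs => mem_of_lt_fr (by omega))).2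
  have e : (((fr (Pz z Q) - 2 : ℕ) : ZMod k) + 1) = (fr (Pz z Q) : ZMod k) - 1 := by
    rw [Nat.cast_sub (by omega)]; push_cast; ring
  rw [e] at h4
  exact h4

theorem back_eq (hk : 5 ≤ k) {G : SimpleGraph V} {a b : V} {Q : Finset V} {z z' : ZMod k → V}
    (hz : z ∈ zs G k a b Q) (hz' : z' ∈ zs G k a b Q) (ha : a ∈ Q) (hb : b ∈ Q)
    (hQ : Q.card < k) : z' (bb (Pz z' Q)) = z (bb (Pz z Q)) := by
  have hc := card_Pz_zs hk hz
  have h2 := one_le_bk (P := Pz z Q) (by omega) (zero_mem_Pz hz ha)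
  unfold bb
  rw [← bk_eq hk hz hz' ha hb hQ]
  have h4 := (walk_neg hk hz hz' (bk (Pz z Q) - 1)
    (fun s hs => mem_of_lt_bk (by omega))).1
  have e : -((bk (Pz z Q) - 1 : ℕ) : ZMod k) = 1 - (bk (Pz z Q) : ZMod k) := by
    rw [Nat.cast_sub (by omega)]; push_cast; ring
  rw [e] at h4
  exact h4

theorem zs_unique (hk : 5 ≤ k) {G : SimpleGraph V} {a b : V} {Q : Finset V} {z z' : ZMod k → V}
    (hz : z ∈ zs G k a b Q) (hz' : z' ∈ zs G k a b Q) (hQ : Q.card = k) : z' = z := by
  have hc := card_Pz_zs hk hz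
  have hu : Pz z Q = Finset.univ := by
    apply Finset.eq_univ_of_card
    rw [ZMod.card, hc, hQ]
  funext i
  have := (walk_pos hk hz hz' i.val (fun s _ => by rw [hu]; exact Finset.mem_univ _)).1
  simpa using this

/-! ### positions -/

theorem front_mem {P : Finset (ZMod k)} (h : P.card < k) (h0 : (0 : ZMod k) ∈ P)
    (h1 : (1 : ZMod k) ∈ P) : qq P - 1 ∈ P := by
  have h2 := two_le_fr h h0 h1
  have h3 := mem_of_lt_fr (P := P) (t := fr P - 1) (by omega)
  have e : ((fr P - 1 : ℕ) : ZMod k) = qq P - 1 := by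
    rw [Nat.cast_sub (by omega)]; push_cast; rfl
  rwa [e] at h3

theorem qq_add_one_ne_bb {P : Finset (ZMod k)} (h : P.card + 2 ≤ k) (h0 : (0 : ZMod k) ∈ P)
    (h1 : (1 : ZMod k) ∈ P) : qq P + 1 ≠ bb P := by
  intro hcon
  have hP : P.card < k := by omega
  have h2 := two_le_fr hP h0 h1
  have hfk := fr_lt hP
  have hqv := val_qq hP
  have e1 : ((bk P + fr P : ℕ) : ZMod k) = 0 := by
    unfold bb at hcon
    have : qq P = (fr P : ZMod k) := rfl
    push_cast
    rw [← this]
    linear_combination hcon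
  have h3 : k ≤ bk P + fr P := by
    by_contra h4
    exact natCast_ne (k := k) (n := bk P + fr P) (by omega) (by omega) e1
  have hall : ∀ x : ZMod k, x ∈ insert (qq P) P := by
    intro x
    rw [Finset.mem_insert]
    rcases lt_trichotomy x.val (fr P) with h4 | h4 | h4
    · right; exact mem_of_val_lt h4
    · left; exact (qq_eq_val hP h4).symm
    · right
      have hxk := ZMod.val_lt x
      have h5 := mem_of_lt_bk (P := P) (t := k - x.val) (by omega)
      have e2 : -((k - x.val : ℕ) : ZMod k) = x := by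
        rw [Nat.cast_sub hxk.le]; simp
      rwa [e2] at h5
  have h6 : (insert (qq P) P) = Finset.univ := Finset.eq_univ_of_forall hall
  have h7 := card_insert_qq hP
  rw [h6, Finset.card_univ, ZMod.card] at h7
  omega

theorem wt_self (hk : 5 ≤ k) {P : Finset (ZMod k)} (h : P.card + 2 ≤ k) (h0 : (0 : ZMod k) ∈ P)
    (h1 : (1 : ZMod k) ∈ P) : wt P ({qq P - 1, qq P + 1} ∩ P) = om P := by
  have hP : P.card < k := by omega
  have hf := front_mem hP h0 h1
  have hq := qq_notMem hP
  have hne : qq P + 1 ≠ qq P - 1 := fun h => ne0_2 hk (by linear_combination h)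
  unfold wt om
  by_cases h2 : qq P + 1 ∈ P
  · have e : ({qq P - 1, qq P + 1} : Finset (ZMod k)) ∩ P = {qq P - 1, qq P + 1} := by
      apply Finset.inter_eq_left.2
      intro y hy
      rw [Finset.mem_insert, Finset.mem_singleton] at hy
      rcases hy with hy | hy <;> rw [hy] <;> assumption
    rw [e, if_pos h2, if_neg, if_pos]
    · refine ⟨qq P + 1, hne, qq_add_one_ne_bb h h0 h1, rfl, ?_⟩
      rintro ⟨h3, -⟩
      rw [add_sub_cancel_right] at h3
      exact hq h3
    · intro h3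
      have : qq P + 1 ∈ ({qq P - 1} : Finset (ZMod k)) := by rw [← h3]; simp
      rw [Finset.mem_singleton] at this
      exact hne this
  · have e : ({qq P - 1, qq P + 1} : Finset (ZMod k)) ∩ P = {qq P - 1} := by
      ext y
      simp only [Finset.mem_inter, Finset.mem_insert, Finset.mem_singleton]
      constructor
      · rintro ⟨hy | hy, hyP⟩
        · exact hy
        · rw [hy] at hyP; exact absurd hyP h2
      · intro hy
        rw [hy]; exact ⟨Or.inl rfl, hf⟩
    rw [e, if_pos rfl, if_neg h2]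

theorem mem_zs_insert {G : SimpleGraph V} {a b : V} {Q : Finset V} {z : ZMod k → V}
    (hz : z ∈ zs G k a b Q) (i : ZMod k) : z ∈ zs G k a b (insert (z i) Q) := by
  rw [mem_zs] at hz ⊢
  refine ⟨hz.1, hz.2.1, hz.2.2.1, fun u hu => ?_⟩
  rcases Finset.mem_insert.1 hu with hu | hu
  · exact ⟨i, hu.symm⟩
  · exact hz.2.2.2 u hu

theorem image_Pz_zs {G : SimpleGraph V} {a b : V} {Q : Finset V} {z : ZMod k → V}
    (hz : z ∈ zs G k a b Q) : (Pz z Q).image z = Q := by
  rw [mem_zs] at hz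
  exact image_Pz hz.2.2.2

theorem wG_self (hk : 5 ≤ k) {G : SimpleGraph V} {a b : V} {Q : Finset V} {z : ZMod k → V}
    (hz : z ∈ zs G k a b Q) (ha : a ∈ Q) (hb : b ∈ Q) (hQ : Q.card + 2 ≤ k) :
    wG G Q (z (qq (Pz z Q) - 1)) (z (bb (Pz z Q))) (z (qq (Pz z Q))) = om (Pz z Q) := by
  have hc := card_Pz_zs hk hz
  have hcyc := (mem_zs.1 hz).1
  have h1 := wG_eq hk hcyc (P := Pz z Q) (v := z (qq (Pz z Q)))
  rw [image_Pz_zs hz, hcyc.pat_self] at h1
  rw [h1]
  exact wt_self hk (by omega) (zero_mem_Pz hz ha) (one_mem_Pz hz hb)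

theorem mem_clo_self (hk : 5 ≤ k) {G : SimpleGraph V} {a b : V} {Q : Finset V} {z : ZMod k → V}
    (hz : z ∈ zs G k a b Q) (ha : a ∈ Q) (hb : b ∈ Q) (hQ : Q.card + 1 = k) :
    z (qq (Pz z Q)) ∈ clo G Q (z (qq (Pz z Q) - 1)) (z (bb (Pz z Q))) := by
  have hc := card_Pz_zs hk hz
  have hcyc := (mem_zs.1 hz).1
  have h1 := nb_image (G := G) (z := z) (z (qq (Pz z Q))) (Pz z Q)
  rw [image_Pz_zs hz, hcyc.pat_self] at h1
  unfold clo
  rw [Finset.mem_filter]
  refine ⟨Finset.mem_univ _, ?_⟩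
  rw [h1, bb_eq (by omega)]
  have hf := front_mem (P := Pz z Q) (by omega) (zero_mem_Pz hz ha) (one_mem_Pz hz hb)
  have hg : qq (Pz z Q) + 1 ∈ Pz z Q := by
    by_contra hcon
    have := eq_qq (P := Pz z Q) (by omega) hcon
    exact ne0_1 hk (by linear_combination this)
  have e : ({qq (Pz z Q) - 1, qq (Pz z Q) + 1} : Finset (ZMod k)) ∩ Pz z Q
      = {qq (Pz z Q) - 1, qq (Pz z Q) + 1} := by
    apply Finset.inter_eq_left.2
    intro y hy
    rw [Finset.mem_insert, Finset.mem_singleton] at hy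
    rcases hy with hy | hy <;> rw [hy] <;> assumption
  rw [e, Finset.image_insert, Finset.image_singleton]

theorem sum_indicator_card {I : Type} [Fintype I] (A : Finset I) :
    ∑ v, (if v ∈ A then (1 : ℝ) else 0) = (A.card : ℝ) := by
  simp

theorem scan_code' (hk : 5 ≤ k) (G : SimpleGraph V) (a b : V) (m : ℕ) :
    ∀ Q : Finset V, a ∈ Q → b ∈ Q → Q.card + m = k →
    ∑ z ∈ zs G k a b Q, Real.exp (-(L3 G m (Pz z Q) z)) ≤ 1 := by
  induction m using Nat.strong_induction_on with
  | _ m ih =>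
    intro Q ha hb hQ
    match m, ih with
    | 0, _ =>
      simp only [L3, neg_zero, Real.exp_zero, Finset.sum_const, nsmul_eq_mul, mul_one]
      have : (zs G k a b Q).card ≤ 1 := by
        rw [Finset.card_le_one]
        intro z hz z' hz'
        exact zs_unique hk hz' hz (by omega)
      exact_mod_cast this
    | 1, _ =>
      rcases (zs G k a b Q).eq_empty_or_nonempty with he | ⟨z₀, hz₀⟩
      · rw [he]; simp
      have h1 := comb1 (zs G k a b Q) (fun z => z (qq (Pz z Q)))
        (fun v => if v ∈ clo G Q (z₀ (qq (Pz z₀ Q) - 1)) (z₀ (bb (Pz z₀ Q))) then 1 else 0)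
        (fun _ => 0) (fun v => by split_ifs <;> norm_num) ?_ ?_
      · refine le_trans (le_of_eq (Finset.sum_congr rfl (fun z hz => ?_))) h1
        simp only [L3]
        rw [sum_indicator_card, image_Pz_zs hz, front_eq hk hz₀ hz ha hb (by omega),
          back_eq hk hz₀ hz ha hb (by omega)]
        have h2 := mem_clo_self hk hz ha hb (by omega)
        rw [front_eq hk hz₀ hz ha hb (by omega), back_eq hk hz₀ hz ha hb (by omega)] at h2
        rw [if_pos h2]
        simp
      · intro z hz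
        have h2 := mem_clo_self hk hz ha hb (by omega)
        rw [front_eq hk hz₀ hz ha hb (by omega), back_eq hk hz₀ hz ha hb (by omega)] at h2
        show (0 : ℝ) < if _ then _ else _
        rw [if_pos h2]; norm_num
      · intro v _
        simp only [neg_zero, Real.exp_zero, Finset.sum_const, nsmul_eq_mul, mul_one]
        have : ((zs G k a b Q).filter (fun z => z (qq (Pz z Q)) = v)).card ≤ 1 := by
          rw [Finset.card_le_one]
          intro z hz z' hz'
          rw [Finset.mem_filter] at hz hz'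
          have h3 := mem_zs_insert hz.1 (qq (Pz z Q))
          have h3' := mem_zs_insert hz'.1 (qq (Pz z' Q))
          rw [hz.2] at h3
          rw [hz'.2] at h3'
          have hc := card_Pz_zs hk hz.1
          have h4 : v ∉ Q := by
            rw [← hz.2, ← mem_Pz]; exact qq_notMem (by omega)
          exact zs_unique hk h3' h3 (by rw [Finset.card_insert_of_notMem h4]; omega)
        exact_mod_cast this
    | (m+2), ih =>
      rcases (zs G k a b Q).eq_empty_or_nonempty with he | ⟨z₀, hz₀⟩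
      · rw [he]; simp
      have hwpos : ∀ z ∈ zs G k a b Q, wG G Q (z₀ (qq (Pz z₀ Q) - 1)) (z₀ (bb (Pz z₀ Q)))
          (z (qq (Pz z Q))) = om (Pz z Q) := by
        intro z hz
        have h2 := wG_self hk hz ha hb (by omega)
        rw [front_eq hk hz₀ hz ha hb (by omega), back_eq hk hz₀ hz ha hb (by omega)] at h2
        exact h2
      have h1 := comb1 (zs G k a b Q) (fun z => z (qq (Pz z Q)))
        (fun v => wG G Q (z₀ (qq (Pz z₀ Q) - 1)) (z₀ (bb (Pz z₀ Q))) v)
        (fun z => L3 G (m+1) (insert (qq (Pz z Q)) (Pz z Q)) z)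
        (fun v => by unfold wG; split_ifs <;> norm_num) ?_ ?_
      · refine le_trans (le_of_eq (Finset.sum_congr rfl (fun z hz => ?_))) h1
        simp only [L3]
        rw [image_Pz_zs hz, front_eq hk hz₀ hz ha hb (by omega),
          back_eq hk hz₀ hz ha hb (by omega), hwpos z hz]
      · intro z hz
        show 0 < wG _ _ _ _ _
        rw [hwpos z hz]
        unfold om; split_ifs <;> norm_num
      · intro v _
        rcases ((zs G k a b Q).filter (fun z => z (qq (Pz z Q)) = v)).eq_empty_or_nonempty with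
          he | ⟨z₁, hz₁⟩
        · rw [he]; simp
        rw [Finset.mem_filter] at hz₁
        have hc := card_Pz_zs hk hz₁.1
        have h4 : v ∉ Q := by
          rw [← hz₁.2, ← mem_Pz]; exact qq_notMem (by omega)
        have h5 := ih (m+1) (by omega) (insert v Q) (Finset.mem_insert_of_mem ha)
          (Finset.mem_insert_of_mem hb) (by rw [Finset.card_insert_of_notMem h4]; omega)
        refine le_trans ?_ h5
        have h6 : ∀ z ∈ (zs G k a b Q).filter (fun z => z (qq (Pz z Q)) = v),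
            Real.exp (-(L3 G (m+1) (insert (qq (Pz z Q)) (Pz z Q)) z))
              = Real.exp (-(L3 G (m+1) (Pz z (insert v Q)) z)) := by
          intro z hz
          rw [Finset.mem_filter] at hz
          have hinj := (mem_zs.1 hz.1).1.inj hk
          rw [← Pz_insert hinj, hz.2]
        rw [Finset.sum_congr rfl h6]
        refine Finset.sum_le_sum_of_subset_of_nonneg ?_ (fun _ _ _ => (Real.exp_pos _).le)
        intro z hz
        rw [Finset.mem_filter] at hz
        have := mem_zs_insert hz.1 (qq (Pz z Q))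
        rwa [hz.2] at this

theorem scan_code (hk : 5 ≤ k) (G : SimpleGraph V) (a b : V) (m : ℕ) (Q : Finset V)
    (ha : a ∈ Q) (hb : b ∈ Q) (hQ : Q.card + m = k) :
    ∑ z ∈ (zs G k a b Q).filter (fun z => -1 ∈ Pz z Q ∨ 2 ∈ Pz z Q),
      Real.exp (-(L3 G m (Pz z Q) z)) ≤ 1 :=
  le_trans (Finset.sum_le_sum_of_subset_of_nonneg (Finset.filter_subset _ _)
    (fun _ _ _ => (Real.exp_pos _).le)) (scan_code' hk G a b m Q ha hb hQ)

theorem cond_iff (hk : 5 ≤ k) {G : SimpleGraph V} {a b : V} {Q : Finset V} {z z' : ZMod k → V}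
    (hz : z ∈ zs G k a b Q) (hz' : z' ∈ zs G k a b Q) (ha : a ∈ Q) (hb : b ∈ Q)
    (h : -1 ∈ Pz z Q ∨ 2 ∈ Pz z Q) : -1 ∈ Pz z' Q ∨ 2 ∈ Pz z' Q := by
  have h0 := zero_mem_Pz hz ha
  have h1 := one_mem_Pz hz hb
  rcases h with h | h
  · left
    have := (walk_neg hk hz hz' 1 (fun s hs => by
      have : s = 0 ∨ s = 1 := by omega
      rcases this with rfl | rfl
      · simpa using h0
      · simpa using h)).1
    rw [mem_Pz]
    simp only [Nat.cast_one] at this
    rw [this, ← mem_Pz]; exact h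
  · right
    have := (walk_pos hk hz hz' 1 (fun s hs => by
      have : s = 0 ∨ s = 1 ∨ s = 2 := by omega
      rcases this with rfl | rfl | rfl
      · simpa using h0
      · simpa using h1
      · simpa using h)).2
    rw [mem_Pz]
    have e : ((1 : ℕ) : ZMod k) + 1 = 2 := by norm_num
    rw [e] at this
    rw [this, ← mem_Pz]; exact h

theorem pair_code (hk : 5 ≤ k) (G : SimpleGraph V) (a b : V) (Q : Finset V)
    (ha : a ∈ Q) (hb : b ∈ Q) (hQ : Q.card + 2 ≤ k) :
    ∑ z ∈ zs G k a b Q, Real.exp (-(L10 G (Pz z Q) z)) ≤ 1 := by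
  rcases (zs G k a b Q).eq_empty_or_nonempty with he | ⟨z₀, hz₀⟩
  · rw [he]; simp
  by_cases hc : -1 ∈ Pz z₀ Q ∨ 2 ∈ Pz z₀ Q
  · refine le_trans (le_of_eq (Finset.sum_congr rfl (fun z hz => ?_)))
      (scan_code' hk G a b (k - Q.card) Q ha hb (by omega))
    unfold L10
    rw [if_pos (cond_iff hk hz₀ hz ha hb hc), card_Pz_zs hk hz]
  · have hcz : ∀ z ∈ zs G k a b Q, ¬ (-1 ∈ Pz z Q ∨ 2 ∈ Pz z Q) := fun z hz h =>
      hc (cond_iff hk hz hz₀ ha hb h)
    have hne : (-1 : ZMod k) ≠ 2 := fun h => ne0_3 hk (by linear_combination -h)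
    have hmem : ∀ z ∈ zs G k a b Q, (z (-1), z 2) ∈ prs G Q a b := by
      intro z hz
      have hcyc := (mem_zs.1 hz).1
      have hinj := hcyc.inj hk
      have hz0 := (mem_zs.1 hz).2.1
      have hz1 := (mem_zs.1 hz).2.2.1
      unfold prs
      rw [Finset.mem_filter]
      have hnb : ∀ i : ZMod k, (nb G (z i) Q).card ≤ 2 := by
        intro i
        have h1 := card_nb_image hinj (G := G) (z i) (Pz z Q)
        rw [image_Pz_zs hz] at h1
        rw [h1, hcyc.pat_self]
        exact (Finset.card_le_card Finset.inter_subset_left).trans Finset.card_le_two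
      refine ⟨Finset.mem_univ _, ?_, ?_, ?_, hnb _, hnb _⟩
      · show G.Adj (z (-1)) a
        rw [← hz0, hcyc]
        left; ring
      · show G.Adj (z 2) b
        rw [← hz1, hcyc]
        right; ring
      · show ¬ G.Adj (z (-1)) (z 2)
        rw [hcyc]
        rintro (h | h)
        · exact ne0_2 hk (by linear_combination h)
        · exact ne0_4 hk (by linear_combination -h)
    have hsum : (∑ v : V × V, (if v ∈ prs G Q a b then (1 : ℝ) else 0))
        = ((prs G Q a b).card : ℝ) := by simp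
    have h1 := comb1' (zs G k a b Q) (fun z => (z (-1), z 2))
      (fun v => if v ∈ prs G Q a b then 1 else 0)
      (fun z => L3 G (k - Q.card - 2) (insert (-1) (insert 2 (Pz z Q))) z)
      (fun v => by split_ifs <;> norm_num) ?_ ?_
    · rw [hsum] at h1
      refine le_trans (le_of_eq (Finset.sum_congr rfl (fun z hz => ?_))) h1
      unfold L10
      rw [if_neg (hcz z hz), card_Pz_zs hk hz, image_Pz_zs hz,
        (mem_zs.1 hz).2.1, (mem_zs.1 hz).2.2.1, if_pos (hmem z hz), Real.log_one, sub_zero]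
    · intro z hz
      show (0 : ℝ) < if _ then _ else _
      rw [if_pos (hmem z hz)]; norm_num
    · rintro ⟨x, v⟩ _ t ht htv
      rcases t.eq_empty_or_nonempty with rfl | ⟨z₁, hz₁⟩
      · simp
      have key : ∀ z ∈ t, z ∈ zs G k a b (insert x (insert v Q)) ∧
          Pz z (insert x (insert v Q)) = insert (-1) (insert 2 (Pz z Q)) := by
        intro z hz
        have h2 := htv z hz
        rw [Prod.mk.injEq] at h2
        obtain ⟨hx, hv⟩ := h2
        have hz := ht hz
        have hinj := (mem_zs.1 hz).1.inj hk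
        rw [← hx, ← hv]
        exact ⟨mem_zs_insert (mem_zs_insert hz 2) (-1), by rw [Pz_insert hinj, Pz_insert hinj]⟩
      have hcard : (insert x (insert v Q)).card = Q.card + 2 := by
        have h2 := card_Pz_zs hk (key z₁ hz₁).1
        have hz₁' := ht hz₁
        have h3 := hcz z₁ hz₁'
        rw [← h2, (key z₁ hz₁).2, Finset.card_insert_of_notMem, Finset.card_insert_of_notMem,
          card_Pz_zs hk hz₁']
        · exact fun h => h3 (Or.inr h)
        · rw [Finset.mem_insert, not_or]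
          exact ⟨hne, fun h => h3 (Or.inl h)⟩
      have h5 := scan_code' hk G a b (k - Q.card - 2) (insert x (insert v Q))
        (Finset.mem_insert_of_mem (Finset.mem_insert_of_mem ha))
        (Finset.mem_insert_of_mem (Finset.mem_insert_of_mem hb)) (by omega)
      refine le_trans ?_ h5
      have h6 : ∀ z ∈ t,
          Real.exp (-(L3 G (k - Q.card - 2) (insert (-1) (insert 2 (Pz z Q))) z))
            = Real.exp (-(L3 G (k - Q.card - 2) (Pz z (insert x (insert v Q))) z)) := by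
        intro z hz
        rw [(key z hz).2]
      show ∑ z ∈ t, Real.exp (-(L3 G (k - Q.card - 2) (insert (-1) (insert 2 (Pz z Q))) z)) ≤ _
      rw [Finset.sum_congr rfl h6]
      exact Finset.sum_le_sum_of_subset_of_nonneg (fun z hz => (key z hz).1)
        (fun _ _ _ => (Real.exp_pos _).le)

end

end Pool.Agent.TH467
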