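import Pool.Agent.TH467.RegB

set_option autoImplicit false
set_option linter.unusedSectionVars false

open Finset

namespace Pool.Agent.TH467

noncomputable section
open Classical

variable {k : ℕ} [NeZero k]

/-- bundled numeric facts on one round in regime B -/
structure RB (K M s p : ℝ) : Prop where
  hK : (10:ℝ) ^ 20 ≤ K
  hM1 : K - 3 * p ≤ M
  hM2 : M ≤ K
  hp0 : 0 ≤ p
  hp : p ≤ 40002
  hs1 : K ≤ 20000000 * s
  hs2 : 2 * s ≤ K

theorem RB.Kpos {K M s p : ℝ} (h : RB K M s p) : 0 < K := by
  have := h.hK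
  have e : (10:ℝ)^20 = 100000000000000000000 := by norm_num
  linarith

theorem RB.Mpos {K M s p : ℝ} (h : RB K M s p) : 0 < M := by
  have := h.hK; have := h.hM1; have := h.hp
  have e : (10:ℝ)^20 = 100000000000000000000 := by norm_num
  linarith

theorem RB.half {K M s p : ℝ} (h : RB K M s p) : K / 2 ≤ M := by
  have := h.hK; have := h.hM1; have := h.hp
  have e : (10:ℝ)^20 = 100000000000000000000 := by norm_num
  linarith

theorem RB.invM {K M s p : ℝ} (h : RB K M s p) : 1 / M ≤ 2 / K := by
  rw [div_le_div_iff₀ h.Mpos h.Kpos]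
  have := h.half; linarith

theorem RB.nbr {K M s p : ℝ} (h : RB K M s p) : (s / 2) / M ≤ (2 * s / K) / 4 + 80004 / K := by
  have hK := h.Kpos
  have hM := h.Mpos
  have e1 : (2 * s / K) / 4 + 80004 / K = (s / 2 + 80004) / K := by field_simp; ring
  rw [e1, div_le_div_iff₀ hM hK]
  have h1 := h.hM1
  have h2 := h.hp
  have h3 := h.hs2
  have h4 := h.hK
  have h5 := h.hp0
  have e : (10:ℝ)^20 = 100000000000000000000 := by norm_num
  rw [e] at h4
  have hs0 : 0 ≤ s := by have := h.hs1; linarith
  have : (s / 2 + 80004) * (K - 120006) ≤ (s / 2 + 80004) * M := by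
    apply mul_le_mul_of_nonneg_left _ (by positivity)
    linarith
  nlinarith

theorem RB.hit {K M s p D : ℝ} (h : RB K M s p) (hD : 0 ≤ D) :
    D * (2 * s / K - 240012 / K) ≤ D * (4 * s - 12 * p) / (2 * M) := by
  have hK := h.Kpos
  have hM := h.Mpos
  have e1 : D * (4 * s - 12 * p) / (2 * M) = D * ((2 * s - 6 * p) / M) := by field_simp; ring
  rw [e1]
  apply mul_le_mul_of_nonneg_left _ hD
  have e2 : 2 * s / K - 240012 / K = (2 * s - 240012) / K := by ring
  rw [e2, div_le_div_iff₀ hK hM]
  have h1 := h.hM2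
  have h2 := h.hp
  have h3 := h.hs1
  have h4 := h.hK
  have h5 := h.hp0
  have e : (10:ℝ)^20 = 100000000000000000000 := by norm_num
  rw [e] at h4
  have a1 : 0 ≤ 2 * s - 240012 := by linarith
  have a2 : 2 * s - 240012 ≤ 2 * s - 6 * p := by linarith
  calc (2 * s - 240012) * M ≤ (2 * s - 240012) * K := mul_le_mul_of_nonneg_left h1 a1
    _ ≤ (2 * s - 6 * p) * K := mul_le_mul_of_nonneg_right a2 hK.le

theorem RB.h0 {K M s p : ℝ} (h : RB K M s p) : 0 ≤ 2 * s / K := by
  have := h.Kpos
  have h1 := h.hs1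
  have : 0 ≤ s := by linarith
  positivity

theorem RB.h1 {K M s p : ℝ} (h : RB K M s p) : 2 * s / K ≤ 1 := by
  rw [div_le_one h.Kpos]; exact h.hs2

theorem mkRB {S P : Finset (ZMod k)} (hbig : 10 ^ 20 ≤ k) (hs1 : k ≤ 20000000 * S.card)
    (hs2 : 2 * S.card ≤ k) (hP : P.card ≤ 40002) :
    RB (k : ℝ) ((Av P).card : ℝ) (S.card : ℝ) (P.card : ℝ) where
  hK := by exact_mod_cast hbig
  hM1 := by
    have := card_Av_ge P
    have h' : (k : ℝ) ≤ ((Av P).card : ℝ) + 3 * (P.card : ℝ) := by exact_mod_cast this
    linarith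
  hM2 := by exact_mod_cast card_Av_le P
  hp0 := by positivity
  hp := by exact_mod_cast hP
  hs1 := by exact_mod_cast hs1
  hs2 := by exact_mod_cast hs2

theorem c1_nothit (hbig : 10 ^ 20 ≤ k) {S : Finset (ZMod k)} {x : ZMod k} (hS : Indep S)
    (htw : ¬ IsTw S) (hx : x ∈ S) (hmin : ∀ y ∈ S, x.val ≤ y.val)
    (hs1 : k ≤ 20000000 * S.card) (hs2 : 2 * S.card ≤ k)
    (hS0 : (0 : ZMod k) ∉ S) (hS1 : (1 : ZMod k) ∉ S) (i : ℕ) :
    ∀ P : Finset (ZMod k), (0 : ZMod k) ∈ P → (1 : ZMod k) ∈ P → P.card + 2 * i ≤ 40002 →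
    c1 i S P ≤ vB (2 * (S.card : ℝ) / (k : ℝ)) i (S ∩ P).card + 2 * dd x P + i * (500000 / (k : ℝ)) := by
  have hk : 5 ≤ k := by omega
  have hs4 : 4 ≤ S.card := by omega
  induction i with
  | zero =>
    intro P h0 h1 _
    have h2 := c10_nothit hk hS htw hx hmin hs4 hS0 hS1 P h0 h1
    simp only [c1]
    have h3 : gg (S ∩ P).card = vB (2 * (S.card : ℝ) / (k : ℝ)) 0 (S ∩ P).card := by
      match (S ∩ P).card with
      | 0 => simp [gg, vB]; norm_num
      | 1 => simp [gg, vB]
      | (n+2) => simp [gg, vB]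
    rw [← h3]; push_cast; linarith
  | succ i ih =>
    intro P h0 h1 hP
    have R := mkRB (S := S) (P := P) hbig hs1 hs2 (by omega)
    rw [c1_succ]
    set M : ℝ := ((Av P).card : ℝ) with hM
    set s : ℝ := (S.card : ℝ) with hs
    set K : ℝ := (k : ℝ) with hK
    set p : ℝ := (P.card : ℝ) with hp
    set h : ℝ := 2 * s / K with hh
    have hKpos := R.Kpos
    have hMpos := R.Mpos
    have hh0 : 0 ≤ h := R.h0
    have hh1 : h ≤ 1 := R.h1
    have hpow0 : 0 ≤ (1 - h) ^ i := pow_nonneg (by linarith) i
    have hpow1 : (1 - h) ^ i ≤ 1 := pow_le_one₀ (by linarith) (by linarith)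
    have hv : vB h i ((S ∩ P).card + 1) ≤ vB h i (S ∩ P).card := by
      match (S ∩ P).card with
      | 0 => simp only [vB]; linarith
      | 1 => simp only [vB]; norm_num
      | (n+2) => simp only [vB]; norm_num
    have t3 : ∑ e : ZMod k, mu P e * c1 i S (PE P e) ≤ ∑ e : ZMod k, mu P e *
        (vB h i (S ∩ PE P e).card + 2 * dd x (PE P e) + i * (500000 / K)) := by
      apply sum_mu_le
      intro e he
      exact ih (PE P e) (subset_PE P e h0) (subset_PE P e h1) (by rw [card_PE hk he]; omega)
    have t4 : ∑ e : ZMod k, mu P e *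
        (vB h i (S ∩ PE P e).card + 2 * dd x (PE P e) + i * (500000 / K)) =
        ∑ e : ZMod k, mu P e * vB h i (S ∩ PE P e).card + 2 * ∑ e : ZMod k, mu P e * dd x (PE P e)
        + 2 * M * (i * (500000 / K)) := by
      rw [← sum_mu, Finset.sum_mul, Finset.mul_sum, ← Finset.sum_add_distrib,
        ← Finset.sum_add_distrib]
      apply Finset.sum_congr rfl
      intro e _
      ring
    have t5 := sum_value hk hS (vB h i) hv
    have t6 := dd_step x P
    rw [← hM, ← hs, ← hp] at t5
    rw [← hM] at t6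
    set D : ℝ := vB h i (S ∩ P).card - vB h i ((S ∩ P).card + 1) with hD
    have hD0 : 0 ≤ D := by rw [hD]; linarith
    have hD1 : D ≤ 7/10 := by
      rw [hD]
      match (S ∩ P).card with
      | 0 => simp only [vB]; linarith
      | 1 => simp only [vB]; norm_num
      | (n+2) => simp only [vB]; norm_num
    have t7 : (∑ e : ZMod k, mu P e * c1 i S (PE P e)) / (2 * M) ≤
        vB h i (S ∩ P).card - D * (h - 240012 / K) + 2 * dd x P + 8 * (2 / K)
        + i * (500000 / K) := by
      have b1 := R.hit hD0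
      rw [← hh] at b1
      have b2 := R.invM
      have b3 : (∑ e : ZMod k, mu P e * c1 i S (PE P e)) / (2 * M) ≤
        (2 * M * vB h i (S ∩ P).card - D * (4 * s - 12 * p) + 2 * (2 * M * dd x P + 8)
          + 2 * M * (i * (500000 / K))) / (2 * M) := by
        apply div_le_div_of_nonneg_right _ (by positivity)
        linarith
      refine b3.trans ?_
      have b4 : (2 * M * vB h i (S ∩ P).card - D * (4 * s - 12 * p) + 2 * (2 * M * dd x P + 8)
          + 2 * M * (i * (500000 / K))) / (2 * M) = vB h i (S ∩ P).card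
          - D * (4 * s - 12 * p) / (2 * M) + 2 * dd x P + 8 * (1 / M) + i * (500000 / K) := by
        field_simp
        ring
      rw [b4]
      linarith
    have t2 := nbr_cost_le S P
    rw [← hs] at t2
    have t8 : (∑ w ∈ Av P, (if w ∈ S ∧ (S ∩ insert w P).card ≤ 2 then (1/2 : ℝ) else 0)) / M ≤
        h / 4 + 80004 / K := by
      refine (div_le_div_of_nonneg_right t2 hMpos.le).trans ?_
      exact R.nbr
    have hDK : D * (240012 / K) ≤ 7/10 * (240012 / K) :=
      mul_le_mul_of_nonneg_right hD1 (by positivity)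
    have hKinv : 0 < 1 / K := by positivity
    have eK1 : 80004 / K = 80004 * (1 / K) := by ring
    have eK2 : 240012 / K = 240012 * (1 / K) := by ring
    have eK3 : 2 / K = 2 * (1 / K) := by ring
    have eK4 : 500000 / K = 500000 * (1 / K) := by ring
    have hM1 := R.invM
    rw [eK3] at hM1 t7
    rw [eK2] at hDK t7
    rw [eK1] at t8
    rw [eK4] at t7 ⊢
    rcases Nat.lt_or_ge (S ∩ P).card 2 with hlt | hge
    · rcases Nat.lt_or_ge (S ∩ P).card 1 with hlt1 | hge1
      · have hN : (S ∩ P).card = 0 := by omega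
        have t1 : (if S ∩ P = ∅ then (1:ℝ) else 0) / M ≤ 1 / M := by
          apply div_le_div_of_nonneg_right _ hMpos.le
          split_ifs <;> norm_num
        rw [hN] at t7 hD ⊢
        simp only [vB] at t7 hD ⊢
        rw [pow_succ]
        push_cast
        have e5 : D * (h - 240012 * (1 / K)) = (19/20 + 1/20 * (1 - h) ^ i - 7/10) * h
            - D * (240012 * (1 / K)) := by rw [hD]; ring
        rw [e5] at t7
        have e6 : (19/20 + 1/20 * (1 - h) ^ i - 7/10) * h =
          h / 4 + 1/20 * (1 - h) ^ i * h := by ring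
        rw [e6] at t7
        linarith
      · have hN : (S ∩ P).card = 1 := by omega
        have t1 : (if S ∩ P = ∅ then (1:ℝ) else 0) / M = 0 := by
          rw [if_neg]
          · simp
          · intro h'; rw [h'] at hN; simp at hN
        rw [hN] at t7 hD ⊢
        simp only [vB] at t7 hD ⊢
        rw [t1]
        push_cast
        have e5 : D * (h - 240012 * (1 / K)) = 7/10 * h
            - D * (240012 * (1 / K)) := by rw [hD]; ring
        rw [e5] at t7
        linarith
    · obtain ⟨n, hn⟩ : ∃ n, (S ∩ P).card = n + 2 := ⟨_, (Nat.sub_add_cancel hge).symm⟩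
      have t1 : (if S ∩ P = ∅ then (1:ℝ) else 0) / M = 0 := by
        rw [if_neg]
        · simp
        · intro h'; rw [h'] at hn; simp at hn
      have t9 := nbr_cost_zero hge
      rw [hn] at t7 hD ⊢
      simp only [vB] at t7 hD ⊢
      rw [t1, t9]
      push_cast
      have : D = 0 := by rw [hD]; ring
      rw [this] at t7
      simp only [zero_div]
      linarith

theorem c1_hit (hbig : 10 ^ 20 ≤ k) {S : Finset (ZMod k)} {x : ZMod k} (hS : Indep S)
    (htw : ¬ IsTw S) (hx : x ∈ S) (hmin : ∀ y ∈ S, x.val ≤ y.val)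
    (hs1 : k ≤ 20000000 * S.card) (hs2 : 2 * S.card ≤ k) (i : ℕ) :
    ∀ P : Finset (ZMod k), (0 : ZMod k) ∈ P → (1 : ZMod k) ∈ P → P.card + 2 * i ≤ 40002 →
    1 ≤ (S ∩ P).card →
    c1 i S P ≤ wB (2 * (S.card : ℝ) / (k : ℝ)) i (S ∩ P).card + i * (5000000 / (k : ℝ)) := by
  have hk : 5 ≤ k := by omega
  have hs4 : 4 ≤ S.card := by omega
  induction i with
  | zero =>
    intro P h0 h1 _ hN
    simp only [c1]
    rcases Nat.lt_or_ge (S ∩ P).card 3 with h3 | h3
    · have h2 := c10_le_twenty hk hS htw hx hmin P h0 h1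
      have h4 : 20 ≤ wB (2 * (S.card : ℝ) / (k : ℝ)) 0 (S ∩ P).card := by
        have : (S ∩ P).card = 1 ∨ (S ∩ P).card = 2 := by omega
        rcases this with h5 | h5
        · rw [h5]; simp [wB]; norm_num
        · rw [h5]; simp [wB]; norm_num
      push_cast; linarith
    · have h2 := c10_hit hk hS htw hx hmin hs4 P h0 h1 h3
      have h4 : 0 ≤ wB (2 * (S.card : ℝ) / (k : ℝ)) 0 (S ∩ P).card := by
        unfold wB
        rw [pow_zero]
        have : (0:ℝ) ≤ 80 / 2 ^ (S ∩ P).card * 1 := by positivity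
        split_ifs <;> linarith
      push_cast; linarith
  | succ i ih =>
    intro P h0 h1 hP hN1
    have R := mkRB (S := S) (P := P) hbig hs1 hs2 (by omega)
    rw [c1_succ]
    set M : ℝ := ((Av P).card : ℝ) with hM
    set s : ℝ := (S.card : ℝ) with hs
    set K : ℝ := (k : ℝ) with hK
    set p : ℝ := (P.card : ℝ) with hp
    set h : ℝ := 2 * s / K with hh
    have hKpos := R.Kpos
    have hMpos := R.Mpos
    have hh0 : 0 ≤ h := R.h0
    have hh1 : h ≤ 1 := R.h1
    set q : ℝ := (1 - h/2) ^ i with hq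
    have hpow0 : 0 ≤ q := pow_nonneg (by linarith) i
    have hpow1 : q ≤ 1 := pow_le_one₀ (by linarith) (by linarith)
    obtain ⟨n, hn⟩ : ∃ n, (S ∩ P).card = n + 1 := ⟨_, (Nat.sub_add_cancel hN1).symm⟩
    have h2n : (1:ℝ) ≤ 2 ^ n := one_le_pow₀ (by norm_num)
    have e2n : wB h i (n + 1) - wB h i (n + 1 + 1) = (if n + 1 = 1 then 1/4 else 0) + 20 / 2 ^ n * q := by
      unfold wB
      rw [if_neg (show ¬ (n + 1 + 1 = 1) by omega), ← hq]
      have e1 : (80:ℝ) / 2 ^ (n + 1) = 40 / 2 ^ n := by rw [pow_succ]; field_simp; norm_num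
      have e2 : (80:ℝ) / 2 ^ (n + 1 + 1) = 20 / 2 ^ n := by rw [pow_succ, pow_succ]; field_simp; norm_num
      rw [e1, e2]; ring
    have h20 : 20 / 2 ^ n * q ≤ 20 := by
      have : (20:ℝ) / 2 ^ n ≤ 20 := by rw [div_le_iff₀ (by positivity)]; linarith
      nlinarith
    have h20' : 0 ≤ 20 / 2 ^ n * q := by positivity
    have hv : wB h i ((S ∩ P).card + 1) ≤ wB h i (S ∩ P).card := by
      rw [hn]
      have : (0:ℝ) ≤ (if n + 1 = 1 then 1/4 else 0) := by split_ifs <;> norm_num
      linarith
    have t3 : ∑ e : ZMod k, mu P e * c1 i S (PE P e) ≤ ∑ e : ZMod k, mu P e *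
        (wB h i (S ∩ PE P e).card + i * (5000000 / K)) := by
      apply sum_mu_le
      intro e he
      refine ih (PE P e) (subset_PE P e h0) (subset_PE P e h1) (by rw [card_PE hk he]; omega) ?_
      rw [card_inter_PE hk hS he]; omega
    have t4 : ∑ e : ZMod k, mu P e *
        (wB h i (S ∩ PE P e).card + i * (5000000 / K)) =
        ∑ e : ZMod k, mu P e * wB h i (S ∩ PE P e).card
        + 2 * M * (i * (5000000 / K)) := by
      rw [← sum_mu, Finset.sum_mul, ← Finset.sum_add_distrib]
      apply Finset.sum_congr rfl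
      intro e _
      ring
    have t5 := sum_value hk hS (wB h i) hv
    rw [← hM, ← hs, ← hp] at t5
    set D : ℝ := wB h i (S ∩ P).card - wB h i ((S ∩ P).card + 1) with hD
    have hD0 : 0 ≤ D := by rw [hD]; linarith
    have hD1 : D ≤ 81/4 := by
      rw [hD, hn, e2n]
      split_ifs <;> linarith
    have t7 : (∑ e : ZMod k, mu P e * c1 i S (PE P e)) / (2 * M) ≤
        wB h i (S ∩ P).card - D * (h - 240012 / K) + i * (5000000 / K) := by
      have b1 := R.hit hD0
      rw [← hh] at b1
      have b3 : (∑ e : ZMod k, mu P e * c1 i S (PE P e)) / (2 * M) ≤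
        (2 * M * wB h i (S ∩ P).card - D * (4 * s - 12 * p)
          + 2 * M * (i * (5000000 / K))) / (2 * M) := by
        apply div_le_div_of_nonneg_right _ (by positivity)
        linarith
      refine b3.trans ?_
      have b4 : (2 * M * wB h i (S ∩ P).card - D * (4 * s - 12 * p)
          + 2 * M * (i * (5000000 / K))) / (2 * M) = wB h i (S ∩ P).card
          - D * (4 * s - 12 * p) / (2 * M) + i * (5000000 / K) := by
        field_simp
      rw [b4]
      linarith
    have hDK : D * (240012 / K) ≤ 81/4 * (240012 / K) :=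
      mul_le_mul_of_nonneg_right hD1 (by positivity)
    have hKinv : 0 < 1 / K := by positivity
    have eK1 : 80004 / K = 80004 * (1 / K) := by ring
    have eK2 : 240012 / K = 240012 * (1 / K) := by ring
    have eK4 : 5000000 / K = 5000000 * (1 / K) := by ring
    have t1 : (if S ∩ P = ∅ then (1:ℝ) else 0) / M = 0 := by
      rw [if_neg]
      · simp
      · intro h'; rw [h'] at hn; simp at hn
    rw [eK2] at hDK t7
    rw [eK4] at t7 ⊢
    rw [t1]
    have hsucc : wB h (i+1) (n+1) = wB h i (n+1) - (20 / 2 ^ n * q) * h := by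
      unfold wB
      have e1 : (80:ℝ) / 2 ^ (n + 1) = 40 / 2 ^ n := by rw [pow_succ]; field_simp; norm_num
      rw [e1, pow_succ, ← hq]; ring
    rcases Nat.eq_zero_or_pos n with hz | hpos
    · have t2 := nbr_cost_le S P
      rw [← hs] at t2
      have t8 : (∑ w ∈ Av P, (if w ∈ S ∧ (S ∩ insert w P).card ≤ 2 then (1/2 : ℝ) else 0)) / M ≤
          h / 4 + 80004 / K := by
        refine (div_le_div_of_nonneg_right t2 hMpos.le).trans ?_
        exact R.nbr
      rw [eK1] at t8
      rw [hn] at t7 ⊢
      rw [hsucc]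
      have hDval : D = 1/4 + 20 / 2 ^ n * q := by
        rw [hD, hn, e2n, if_pos (by omega)]
      push_cast
      have e5 : D * (h - 240012 * (1 / K)) = h / 4 + (20 / 2 ^ n * q) * h
          - D * (240012 * (1 / K)) := by rw [hDval]; ring
      rw [e5] at t7
      linarith
    · have t9 := nbr_cost_zero (S := S) (P := P) (by omega)
      rw [t9]
      rw [hn] at t7 ⊢
      rw [hsucc]
      have hDval : D = 20 / 2 ^ n * q := by
        rw [hD, hn, e2n, if_neg (by omega), zero_add]
      push_cast
      have e5 : D * (h - 240012 * (1 / K)) = (20 / 2 ^ n * q) * h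
          - D * (240012 * (1 / K)) := by rw [hDval]; ring
      rw [e5] at t7
      simp only [zero_div]
      linarith

/-- the final numeric inequality in regime B -/
theorem final_numeric {h q q' : ℝ} (h1 : 1 / 10000000 ≤ h) (h2 : h ≤ 1)
    (hq0 : 0 ≤ q) (hq : q * (1 + 20000 * h) ≤ 1) (hq'0 : 0 ≤ q') (hq' : q' * (1 + 10000 * h) ≤ 1) :
    (1 - h) * (19/20 + q/20) + h * (1/2 + 40 * q') ≤ 1 - 1/1000000 := by
  have hh0 : 0 < h := by linarith
  -- set A = 20000 h / (1 + 20000 h)
  set t : ℝ := 20000 * h with ht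
  have ht0 : 0 < t := by positivity
  have hp : 0 < 1 + t := by linarith
  set A : ℝ := t / (1 + t) with hA
  have hA0 : 0 < A := by positivity
  have hA1 : A ≤ 1 := by rw [hA, div_le_one hp]; linarith
  have hAm : A * (1 + t) = t := by rw [hA]; field_simp
  have hqA : q ≤ 1 - A := by
    have : 1 - A = 1 / (1 + t) := by rw [hA]; field_simp; ring
    rw [this, le_div_iff₀ hp]; exact hq
  have hAlow : 1 / 501 ≤ A := by
    rw [hA, div_le_div_iff₀ (by norm_num) hp]
    rw [ht]; linarith
  have hq'A : h * q' ≤ A / 10000 := by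
    have e1 : 1 + 10000 * h = 1 + t / 2 := by rw [ht]; ring
    rw [e1] at hq'
    have e2 : q' ≤ 2 / (2 + t) := by
      rw [le_div_iff₀ (by linarith)]; linarith
    have e3 : h * q' ≤ h * (2 / (2 + t)) := mul_le_mul_of_nonneg_left e2 hh0.le
    have e4 : h * (2 / (2 + t)) ≤ A / 10000 := by
      have : h = t / 20000 := by rw [ht]; ring
      rw [this, hA]
      have e5 : t / 20000 * (2 / (2 + t)) = (t / 10000) / (2 + t) := by field_simp; norm_num
      have e6 : t / (1 + t) / 10000 = (t / 10000) / (1 + t) := by field_simp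
      rw [e5, e6]
      apply div_le_div_of_nonneg_left (by positivity) hp (by linarith)
    linarith
  have hmain : (1 - h) * (q / 20) ≤ (1 - h) * ((1 - A) / 20) := by
    apply mul_le_mul_of_nonneg_left _ (by linarith)
    linarith
  -- total ≤ (1-h)(1 - A/20) + h/2 + 40 A / 10000
  have htot : (1 - h) * (19/20 + q/20) + h * (1/2 + 40 * q') ≤
      (1 - h) * (1 - A / 20) + h / 2 + 40 * (A / 10000) := by
    nlinarith
  refine htot.trans ?_
  rcases le_or_gt h (1/2) with hc | hc
  · nlinarith
  · nlinarith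

theorem two_card_le {S : Finset (ZMod k)} (hS : Indep S) : 2 * S.card ≤ k := by
  have h1 : Disjoint S (S.image (fun y => y + 1)) := by
    rw [Finset.disjoint_left]
    intro y hy hy'
    rw [Finset.mem_image] at hy'
    obtain ⟨a, ha, rfl⟩ := hy'
    exact hS a ha hy
  have h2 := Finset.card_union_of_disjoint h1
  have h3 := card_le_k (S ∪ S.image (fun y => y + 1))
  rw [h2, Finset.card_image_of_injective] at h3
  · omega
  · intro a b h; simpa using h

theorem pow_bound (n : ℕ) {h : ℝ} (h0 : 0 ≤ h) (h1 : h ≤ 1) : (1 - h) ^ n * (1 + n * h) ≤ 1 := by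
  have a1 : 1 + (n:ℝ) * h ≤ (1 + h) ^ n := one_add_mul_le_pow (by linarith) n
  have hqn : 0 ≤ (1 - h) ^ n := pow_nonneg (by linarith) _
  calc (1 - h) ^ n * (1 + n * h) ≤ (1 - h) ^ n * (1 + h) ^ n := mul_le_mul_of_nonneg_left a1 hqn
    _ = ((1 - h) * (1 + h)) ^ n := by rw [mul_pow]
    _ ≤ 1 := pow_le_one₀ (by nlinarith) (by nlinarith)

theorem regimeB (T : ℕ) (hT : T = 20000) {S : Finset (ZMod k)} (hS : Indep S) (htw : ¬ IsTw S)
    (hbig : 10 ^ 20 ≤ k) (hs1 : k ≤ 20000000 * S.card) :
    ∑ ρ : ZMod k, ff T (shift ρ S) ≤ (k : ℝ) - 1 := by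
  have hk : 5 ≤ k := by omega
  have hTr : (T : ℝ) = 20000 := by rw [hT]; norm_num
  have hs2 := two_card_le hS
  have hs4 : 4 ≤ S.card := by omega
  set s : ℝ := (S.card : ℝ) with hs
  set K : ℝ := (k : ℝ) with hK
  have hKbig : (10:ℝ) ^ 20 ≤ K := by rw [hK]; exact_mod_cast hbig
  have e20 : (10:ℝ)^20 = 100000000000000000000 := by norm_num
  rw [e20] at hKbig
  have hKpos : 0 < K := by linarith
  have hs1' : K ≤ 20000000 * s := by rw [hs, hK]; exact_mod_cast hs1
  have hs2' : 2 * s ≤ K := by rw [hs, hK]; exact_mod_cast hs2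
  set h : ℝ := 2 * s / K with hh
  have hh0 : 1 / 10000000 ≤ h := by
    rw [hh, div_le_div_iff₀ (by norm_num) hKpos]; linarith
  have hh1 : h ≤ 1 := by rw [hh, div_le_one hKpos]; exact hs2'
  set q : ℝ := (1 - h) ^ T with hq
  set q' : ℝ := (1 - h/2) ^ T with hq'
  set α : ℝ := 19/20 + 1/20 * q + 20000 * (500000 / K) with hα
  set β : ℝ := 1/4 + 40 * q' + 20000 * (5000000 / K) with hβ
  have key : ∀ ρ : ZMod k, ff T (shift ρ S) ≤ α
      + (if (0 : ZMod k) ∈ shift ρ S then (1:ℝ) else 0) * (1/2 + β - α)
      + (if (1 : ZMod k) ∈ shift ρ S then (1:ℝ) else 0) * (β - α) := by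
    intro ρ
    have hS' := shift_indep hS ρ
    have htw' := shift_not_tw htw ρ
    have hcn := shift_card ρ S
    have hc' : ((shift ρ S).card : ℝ) = s := by rw [shift_card]
    have hne' : (shift ρ S).Nonempty := by rw [← Finset.card_pos, shift_card]; omega
    obtain ⟨x, hx, hmin⟩ := Finset.exists_min_image (shift ρ S) ZMod.val hne'
    by_cases hit : (0 : ZMod k) ∈ shift ρ S ∨ (1 : ZMod k) ∈ shift ρ S
    · have hcard : (shift ρ S ∩ {0, 1}).card = 1 := by
        rcases hit with h0 | h1
        · have h1 : (1 : ZMod k) ∉ shift ρ S := by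
            have := hS' _ h0; simpa using this
          have : shift ρ S ∩ {0, 1} = {0} := by
            ext y
            rw [Finset.mem_inter, Finset.mem_insert, Finset.mem_singleton, Finset.mem_singleton]
            constructor
            · rintro ⟨hy, h | h⟩
              · exact h
              · rw [h] at hy; exact absurd hy h1
            · intro h; rw [h]; exact ⟨h0, Or.inl rfl⟩
          rw [this]; simp
        · have h0 : (0 : ZMod k) ∉ shift ρ S := by
            intro h0
            have := hS' _ h0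
            rw [zero_add] at this; exact this h1
          have : shift ρ S ∩ {0, 1} = {1} := by
            ext y
            simp only [Finset.mem_inter, Finset.mem_insert, Finset.mem_singleton]
            constructor
            · rintro ⟨hy, h | h⟩
              · rw [h] at hy; exact absurd hy h0
              · exact h
            · intro h; rw [h]; exact ⟨h1, Or.inr rfl⟩
          rw [this]; simp
      have h3 := c1_hit hbig hS' htw' hx hmin (by rw [hcn]; exact hs1) (by rw [hcn]; exact hs2)
        T {0, 1} (by simp) (by simp) (by rw [card_init hk, hT]) (by rw [hcard])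
      rw [hcard, hc', ← hK, ← hh] at h3
      unfold wB at h3
      rw [if_pos rfl, ← hq', hTr] at h3
      have hb : c1 T (shift ρ S) {0, 1} ≤ β := by
        rw [hβ]; linarith
      unfold ff
      rcases hit with h0 | h1
      · have h1 : (1 : ZMod k) ∉ shift ρ S := by
          have := hS' _ h0; simpa using this
        rw [if_pos h0, if_pos h0, if_neg h1]; linarith
      · have h0 : (0 : ZMod k) ∉ shift ρ S := by
          intro h0
          have := hS' _ h0
          rw [zero_add] at this; exact this h1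
        rw [if_neg h0, if_neg h0, if_pos h1]; linarith
    · push Not at hit
      have hcard : (shift ρ S ∩ {0, 1}).card = 0 := by
        rw [Finset.card_eq_zero, Finset.eq_empty_iff_forall_notMem]
        intro y hy
        rw [Finset.mem_inter, Finset.mem_insert, Finset.mem_singleton] at hy
        rcases hy with ⟨hy, h | h⟩
        · rw [h] at hy; exact hit.1 hy
        · rw [h] at hy; exact hit.2 hy
      have h3 := c1_nothit hbig hS' htw' hx hmin (by rw [hcn]; exact hs1) (by rw [hcn]; exact hs2)
        hit.1 hit.2 T {0, 1} (by simp) (by simp) (by rw [card_init hk, hT])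
      rw [hcard, hc', ← hK, ← hh] at h3
      simp only [vB] at h3
      rw [← hq, hTr] at h3
      have hdd : dd x {0, 1} = 0 := by
        unfold dd
        rw [if_neg]
        rw [Finset.mem_insert, Finset.mem_singleton, Finset.mem_insert, Finset.mem_singleton]
        have hbad : ∀ m : ℕ, m ≤ 2 → x = ((k - m : ℕ) : ZMod k) → 1 ≤ m → False := by
          intro m hm hxm hm1
          have hv : x.val = k - m := by
            rw [hxm, ZMod.val_natCast, Nat.mod_eq_of_lt (by omega)]
          have hsub : (shift ρ S).image ZMod.val ⊆ Finset.Ico (k - m) k := by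
            intro t ht
            rw [Finset.mem_image] at ht
            obtain ⟨y, hy, rfl⟩ := ht
            rw [Finset.mem_Ico]
            exact ⟨hv ▸ (hmin y hy), ZMod.val_lt y⟩
          have hcc := Finset.card_le_card hsub
          rw [Finset.card_image_of_injective _ (ZMod.val_injective k), Nat.card_Ico, hcn] at hcc
          omega
        rintro ((h | h) | (h | h))
        · rw [h] at hx; exact hit.1 hx
        · rw [h] at hx; exact hit.2 hx
        · apply hbad 2 le_rfl _ (by norm_num)
          rw [Nat.cast_sub (by omega)]; push_cast; simp; linear_combination h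
        · apply hbad 1 (by norm_num) _ (by norm_num)
          rw [Nat.cast_sub (by omega)]; push_cast; simp; linear_combination h
      rw [hdd] at h3
      unfold ff
      rw [if_neg hit.1, if_neg hit.1, if_neg hit.2, hα]
      linarith
  refine (Finset.sum_le_sum (fun ρ _ => key ρ)).trans ?_
  rw [Finset.sum_add_distrib, Finset.sum_add_distrib, ← Finset.sum_mul, ← Finset.sum_mul,
    sum_shift_mem, sum_shift_mem, Finset.sum_const, Finset.card_univ, ZMod.card, nsmul_eq_mul,
    ← hK, ← hs]
  have hsh : s = K * h / 2 := by rw [hh]; field_simp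
  have hqn : 0 ≤ q := pow_nonneg (by linarith) _
  have hqn' : 0 ≤ q' := pow_nonneg (by linarith) _
  have hqb : q * (1 + 20000 * h) ≤ 1 := by
    have := pow_bound T (h := h) (by linarith) hh1
    rw [hTr] at this
    exact this
  have hqb' : q' * (1 + 10000 * h) ≤ 1 := by
    have := pow_bound T (h := h/2) (by linarith) (by linarith)
    rw [hTr] at this
    have e1 : 1 + 20000 * (h / 2) = 1 + 10000 * h := by ring
    rw [e1] at this
    exact this
  have hfin := final_numeric hh0 hh1 hqn hqb hqn' hqb'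
  have hK1 : 20000 * (500000 / K) ≤ 1 / 10000000 := by
    rw [← mul_div_assoc, div_le_div_iff₀ hKpos (by norm_num)]; linarith
  have hK2 : 20000 * (5000000 / K) ≤ 1 / 10000000 := by
    rw [← mul_div_assoc, div_le_div_iff₀ hKpos (by norm_num)]; linarith
  have hK1' : 0 ≤ 20000 * (500000 / K) := by positivity
  have hK2' : 0 ≤ 20000 * (5000000 / K) := by positivity
  have hcomb : α * (1 - h) + h * β + h / 4 ≤ 1 - 1 / 2000000 := by
    rw [hα, hβ]
    have b1 : (19/20 + 1/20 * q + 20000 * (500000 / K)) * (1 - h) ≤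
        (1 - h) * (19/20 + q/20) + 1/10000000 := by nlinarith
    have b2 : h * (1/4 + 40 * q' + 20000 * (5000000 / K)) + h / 4 ≤
        h * (1/2 + 40 * q') + 1/10000000 := by nlinarith
    linarith
  have hfinal : K * α + s * (1/2 + β - α) + s * (β - α) = K * (α * (1 - h) + h * β + h / 4) := by
    rw [hsh]; ring
  rw [hfinal]
  have : K * (α * (1 - h) + h * β + h / 4) ≤ K * (1 - 1 / 2000000) :=
    mul_le_mul_of_nonneg_left hcomb hKpos.le
  linarith

/-- empty pattern -/
theorem c1_empty (hk : 5 ≤ k) (L : ℕ) (hL : 6 * L ≤ k) (i : ℕ) :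
    ∀ P : Finset (ZMod k), (0 : ZMod k) ∈ P → (1 : ZMod k) ∈ P → P.card + 2 * i ≤ L →
    c1 i ∅ P ≤ i * (2 / (k : ℝ)) := by
  induction i with
  | zero =>
    intro P h0 h1 _
    simp only [c1]
    unfold c10
    have hle := card_le_k P
    split_ifs with h2
    · rw [c3_of_empty hk (k - P.card) P (by omega)]; simp
    · have hc := card_two_more hk h2
      have hle2 := card_le_k (insert (-1 : ZMod k) (insert 2 P))
      rw [c3_of_empty hk (k - P.card - 2) _ (by omega)]
      have hntw : ¬ ((∅ : Finset (ZMod k)) = {-2, 0}) := by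
        intro h
        have : (0 : ZMod k) ∈ (∅ : Finset (ZMod k)) := by rw [h]; simp
        simp at this
      have hntw2 : ¬ ((∅ : Finset (ZMod k)) = {1, 3}) := by
        intro h
        have : (1 : ZMod k) ∈ (∅ : Finset (ZMod k)) := by rw [h]; simp
        simp at this
      have hs : ∀ a : ZMod k, ¬ ((∅ : Finset (ZMod k)) = {a}) := by
        intro a h
        have : a ∈ (∅ : Finset (ZMod k)) := by rw [h]; simp
        simp at this
      unfold cpair
      rw [if_neg hntw, if_neg hntw2, if_neg (hs 1), if_neg (hs 0), if_neg (hs (-1)), if_neg]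
      · simp
      · simp
  | succ i ih =>
    intro P h0 h1 hP
    rw [c1_succ]
    set M : ℝ := ((Av P).card : ℝ) with hM
    set K : ℝ := (k : ℝ) with hK
    have hAv := card_Av_ge P
    have hKpos : 0 < K := by rw [hK]; exact_mod_cast (by omega : 0 < k)
    have hMge : K / 2 ≤ M := by
      have : k ≤ 2 * (Av P).card := by omega
      have h' : (k : ℝ) ≤ 2 * ((Av P).card : ℝ) := by exact_mod_cast this
      rw [hK, hM]; linarith
    have hMpos : 0 < M := by linarith
    have t3 : ∑ e : ZMod k, mu P e * c1 i ∅ (PE P e) ≤ ∑ e : ZMod k, mu P e *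
        (i * (2 / K)) := by
      apply sum_mu_le
      intro e he
      exact ih (PE P e) (subset_PE P e h0) (subset_PE P e h1) (by rw [card_PE hk he]; omega)
    rw [← Finset.sum_mul, sum_mu] at t3
    have t5 : (∑ e : ZMod k, mu P e * c1 i ∅ (PE P e)) / (2 * M) ≤ i * (2 / K) := by
      rw [div_le_iff₀ (by positivity)]
      linarith
    have t2 := nbr_cost_le (∅ : Finset (ZMod k)) P
    simp only [Finset.card_empty, Nat.cast_zero, zero_div] at t2
    have t7 : (∑ w ∈ Av P, (if w ∈ (∅ : Finset (ZMod k)) ∧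
        ((∅ : Finset (ZMod k)) ∩ insert w P).card ≤ 2 then (1/2 : ℝ) else 0)) / M ≤ 0 :=
      div_nonpos_of_nonpos_of_nonneg t2 hMpos.le
    have t6 : (if (∅ : Finset (ZMod k)) ∩ P = ∅ then (1:ℝ) else 0) / M ≤ 1 / M := by
      apply div_le_div_of_nonneg_right _ hMpos.le
      split_ifs <;> norm_num
    have t8 : 1 / M ≤ 2 / K := by
      rw [div_le_div_iff₀ hMpos hKpos]; linarith
    push_cast
    linarith

/-- **The combinatorial inequality**. -/
theorem comb_main (hbig : 10 ^ 20 ≤ k) {S : Finset (ZMod k)} (hS : Indep S) :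
    ∑ ρ : ZMod k, ff 20000 (shift ρ S) ≤ (k : ℝ) - 1 := by
  have hk : 5 ≤ k := by omega
  by_cases htw : IsTw S
  · exact twin_total hk 20000 htw
  rcases S.eq_empty_or_nonempty with hE | hne
  · have hKbig : (10:ℝ) ^ 20 ≤ (k:ℝ) := by exact_mod_cast hbig
    have e20 : (10:ℝ)^20 = 100000000000000000000 := by norm_num
    rw [e20] at hKbig
    have key : ∀ ρ : ZMod k, ff 20000 (shift ρ S) ≤ 20000 * (2 / (k:ℝ)) := by
      intro ρ
      have hsh : shift ρ S = ∅ := by rw [hE]; ext y; simp [mem_shift]
      rw [hsh]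
      unfold ff
      have := c1_empty hk 40002 (by omega) 20000 {0, 1} (by simp) (by simp) (by rw [card_init hk])
      push_cast at this
      rw [if_neg (by simp)]
      linarith
    refine (Finset.sum_le_sum (fun ρ _ => key ρ)).trans ?_
    rw [Finset.sum_const, Finset.card_univ, ZMod.card, nsmul_eq_mul]
    have : (k:ℝ) * (20000 * (2 / (k:ℝ))) = 40000 := by
      field_simp; norm_num
    rw [this]
    linarith
  · rcases Nat.lt_or_ge k (20000000 * S.card) with h | h
    · exact regimeB 20000 rfl hS htw hbig h.le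
    · exact regimeA hS htw hne hbig h

end

end Pool.Agent.TH467
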