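import Pool.Agent.TH467.LinD
import Pool.Agent.TH467.RegB2

set_option autoImplicit false
set_option linter.unusedSectionVars false

open Finset

namespace Pool.Agent.TH467

noncomputable section
open Classical

variable {V : Type} [Fintype V] {k : ℕ} [NeZero k]

/-- Jensen-type bound -/
theorem log_card_le {Z : Type} (s : Finset Z) (L : Z → ℝ) (hne : s.Nonempty)
    (h : ∑ z ∈ s, Real.exp (-(L z)) ≤ 1) :
    (s.card : ℝ) * Real.log (s.card : ℝ) ≤ ∑ z ∈ s, L z := by
  have hN : (0:ℝ) < (s.card : ℝ) := by exact_mod_cast Finset.card_pos.2 hne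
  have h1 : ∀ z ∈ s, Real.log (s.card : ℝ) - L z ≤ (s.card : ℝ) * Real.exp (-(L z)) - 1 := by
    intro z _
    have h2 := Real.log_le_sub_one_of_pos (show 0 < (s.card : ℝ) * Real.exp (-(L z)) by positivity)
    rw [Real.log_mul hN.ne' (Real.exp_pos _).ne', Real.log_exp] at h2
    linarith
  have h3 := Finset.sum_le_sum h1
  rw [Finset.sum_sub_distrib, Finset.sum_sub_distrib, Finset.sum_const, Finset.sum_const,
    ← Finset.mul_sum, nsmul_eq_mul, nsmul_eq_mul] at h3
  have h4 : (s.card : ℝ) * ∑ z ∈ s, Real.exp (-(L z)) ≤ (s.card : ℝ) * 1 :=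
    mul_le_mul_of_nonneg_left h hN.le
  linarith

def dg (G : SimpleGraph V) (a : V) : ℕ := (Finset.univ.filter (fun b => G.Adj a b)).card

theorem Pz_init (hk : 5 ≤ k) {G : SimpleGraph V} {z : ZMod k → V} (hz : IsCyc G z) :
    Pz z {z 0, z 1} = {0, 1} := by
  have hinj := hz.inj hk
  ext i
  rw [mem_Pz, Finset.mem_insert, Finset.mem_singleton, Finset.mem_insert, Finset.mem_singleton,
    hinj.eq_iff, hinj.eq_iff]

/-- Kraft inequality for the full code -/
theorem full_code (hk : 5 ≤ k) {G : SimpleGraph V} (T : ℕ)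
    (hcode : ∀ a b : V, ∑ z ∈ zs G k a b {a, b}, Real.exp (-(L1 G T (Pz z {a, b}) z)) ≤ 1) :
    ∑ z ∈ cyc G k, Real.exp (-(Real.log (Fintype.card V : ℝ) + Real.log (dg G (z 0) : ℝ)
      + L1 G T {0, 1} z)) ≤ 1 := by
  rcases isEmpty_or_nonempty V with hV | hV
  · have : cyc G k = ∅ := by
      rw [Finset.eq_empty_iff_forall_notMem]
      intro z _
      exact hV.elim (z 0)
    rw [this]; simp
  have hn : (0:ℝ) < (Fintype.card V : ℝ) := by exact_mod_cast Fintype.card_pos
  set D : Finset (V × V) := Finset.univ.filter (fun p => G.Adj p.1 p.2) with hD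
  have hmaps : ∀ z ∈ cyc G k, (z 0, z 1) ∈ D := by
    intro z hz
    rw [mem_cyc] at hz
    rw [hD, Finset.mem_filter]
    refine ⟨Finset.mem_univ _, ?_⟩
    have := hz.adj_succ 0
    rwa [zero_add] at this
  rw [← Finset.sum_fiberwise_of_maps_to hmaps]
  have h1 : ∀ p ∈ D, ∑ z ∈ (cyc G k).filter (fun z => (z 0, z 1) = p),
      Real.exp (-(Real.log (Fintype.card V : ℝ) + Real.log (dg G (z 0) : ℝ) + L1 G T {0, 1} z)) ≤
      1 / ((Fintype.card V : ℝ) * (dg G p.1 : ℝ)) := by
    rintro ⟨a, b⟩ hp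
    rw [hD, Finset.mem_filter] at hp
    have hab : G.Adj a b := hp.2
    have hd : (0:ℝ) < (dg G a : ℝ) := by
      have : 0 < dg G a := Finset.card_pos.2 ⟨b, by simp [hab]⟩
      exact_mod_cast this
    have h2 : ∑ z ∈ (cyc G k).filter (fun z => (z 0, z 1) = (a, b)),
      Real.exp (-(Real.log (Fintype.card V : ℝ) + Real.log (dg G (z 0) : ℝ) + L1 G T {0, 1} z)) =
      (1 / ((Fintype.card V : ℝ) * (dg G a : ℝ))) *
        ∑ z ∈ zs G k a b {a, b}, Real.exp (-(L1 G T (Pz z {a, b}) z)) := by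
      have hset : (cyc G k).filter (fun z => (z 0, z 1) = (a, b)) = zs G k a b {a, b} := by
        ext z
        rw [Finset.mem_filter, mem_zs, mem_cyc, Prod.mk.injEq]
        constructor
        · rintro ⟨hz, h0, h1⟩
          refine ⟨hz, h0, h1, ?_⟩
          intro u hu
          rw [Finset.mem_insert, Finset.mem_singleton] at hu
          rcases hu with hu | hu
          · exact ⟨0, by rw [h0, hu]⟩
          · exact ⟨1, by rw [h1, hu]⟩
        · rintro ⟨hz, h0, h1, -⟩
          exact ⟨hz, h0, h1⟩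
      rw [hset, Finset.mul_sum]
      apply Finset.sum_congr rfl
      intro z hz
      rw [mem_zs] at hz
      obtain ⟨hz, h0, h1, -⟩ := hz
      have hP : Pz z {a, b} = {0, 1} := by
        rw [← h0, ← h1]; exact Pz_init hk hz
      rw [hP, h0, neg_add, neg_add, Real.exp_add, Real.exp_add, Real.exp_neg, Real.exp_neg,
        Real.exp_log hn, Real.exp_log hd]
      congr 1
      field_simp
    rw [h2]
    have h3 : 0 ≤ 1 / ((Fintype.card V : ℝ) * (dg G a : ℝ)) := by positivity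
    have := mul_le_mul_of_nonneg_left (hcode a b) h3
    rw [mul_one] at this
    exact this
  refine (Finset.sum_le_sum h1).trans ?_
  have h4 : ∑ p ∈ D, 1 / ((Fintype.card V : ℝ) * (dg G p.1 : ℝ)) =
      ∑ a : V, ∑ b ∈ Finset.univ.filter (fun b => G.Adj a b), 1 / ((Fintype.card V : ℝ) * (dg G a : ℝ)) := by
    rw [Finset.sum_sigma']
    refine Finset.sum_nbij' (fun p => ⟨p.1, p.2⟩) (fun p => (p.1, p.2)) ?_ ?_ ?_ ?_ ?_
    · intro p hp; simpa [hD] using hp
    · intro p hp; simpa [hD] using hp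
    · intro p _; rfl
    · intro p _; rfl
    · intro p _; rfl
  rw [h4]
  have h5 : ∀ a : V, ∑ b ∈ Finset.univ.filter (fun b => G.Adj a b),
      1 / ((Fintype.card V : ℝ) * (dg G a : ℝ)) ≤ 1 / (Fintype.card V : ℝ) := by
    intro a
    rw [Finset.sum_const, nsmul_eq_mul]
    show (dg G a : ℝ) * _ ≤ _
    rcases Nat.eq_zero_or_pos (dg G a) with h | h
    · rw [h]; simp
    · have hd : (0:ℝ) < (dg G a : ℝ) := by exact_mod_cast h
      apply le_of_eq
      field_simp
  refine (Finset.sum_le_sum (fun a _ => h5 a)).trans ?_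
  rw [Finset.sum_const, nsmul_eq_mul, Finset.card_univ]
  apply le_of_eq
  field_simp

/-- rotation averaging -/
theorem rot_avg (hbig : 10 ^ 20 ≤ k) {G : SimpleGraph V} (hG : G.CliqueFree 3) :
    (k : ℝ) * ∑ z ∈ cyc G k, ∑ v : V, ff 20000 (pat G z v) ≤
      ((cyc G k).card : ℝ) * ((Fintype.card V : ℝ) * ((k : ℝ) - 1)) := by
  have h1 : (k : ℝ) * ∑ z ∈ cyc G k, ∑ v : V, ff 20000 (pat G z v) =
      ∑ ρ : ZMod k, ∑ z ∈ cyc G k, ∑ v : V, ff 20000 (shift ρ (pat G z v)) := by
    have : ∀ ρ : ZMod k, ∑ z ∈ cyc G k, ∑ v : V, ff 20000 (shift ρ (pat G z v)) =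
        ∑ z ∈ cyc G k, ∑ v : V, ff 20000 (pat G z v) := by
      intro ρ
      rw [← sum_cyc_rot G (fun z => ∑ v : V, ff 20000 (pat G z v)) ρ]
      apply Finset.sum_congr rfl
      intro z _
      apply Finset.sum_congr rfl
      intro v _
      rw [pat_rot]
    rw [Finset.sum_congr rfl (fun ρ _ => this ρ), Finset.sum_const, Finset.card_univ, ZMod.card,
      nsmul_eq_mul]
  rw [h1, Finset.sum_comm]
  have h2 : ∀ z ∈ cyc G k, ∑ ρ : ZMod k, ∑ v : V, ff 20000 (shift ρ (pat G z v)) ≤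
      (Fintype.card V : ℝ) * ((k : ℝ) - 1) := by
    intro z hz
    rw [mem_cyc] at hz
    rw [Finset.sum_comm]
    have : ∀ v ∈ (Finset.univ : Finset V), ∑ ρ : ZMod k, ff 20000 (shift ρ (pat G z v)) ≤ (k : ℝ) - 1 :=
      fun v _ => comb_main hbig (hz.indep_pat hG v)
    refine (Finset.sum_le_sum this).trans ?_
    rw [Finset.sum_const, nsmul_eq_mul, Finset.card_univ]
  refine (Finset.sum_le_sum h2).trans ?_
  rw [Finset.sum_const, nsmul_eq_mul]

/-- The bound on the number of labelled cycles. -/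
theorem cyc_bound (hbig : 10 ^ 20 ≤ k) {G : SimpleGraph V} (hG : G.CliqueFree 3)
    (hcode : ∀ a b : V, ∑ z ∈ zs G k a b {a, b}, Real.exp (-(L1 G 20000 (Pz z {a, b}) z)) ≤ 1) :
    ((cyc G k).card : ℝ) ≤ 2 * (k : ℝ) * (nu V k) ^ k := by
  have hk : 5 ≤ k := by omega
  rcases (cyc G k).eq_empty_or_nonempty with hE | hne
  · rw [hE]
    simp only [Finset.card_empty, Nat.cast_zero]
    have : 0 ≤ nu V k := by unfold nu; positivity
    positivity
  obtain ⟨z₀, hz₀⟩ := hne
  have hne : (cyc G k).Nonempty := ⟨z₀, hz₀⟩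
  have hν : 0 < nu V k := nu_pos (z := z₀)
  have hn : (0:ℝ) < (Fintype.card V : ℝ) := by
    have : 0 < Fintype.card V := Fintype.card_pos_iff.2 ⟨z₀ 0⟩
    exact_mod_cast this
  have hkR : (0:ℝ) < (k : ℝ) := by exact_mod_cast (by omega : 0 < k)
  have hN : (0:ℝ) < ((cyc G k).card : ℝ) := by exact_mod_cast Finset.card_pos.2 hne
  set N : ℝ := ((cyc G k).card : ℝ) with hNdef
  set ν : ℝ := nu V k with hνdef
  have hJ := log_card_le (cyc G k) (fun z => Real.log (Fintype.card V : ℝ)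
    + Real.log (dg G (z 0) : ℝ) + L1 G 20000 {0, 1} z) hne (full_code hk 20000 hcode)
  have hL := L1_bound hk hG 20000 ({0, 1} : Finset (ZMod k)) (by simp) (by simp)
    (by rw [card_init hk]; omega)
  have hd : ∀ z ∈ cyc G k, Real.log (dg G (z 0) : ℝ) ≤ Real.log 2 + (Real.log ν - 1)
      + (∑ v : V, (if (0 : ZMod k) ∈ pat G z v then (1/2:ℝ) else 0)) / ν := by
    intro z hz
    rw [mem_cyc] at hz
    have hdpos : 0 < dg G (z 0) := by
      refine Finset.card_pos.2 ⟨z 1, ?_⟩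
      rw [Finset.mem_filter]
      refine ⟨Finset.mem_univ _, ?_⟩
      have := hz.adj_succ 0
      rwa [zero_add] at this
    have h1 := log_lin (W := (dg G (z 0) : ℝ)) (ω := 2) (ν := ν) (by exact_mod_cast hdpos)
      (by norm_num) hν
    have h2 : (dg G (z 0) : ℝ) / 2 = ∑ v : V, (if (0 : ZMod k) ∈ pat G z v then (1/2:ℝ) else 0) := by
      unfold dg
      rw [Finset.card_filter]
      push_cast
      rw [Finset.sum_div]
      apply Finset.sum_congr rfl
      intro v _
      by_cases h : G.Adj (z 0) v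
      · rw [if_pos h, if_pos (mem_pat.2 h.symm)]
      · rw [if_neg h, if_neg (fun h' => h (mem_pat.1 h').symm)]
        norm_num
    rw [h2] at h1
    linarith
  have hlogn : Real.log (Fintype.card V : ℝ) = Real.log (k : ℝ) + Real.log ν := by
    rw [← Real.log_mul hkR.ne' hν.ne']
    congr 1
    rw [hνdef]
    unfold nu
    field_simp
  have hrr : ∀ z ∈ cyc G k, rr G 20000 ({0, 1} : Finset (ZMod k)) z =
      ((k:ℝ) - 2) * (Real.log ν - 1) + (∑ v : V, c1 20000 (pat G z v) {0, 1}) / ν := by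
    intro z _
    unfold rr
    rw [card_init hk]
    push_cast
    rfl
  rw [Finset.sum_congr rfl hrr] at hL
  rw [Finset.sum_add_distrib, Finset.sum_add_distrib, Finset.sum_const, nsmul_eq_mul, ← hNdef] at hJ
  have hd' := Finset.sum_le_sum hd
  have hff : ∑ z ∈ cyc G k, (Real.log 2 + (Real.log ν - 1)
      + (∑ v : V, (if (0 : ZMod k) ∈ pat G z v then (1/2:ℝ) else 0)) / ν) +
      ∑ z ∈ cyc G k, (((k:ℝ) - 2) * (Real.log ν - 1) + (∑ v : V, c1 20000 (pat G z v) {0, 1}) / ν) =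
      N * (Real.log 2 + ((k:ℝ) - 1) * (Real.log ν - 1)) +
      (∑ z ∈ cyc G k, ∑ v : V, ff 20000 (pat G z v)) / ν := by
    have e1 : N * (Real.log 2 + ((k:ℝ) - 1) * (Real.log ν - 1)) =
        ∑ z ∈ cyc G k, (Real.log 2 + ((k:ℝ) - 1) * (Real.log ν - 1)) := by
      rw [Finset.sum_const, nsmul_eq_mul]
    rw [e1, Finset.sum_div, ← Finset.sum_add_distrib, ← Finset.sum_add_distrib]
    apply Finset.sum_congr rfl
    intro z _
    unfold ff
    rw [Finset.sum_add_distrib]
    ring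
  have hrot := rot_avg hbig (G := G) hG
  have hS : (∑ z ∈ cyc G k, ∑ v : V, ff 20000 (pat G z v)) / ν ≤ N * ((k:ℝ) - 1) := by
    rw [div_le_iff₀ hν]
    have h5 : (Fintype.card V : ℝ) = (k:ℝ) * ν := by
      rw [hνdef]; unfold nu; field_simp
    rw [h5, ← hNdef] at hrot
    have h6 : (k:ℝ) * ∑ z ∈ cyc G k, ∑ v : V, ff 20000 (pat G z v) ≤
        (k:ℝ) * (N * ((k:ℝ) - 1) * ν) := by linarith
    exact le_of_mul_le_mul_left h6 hkR
  have htot : N * Real.log N ≤ N * (Real.log 2 + Real.log k + k * Real.log ν) := by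
    rw [hlogn] at hJ
    have e7 : N * (Real.log 2 + Real.log k + k * Real.log ν) =
      N * (Real.log k + Real.log ν) + (N * (Real.log 2 + ((k:ℝ) - 1) * (Real.log ν - 1))
        + N * ((k:ℝ) - 1)) := by ring
    rw [e7]
    linarith
  have hfin : Real.log N ≤ Real.log 2 + Real.log k + k * Real.log ν := le_of_mul_le_mul_left htot hN
  have e8 : Real.log 2 + Real.log k + k * Real.log ν = Real.log (2 * (k:ℝ) * ν ^ k) := by
    rw [Real.log_mul (by positivity) (by positivity), Real.log_mul (by norm_num) hkR.ne',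
      Real.log_pow]
  rw [e8] at hfin
  exact (Real.log_le_log_iff hN (by positivity)).1 hfin

theorem main_of_code (hbig : 10 ^ 20 ≤ k) {G : SimpleGraph V} (hG : G.CliqueFree 3)
    (hcode : ∀ a b : V, ∑ z ∈ zs G k a b {a, b}, Real.exp (-(L1 G 20000 (Pz z {a, b}) z)) ≤ 1) :
    (({S : Finset V | S.card = k ∧
          Nonempty (G.induce (S : Set V) ≃g SimpleGraph.cycleGraph k)}.ncard : ℝ)
        ≤ ((Fintype.card V : ℝ) / (k : ℝ)) ^ k) := by
  have hk : 5 ≤ k := by omega
  have hkR : (0:ℝ) < (k : ℝ) := by exact_mod_cast (by omega : 0 < k)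
  have h1 := cyc_bound hbig hG hcode
  have h2 := card_cyc_ge hk G
  have h3 : 2 * (k:ℝ) * ({S : Finset V | S.card = k ∧
      Nonempty (G.induce (S : Set V) ≃g SimpleGraph.cycleGraph k)}.ncard : ℝ) ≤
      ((cyc G k).card : ℝ) := by exact_mod_cast h2
  have h4 : 2 * (k:ℝ) * ({S : Finset V | S.card = k ∧
      Nonempty (G.induce (S : Set V) ≃g SimpleGraph.cycleGraph k)}.ncard : ℝ) ≤
      2 * (k:ℝ) * (nu V k) ^ k := h3.trans h1
  exact le_of_mul_le_mul_left h4 (by positivity)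

end

end Pool.Agent.TH467
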