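import Mathlib

set_option autoImplicit false
set_option linter.unusedSectionVars false

open Finset

namespace Pool.Agent.TH467

noncomputable section
open Classical

variable {V : Type} [Fintype V] {k : ℕ}

/-- `z` is a labelled induced cycle of length `k` of `G`. -/
def IsCyc (G : SimpleGraph V) (z : ZMod k → V) : Prop :=
  ∀ i j : ZMod k, G.Adj (z i) (z j) ↔ (j = i + 1 ∨ i = j + 1)

/-- The finset of all labelled induced `k`-cycles of `G`. -/
def cyc (G : SimpleGraph V) (k : ℕ) [NeZero k] : Finset (ZMod k → V) :=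
  Finset.univ.filter (fun z => IsCyc G z)

/-- The set of positions of `z` adjacent to `v`. -/
def pat [NeZero k] (G : SimpleGraph V) (z : ZMod k → V) (v : V) : Finset (ZMod k) :=
  Finset.univ.filter (fun i => G.Adj v (z i))

/-- No two cyclically consecutive elements. -/
def Indep (S : Finset (ZMod k)) : Prop := ∀ i ∈ S, i + 1 ∉ S

/-- The shift of a set of positions. -/
def shift [NeZero k] (ρ : ZMod k) (S : Finset (ZMod k)) : Finset (ZMod k) :=
  Finset.univ.filter (fun i => i + ρ ∈ S)

theorem mem_cyc {G : SimpleGraph V} [NeZero k] {z : ZMod k → V} :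
    z ∈ cyc G k ↔ IsCyc G z := by simp [cyc]

theorem mem_pat {G : SimpleGraph V} [NeZero k] {z : ZMod k → V} {v : V} {i : ZMod k} :
    i ∈ pat G z v ↔ G.Adj v (z i) := by simp [pat]

theorem mem_shift [NeZero k] {ρ i : ZMod k} {S : Finset (ZMod k)} :
    i ∈ shift ρ S ↔ i + ρ ∈ S := by simp [shift]

theorem natCast_ne {n : ℕ} (h1 : 0 < n) (h2 : n < k) : (n : ZMod k) ≠ 0 := by
  intro h
  rw [ZMod.natCast_eq_zero_iff] at h
  exact absurd (Nat.le_of_dvd h1 h) (by omega)

theorem ne0_1 (hk : 5 ≤ k) : (1 : ZMod k) ≠ 0 := by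
  have := natCast_ne (k := k) (n := 1) (by norm_num) (by omega)
  simpa using this

theorem ne0_2 (hk : 5 ≤ k) : (2 : ZMod k) ≠ 0 := by
  have := natCast_ne (k := k) (n := 2) (by norm_num) (by omega)
  simpa using this

theorem ne0_3 (hk : 5 ≤ k) : (3 : ZMod k) ≠ 0 := by
  have := natCast_ne (k := k) (n := 3) (by norm_num) (by omega)
  simpa using this

theorem ne0_4 (hk : 5 ≤ k) : (4 : ZMod k) ≠ 0 := by
  have := natCast_ne (k := k) (n := 4) (by norm_num) (by omega)
  simpa using this

theorem IsCyc.adj_succ {G : SimpleGraph V} {z : ZMod k → V} (h : IsCyc G z) (i : ZMod k) :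
    G.Adj (z i) (z (i + 1)) := (h i (i + 1)).2 (Or.inl rfl)

theorem IsCyc.adj_pred {G : SimpleGraph V} {z : ZMod k → V} (h : IsCyc G z) (i : ZMod k) :
    G.Adj (z i) (z (i - 1)) := (h i (i - 1)).2 (Or.inr (by ring))

theorem IsCyc.inj {G : SimpleGraph V} {z : ZMod k → V} (hk : 5 ≤ k) (h : IsCyc G z) :
    Function.Injective z := by
  intro i j hij
  have h1 := h.adj_succ i
  have h2 := h.adj_pred i
  rw [hij] at h1 h2
  rw [h] at h1 h2
  rcases h1 with h1 | h1
  · exact add_right_cancel h1
  · rcases h2 with h2 | h2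
    · exfalso
      apply ne0_4 hk
      linear_combination -h1 - h2
    · rw [h2]; ring

theorem IsCyc.indep_pat [NeZero k] {G : SimpleGraph V} {z : ZMod k → V} (hG : G.CliqueFree 3)
    (h : IsCyc G z) (v : V) : Indep (pat G z v) := by
  intro i hi hi1
  rw [mem_pat] at hi hi1
  exact hG {v, z i, z (i + 1)} (SimpleGraph.is3Clique_triple_iff.2 ⟨hi, hi1, h.adj_succ i⟩)

theorem IsCyc.pat_self [NeZero k] {G : SimpleGraph V} {z : ZMod k → V}
    (h : IsCyc G z) (i : ZMod k) : pat G z (z i) = {i - 1, i + 1} := by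
  ext j
  rw [mem_pat, h]
  simp only [mem_insert, mem_singleton]
  constructor
  · rintro (h | h)
    · right; exact h
    · left; rw [h]; ring
  · rintro (h | h)
    · right; rw [h]; ring
    · left; exact h

theorem IsCyc.rot {G : SimpleGraph V} {z : ZMod k → V} (h : IsCyc G z) (ρ : ZMod k) :
    IsCyc G (fun i => z (i + ρ)) := by
  intro i j
  show G.Adj (z (i + ρ)) (z (j + ρ)) ↔ _
  rw [h]
  constructor
  · rintro (h | h)
    · left; linear_combination h
    · right; linear_combination h
  · rintro (h | h)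
    · left; linear_combination h
    · right; linear_combination h

theorem IsCyc.refl {G : SimpleGraph V} {z : ZMod k → V} (h : IsCyc G z) (ρ : ZMod k) :
    IsCyc G (fun i => z (ρ - i)) := by
  intro i j
  show G.Adj (z (ρ - i)) (z (ρ - j)) ↔ _
  rw [h]
  constructor
  · rintro (h | h)
    · right; linear_combination h
    · left; linear_combination h
  · rintro (h | h)
    · right; linear_combination h
    · left; linear_combination h

theorem pat_rot [NeZero k] {G : SimpleGraph V} {z : ZMod k → V} (ρ : ZMod k) (v : V) :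
    pat G (fun i => z (i + ρ)) v = shift ρ (pat G z v) := by
  ext i; simp [mem_pat, mem_shift]

/-- Sum over labelled cycles is rotation invariant. -/
theorem sum_cyc_rot [NeZero k] (G : SimpleGraph V) (F : (ZMod k → V) → ℝ) (ρ : ZMod k) :
    ∑ z ∈ cyc G k, F (fun i => z (i + ρ)) = ∑ z ∈ cyc G k, F z := by
  refine Finset.sum_nbij' (fun z => fun i => z (i + ρ)) (fun z => fun i => z (i - ρ)) ?_ ?_ ?_ ?_ ?_
  · intro z hz; rw [mem_cyc] at hz ⊢; exact hz.rot ρ
  · intro z hz; rw [mem_cyc] at hz ⊢
    have := hz.rot (-ρ)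
    simpa [sub_eq_add_neg] using this
  · intro z _; funext i; simp
  · intro z _; funext i; simp
  · intro z _; rfl

theorem exists_labelling_fin (n : ℕ) (G : SimpleGraph V) (S : Finset V)
    (e : G.induce (S : Set V) ≃g SimpleGraph.cycleGraph (n + 2)) :
    ∃ z : Fin (n + 2) → V, (∀ i j : Fin (n + 2), G.Adj (z i) (z j) ↔ (j = i + 1 ∨ i = j + 1)) ∧
      ∀ v, v ∈ S ↔ ∃ i, z i = v := by
  refine ⟨fun i => (e.symm i).val, ?_, ?_⟩
  · intro i j
    have h1 : G.Adj (e.symm i).val (e.symm j).val ↔
        (SimpleGraph.cycleGraph (n+2)).Adj i j := by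
      rw [← SimpleGraph.Iso.map_adj_iff e.symm]
      simp [SimpleGraph.induce]
    show G.Adj (e.symm i).val (e.symm j).val ↔ _
    rw [h1, SimpleGraph.cycleGraph_adj]
    constructor
    · rintro (h | h)
      · right; rw [← h]; simp
      · left; rw [← h]; simp
    · rintro (h | h)
      · right; rw [h]; simp
      · left; rw [h]; simp
  · intro v
    constructor
    · intro hv
      refine ⟨e ⟨v, hv⟩, ?_⟩
      simp
    · rintro ⟨i, rfl⟩
      exact (e.symm i).property

theorem exists_labelling (hk : 5 ≤ k) [NeZero k] (G : SimpleGraph V) (S : Finset V)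
    (h : Nonempty (G.induce (S : Set V) ≃g SimpleGraph.cycleGraph k)) :
    ∃ z : ZMod k → V, IsCyc G z ∧ ∀ v, v ∈ S ↔ ∃ i, z i = v := by
  obtain ⟨n, rfl⟩ : ∃ n, k = n + 2 := ⟨k - 2, by omega⟩
  obtain ⟨e⟩ := h
  obtain ⟨z, h1, h2⟩ := exists_labelling_fin n G S e
  exact ⟨z, h1, h2⟩

theorem card_cyc_ge (hk : 5 ≤ k) [NeZero k] (G : SimpleGraph V) :
    2 * k * {S : Finset V | S.card = k ∧
      Nonempty (G.induce (S : Set V) ≃g SimpleGraph.cycleGraph k)}.ncard ≤ (cyc G k).card := by
  set A : Finset (Finset V) := Finset.univ.filter (fun S => S.card = k ∧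
      Nonempty (G.induce (S : Set V) ≃g SimpleGraph.cycleGraph k)) with hA
  have hAe : {S : Finset V | S.card = k ∧
      Nonempty (G.induce (S : Set V) ≃g SimpleGraph.cycleGraph k)}.ncard = A.card := by
    rw [← Set.ncard_coe_finset]
    congr 1
    ext S
    simp [hA]
  rw [hAe]
  have hex : ∀ S : Finset V, S ∈ A → ∃ z : ZMod k → V, IsCyc G z ∧ ∀ v, v ∈ S ↔ ∃ i, z i = v := by
    intro S hS
    rw [hA, Finset.mem_filter] at hS
    exact exists_labelling hk G S hS.2.2
  rcases A.eq_empty_or_nonempty with hAe | ⟨S₀, hS₀⟩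
  · rw [hAe]; simp
  have : Nonempty (ZMod k → V) := ⟨(hex S₀ hS₀).choose⟩
  choose! zz hz1 hz2 using hex
  let F : Finset V × ZMod k × Bool → (ZMod k → V) := fun p => fun i =>
    zz p.1 (p.2.1 + (if p.2.2 then i else -i))
  have hcard : (A ×ˢ ((Finset.univ : Finset (ZMod k)) ×ˢ (Finset.univ : Finset Bool))).card
      = 2 * k * A.card := by
    rw [Finset.card_product, Finset.card_product]
    simp [ZMod.card]
    ring
  rw [← hcard]
  refine Finset.card_le_card_of_injOn F ?_ ?_
  · intro p hp
    have hp1 : p.1 ∈ A := by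
      have := Finset.mem_coe.1 hp
      exact (Finset.mem_product.1 this).1
    rw [Finset.mem_coe, mem_cyc]
    by_cases hb : p.2.2 = true
    · have h1 : F p = fun i => zz p.1 (i + p.2.1) := by
        funext i; simp [F, hb, add_comm]
      rw [h1]
      exact (hz1 _ hp1).rot _
    · have h1 : F p = fun i => zz p.1 (p.2.1 - i) := by
        funext i; simp [F, hb, sub_eq_add_neg]
      rw [h1]
      exact (hz1 _ hp1).refl _
  · rintro ⟨S, a, e⟩ hp ⟨S', a', e'⟩ hp' hF
    have hS : S ∈ A := by
      have := Finset.mem_coe.1 hp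
      exact (Finset.mem_product.1 this).1
    have hS' : S' ∈ A := by
      have := Finset.mem_coe.1 hp'
      exact (Finset.mem_product.1 this).1
    have hF' : ∀ i, zz S (a + (if e then i else -i)) = zz S' (a' + (if e' then i else -i)) :=
      fun i => congrFun hF i
    have hSS : S = S' := by
      ext v
      rw [hz2 S hS, hz2 S' hS']
      constructor
      · rintro ⟨j, rfl⟩
        have := hF' (if e then j - a else a - j)
        refine ⟨_, this.symm.trans ?_⟩
        cases e <;> simp
      · rintro ⟨j, rfl⟩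
        have := hF' (if e' then j - a' else a' - j)
        refine ⟨_, this.trans ?_⟩
        cases e' <;> simp
    subst hSS
    have hinj := (hz1 S hS).inj hk
    have h0 : a = a' := by
      have := hinj (hF' 0)
      simpa using this
    subst h0
    have h1 := hinj (hF' 1)
    have h2 : e = e' := by
      cases e <;> cases e' <;> simp at h1 ⊢
      · exact ne0_2 hk (by linear_combination -h1)
      · exact ne0_2 hk (by linear_combination h1)
    rw [h2]

end

end Pool.Agent.TH467
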