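import Pool.Agent.TH467.Basic

set_option autoImplicit false
set_option linter.unusedSectionVars false

open Finset

namespace Pool.Agent.TH467

noncomputable section
open Classical

variable {k : ℕ} [NeZero k]

/-- Positions at distance at least two from `P`. -/
def Av (P : Finset (ZMod k)) : Finset (ZMod k) :=
  Finset.univ.filter (fun w => w ∉ P ∧ w + 1 ∉ P ∧ w - 1 ∉ P)

/-- least natural number whose class is not in `P` -/
def fr (P : Finset (ZMod k)) : ℕ := sInf {t : ℕ | (t : ZMod k) ∉ P}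

/-- least natural number whose negative's class is not in `P` -/
def bk (P : Finset (ZMod k)) : ℕ := sInf {t : ℕ | (-(t : ZMod k)) ∉ P}

/-- next scanning position -/
def qq (P : Finset (ZMod k)) : ZMod k := (fr P : ZMod k)

/-- back end of the main run -/
def bb (P : Finset (ZMod k)) : ZMod k := 1 - (bk P : ZMod k)

def om (P : Finset (ZMod k)) : ℝ := if qq P + 1 ∈ P then 7/10 else 1

def wt (P B : Finset (ZMod k)) : ℝ :=
  if B = {qq P - 1} then 1 else
  if ∃ e, e ≠ qq P - 1 ∧ e ≠ bb P ∧ B = {qq P - 1, e} ∧ ¬ (e - 1 ∈ P ∧ e + 1 ∈ P) then 7/10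
  else 0

/-- scanning cost -/
def c3 : ℕ → Finset (ZMod k) → Finset (ZMod k) → ℝ
  | 0, _, _ => 0
  | 1, S, P => if S ∩ P = {qq P - 1, bb P} then 1 else 0
  | (m+2), S, P => wt P (S ∩ P) / om P + c3 (m+1) S (insert (qq P) P)

def IsTw (S : Finset (ZMod k)) : Prop := ∃ x, S = {x - 1, x + 1}

def cpair (S P : Finset (ZMod k)) : ℝ :=
  (if S = {-2, 0} then 1 else 0) + (if S = {1, 3} then 1 else 0)
  + (if ¬ IsTw S ∧ (S ∩ P).card ≤ 2 ∧ (0 ∈ S ∨ 1 ∈ S) then 17 else 0)
  + (if S = {1} then 1 else 0) + (if S = {0} then 1 else 0) + (if S = {-1} then 16 else 0)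

def c10 (S P : Finset (ZMod k)) : ℝ :=
  if -1 ∈ P ∨ 2 ∈ P then c3 (k - P.card) S P
  else cpair S P + c3 (k - P.card - 2) S (insert (-1) (insert 2 P))

def c1 : ℕ → Finset (ZMod k) → Finset (ZMod k) → ℝ
  | 0, S, P => c10 S P
  | (i+1), S, P => (if S ∩ P = ∅ then 1 else 0) / ((Av P).card : ℝ)
      + (∑ w ∈ Av P, (if w ∈ S ∧ (S ∩ insert w P).card ≤ 2 then (1/2 : ℝ) else 0)) / ((Av P).card : ℝ)
      + (∑ w ∈ Av P, (c1 i S (insert (w+1) (insert w P)) + c1 i S (insert (w-1) (insert w P))))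
        / (2 * ((Av P).card : ℝ))

/-- The total cost. -/
def ff (T : ℕ) (S : Finset (ZMod k)) : ℝ :=
  (if 0 ∈ S then 1/2 else 0) + c1 T S {0, 1}

/-! ### front lemmas -/

section front

variable {P : Finset (ZMod k)}

theorem cast_val' (x : ZMod k) : ((x.val : ℕ) : ZMod k) = x := by simp

theorem exists_notMem (h : P.card < k) : ∃ x : ZMod k, x ∉ P := by
  by_contra hcon
  push Not at hcon
  have : P = Finset.univ := by
    ext x; simp [hcon x]
  rw [this, Finset.card_univ, ZMod.card] at h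
  exact lt_irrefl _ h

theorem qq_notMem (h : P.card < k) : qq P ∉ P := by
  obtain ⟨x, hx⟩ := exists_notMem h
  have hne : {t : ℕ | (t : ZMod k) ∉ P}.Nonempty := ⟨x.val, by simpa using hx⟩
  exact Nat.sInf_mem hne

theorem mem_of_lt_fr {t : ℕ} (h : t < fr P) : (t : ZMod k) ∈ P := by
  have := Nat.notMem_of_lt_sInf h
  simpa using this

theorem fr_le {t : ℕ} (h : (t : ZMod k) ∉ P) : fr P ≤ t := Nat.sInf_le h

theorem fr_lt (h : P.card < k) : fr P < k := by
  obtain ⟨x, hx⟩ := exists_notMem h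
  exact lt_of_le_of_lt (fr_le (by simpa using hx)) (ZMod.val_lt x)

theorem bk_notMem (h : P.card < k) : -(bk P : ZMod k) ∉ P := by
  obtain ⟨x, hx⟩ := exists_notMem h
  have hne : {t : ℕ | (-(t : ZMod k)) ∉ P}.Nonempty := ⟨(-x).val, by simpa using hx⟩
  exact Nat.sInf_mem hne

theorem mem_of_lt_bk {t : ℕ} (h : t < bk P) : -(t : ZMod k) ∈ P := by
  have := Nat.notMem_of_lt_sInf h
  simpa using this

theorem bk_le {t : ℕ} (h : -(t : ZMod k) ∉ P) : bk P ≤ t := Nat.sInf_le h

theorem val_qq (h : P.card < k) : (qq P).val = fr P := by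
  unfold qq
  rw [ZMod.val_natCast, Nat.mod_eq_of_lt (fr_lt h)]

theorem two_le_fr (h : P.card < k) (h0 : (0 : ZMod k) ∈ P) (h1 : (1 : ZMod k) ∈ P) :
    2 ≤ fr P := by
  by_contra hcon
  have hq := qq_notMem h
  unfold qq at hq
  have : fr P = 0 ∨ fr P = 1 := by omega
  rcases this with h2 | h2 <;> rw [h2] at hq <;> simp [h0, h1] at hq

theorem one_le_bk (h : P.card < k) (h0 : (0 : ZMod k) ∈ P) : 1 ≤ bk P := by
  by_contra hcon
  have hq := bk_notMem h
  have : bk P = 0 := by omega
  rw [this] at hq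
  simp [h0] at hq

theorem mem_of_val_lt {x : ZMod k} (h : x.val < fr P) : x ∈ P := by
  have := mem_of_lt_fr h
  simpa using this

theorem card_insert_qq (h : P.card < k) : (insert (qq P) P).card = P.card + 1 :=
  Finset.card_insert_of_notMem (qq_notMem h)

theorem fr_insert (h : P.card + 1 < k) : fr P + 1 ≤ fr (insert (qq P) P) := by
  by_contra hcon
  have h1 : (insert (qq P) P).card < k := by rw [card_insert_qq (by omega)]; exact h
  have h2 := qq_notMem h1
  rw [Finset.mem_insert, not_or] at h2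
  rcases Nat.lt_or_ge (fr (insert (qq P) P)) (fr P) with h3 | h3
  · exact h2.2 (mem_of_lt_fr h3)
  · have : fr (insert (qq P) P) = fr P := by omega
    apply h2.1
    rw [qq, this, qq]

/-- if only `qq P` is missing -/
theorem eq_qq (h : P.card + 1 = k) {x : ZMod k} (hx : x ∉ P) : x = qq P := by
  by_contra hne
  have h1 : (insert x (insert (qq P) P)).card = P.card + 2 := by
    rw [Finset.card_insert_of_notMem, card_insert_qq (by omega)]
    rw [Finset.mem_insert, not_or]
    exact ⟨hne, hx⟩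
  have h2 := Finset.card_le_univ (insert x (insert (qq P) P))
  rw [h1, ZMod.card] at h2
  omega

theorem bb_eq (h : P.card + 1 = k) : bb P = qq P + 1 := by
  have h1 := eq_qq h (bk_notMem (P := P) (by omega))
  unfold bb
  rw [← h1]; ring

theorem qq_eq_val {x : ZMod k} (h : P.card < k) (hx : x.val = fr P) : qq P = x := by
  unfold qq
  rw [← hx]; simp

theorem val_add_one {x : ZMod k} (h : x.val + 1 < k) : (x + 1).val = x.val + 1 := by
  have : x + 1 = ((x.val + 1 : ℕ) : ZMod k) := by push_cast; simp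
  rw [this, ZMod.val_natCast, Nat.mod_eq_of_lt h]

theorem val_add_two {x : ZMod k} (h : x.val + 2 < k) : (x + 2).val = x.val + 2 := by
  have : x + 2 = ((x.val + 2 : ℕ) : ZMod k) := by push_cast; simp
  rw [this, ZMod.val_natCast, Nat.mod_eq_of_lt h]

theorem add_one_eq_zero_of_val {x : ZMod k} (h : x.val + 1 = k) : x + 1 = 0 := by
  have : x + 1 = ((x.val + 1 : ℕ) : ZMod k) := by push_cast; simp
  rw [this, h]; simp

theorem val_sub_one {x : ZMod k} (h : 1 ≤ x.val) : (x - 1).val = x.val - 1 := by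
  have h2 := ZMod.val_lt x
  have : x - 1 = ((x.val - 1 : ℕ) : ZMod k) := by
    rw [Nat.cast_sub h]; simp
  rw [this, ZMod.val_natCast, Nat.mod_eq_of_lt (by omega)]

end front

theorem Indep.succ {S : Finset (ZMod k)} (h : Indep S) {x : ZMod k} (hx : x ∈ S) : x + 1 ∉ S :=
  h x hx

theorem Indep.pred {S : Finset (ZMod k)} (h : Indep S) {x : ZMod k} (hx : x ∈ S) : x - 1 ∉ S := by
  intro h1
  have := h _ h1
  rw [sub_add_cancel] at this
  exact this hx

end

end Pool.Agent.TH467
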