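import Pool.Agent.TH467.Proc

set_option autoImplicit false
set_option linter.unusedSectionVars false

open Finset

namespace Pool.Agent.TH467

noncomputable section
open Classical

def phi (y : ℝ) : ℝ := y - 1 - Real.log y

theorem phi_nonneg {y : ℝ} (hy : 0 < y) : 0 ≤ phi y := by
  unfold phi
  have := Real.log_le_sub_one_of_pos hy
  linarith

theorem exp_two_gt : (27/4 : ℝ) ≤ Real.exp 2 := by
  have h1 := Real.exp_one_gt_d9
  have h2 : Real.exp 2 = Real.exp 1 * Real.exp 1 := by rw [← Real.exp_add]; norm_num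
  rw [h2]
  nlinarith

theorem exp_two_lt : Real.exp 2 ≤ 8 := by
  have h1 := Real.exp_one_lt_d9
  have h0 := Real.exp_pos 1
  have h2 : Real.exp 2 = Real.exp 1 * Real.exp 1 := by rw [← Real.exp_add]; norm_num
  rw [h2]
  nlinarith

/-- `exp(φ(y)/2) ≥ y/2` -/
theorem phi_half {y : ℝ} (hy : 0 < y) : y / 2 ≤ Real.exp (phi y / 2) := by
  have h1 : 3 * Real.log y ≤ y - 1 + 2 * Real.log 2 := by
    have h2 := Real.log_le_sub_one_of_pos (show 0 < y / 3 by positivity)
    have h3 : Real.log (y / 3) = Real.log y - Real.log 3 := by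
      rw [Real.log_div hy.ne' (by norm_num)]
    have h4 : 3 * Real.log 3 - 2 * Real.log 2 ≤ 2 := by
      have h5 : 3 * Real.log 3 - 2 * Real.log 2 = Real.log (27/4) := by
        rw [Real.log_div (by norm_num) (by norm_num)]
        have e1 : Real.log 27 = 3 * Real.log 3 := by
          rw [show (27:ℝ) = 3 ^ 3 by norm_num, Real.log_pow]; norm_num
        have e2 : Real.log 4 = 2 * Real.log 2 := by
          rw [show (4:ℝ) = 2 ^ 2 by norm_num, Real.log_pow]; norm_num
        rw [e1, e2]
      rw [h5]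
      rw [Real.log_le_iff_le_exp (by norm_num)]
      exact exp_two_gt
    rw [h3] at h2
    linarith
  have h6 : Real.log (y / 2) ≤ phi y / 2 := by
    rw [Real.log_div hy.ne' (by norm_num)]
    unfold phi
    linarith
  rwa [Real.log_le_iff_le_exp (by positivity)] at h6

theorem one_le_exp_phi {y : ℝ} (hy : 0 < y) : 1 ≤ Real.exp (phi y / 2) := by
  have := phi_nonneg hy
  exact Real.one_le_exp (by linarith)

theorem pair_ineq {ρ ρ' y0 y1 F0 F1 Q : ℝ} (hρ : 0 ≤ ρ) (hρ' : 0 ≤ ρ') (hy0 : 0 < y0)
    (hy1 : 0 < y1) (hF0 : 0 ≤ F0) (hF1 : 0 ≤ F1) (hQ : 0 < Q)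
    (h : Q ≤ ρ * ρ' + y0 * F0 + y1 * F1) :
    Real.log Q ≤ ρ + ρ' - 2 + 16 * (F0 + F1) + phi y0 / 2 + phi y1 / 2 := by
  rw [Real.log_le_iff_le_exp hQ]
  refine h.trans ?_
  rw [Real.exp_add, Real.exp_add, Real.exp_add]
  set E0 := Real.exp (phi y0 / 2) with hE0
  set E1 := Real.exp (phi y1 / 2) with hE1
  have a0 : 1 ≤ E0 := one_le_exp_phi hy0
  have a1 : 1 ≤ E1 := one_le_exp_phi hy1
  have b0 : y0 / 2 ≤ E0 := phi_half hy0
  have b1 : y1 / 2 ≤ E1 := phi_half hy1
  set q : ℝ := (ρ + ρ') / 2 with hq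
  have hq0 : 0 ≤ q := by positivity
  have hqe : q ≤ Real.exp (q - 1) := by
    have := Real.add_one_le_exp (q - 1)
    linarith
  have hprod : ρ * ρ' ≤ q ^ 2 := by rw [hq]; nlinarith [sq_nonneg (ρ - ρ')]
  have hE : Real.exp (ρ + ρ' - 2) = Real.exp (q - 1) ^ 2 := by
    rw [← Real.exp_nat_mul]
    congr 1
    rw [hq]; push_cast; ring
  set A : ℝ := Real.exp (ρ + ρ' - 2) with hA
  have hA1 : q ^ 2 ≤ A := by rw [hE]; exact pow_le_pow_left₀ hq0 hqe 2
  have hA2 : 1 / 8 ≤ A := by
    have h1 : A = Real.exp (ρ + ρ') / Real.exp 2 := by rw [hA, Real.exp_sub]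
    rw [h1, div_le_div_iff₀ (by norm_num) (Real.exp_pos 2)]
    have h2 := exp_two_lt
    have h3 : 1 ≤ Real.exp (ρ + ρ') := Real.one_le_exp (by linarith)
    nlinarith
  have hB : 1 + 16 * (F0 + F1) ≤ Real.exp (16 * (F0 + F1)) := by
    have := Real.add_one_le_exp (16 * (F0 + F1))
    linarith
  have hF : 0 ≤ F0 + F1 := by linarith
  have hAB : q ^ 2 + 2 * (F0 + F1) ≤ A * Real.exp (16 * (F0 + F1)) := by
    have h1 : A * (1 + 16 * (F0 + F1)) ≤ A * Real.exp (16 * (F0 + F1)) :=
      mul_le_mul_of_nonneg_left hB (by linarith)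
    have h2 : 1 / 8 * (16 * (F0 + F1)) ≤ A * (16 * (F0 + F1)) :=
      mul_le_mul_of_nonneg_right hA2 (by positivity)
    nlinarith
  have hE0pos : 0 < E0 := by linarith
  have hE1pos : 0 < E1 := by linarith
  have hstep : (q ^ 2 + 2 * (F0 + F1)) * E0 * E1 ≤ A * Real.exp (16 * (F0 + F1)) * E0 * E1 := by
    have := mul_le_mul_of_nonneg_right hAB hE0pos.le
    exact mul_le_mul_of_nonneg_right this hE1pos.le
  refine le_trans ?_ hstep
  have hEE : 1 ≤ E0 * E1 := by nlinarith
  have hEE0 : E0 ≤ E0 * E1 := by nlinarith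
  have hEE1 : E1 ≤ E0 * E1 := by nlinarith
  have c1 : q ^ 2 ≤ q ^ 2 * (E0 * E1) := by nlinarith [sq_nonneg q]
  have c2 : y0 * F0 ≤ 2 * F0 * (E0 * E1) := by
    have : y0 ≤ 2 * (E0 * E1) := by linarith
    nlinarith
  have c3 : y1 * F1 ≤ 2 * F1 * (E0 * E1) := by
    have : y1 ≤ 2 * (E0 * E1) := by linarith
    nlinarith
  nlinarith

variable {V : Type} [Fintype V] {k : ℕ} [NeZero k]

/-- replacing a vertex by a clone -/
theorem update_isCyc (hk : 5 ≤ k) {G : SimpleGraph V} {z : ZMod k → V} (hz : IsCyc G z)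
    {j : ZMod k} {x : V} (hx : x ∈ clone G z j) : IsCyc G (Function.update z j x) := by
  rw [mem_clone] at hx
  have hadj : ∀ l, G.Adj x (z l) ↔ (l = j + 1 ∨ j = l + 1) := by
    intro l
    rw [← mem_pat, hx, Finset.mem_insert, Finset.mem_singleton]
    constructor
    · rintro (h | h)
      · right; rw [h]; ring
      · left; exact h
    · rintro (h | h)
      · right; exact h
      · left; rw [h]; ring
  intro i l
  by_cases hi : i = j
  · by_cases hl : l = j
    · rw [hi, hl]
      simp only [Function.update_self]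
      constructor
      · intro h; exact absurd h (G.irrefl)
      · rintro (h | h) <;> exact absurd (by linear_combination -h) (ne0_1 hk)
    · rw [hi, Function.update_self, Function.update_of_ne hl]
      exact hadj l
  · by_cases hl : l = j
    · rw [hl, Function.update_self, Function.update_of_ne hi, G.adj_comm, hadj i]
      tauto
    · rw [Function.update_of_ne hi, Function.update_of_ne hl]
      exact hz i l

theorem pat_update (G : SimpleGraph V) (z : ZMod k → V) (j i : ZMod k) (x v : V) :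
    i ∈ pat G (Function.update z j x) v ↔ (if i = j then G.Adj v x else G.Adj v (z i)) := by
  rw [mem_pat]
  by_cases h : i = j
  · rw [h, Function.update_self, if_pos rfl]
  · rw [Function.update_of_ne h, if_neg h]

theorem clone_update_sub (hk : 5 ≤ k) {G : SimpleGraph V} (hG : G.CliqueFree 3)
    {z : ZMod k → V} (hz : IsCyc G z)
    {j : ZMod k} {x : V} (hx : x ∈ clone G z j) :
    clone G z j ⊆ clone G (Function.update z j x) j := by
  intro v hv
  rw [mem_clone] at hx hv ⊢
  ext i
  rw [pat_update]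
  by_cases h : i = j
  · rw [if_pos h]
    constructor
    · intro hadj
      exfalso
      have h1 : G.Adj v (z (j + 1)) := by rw [← mem_pat, hv]; simp
      have h2 : G.Adj x (z (j + 1)) := by rw [← mem_pat, hx]; simp
      exact hG {v, x, z (j + 1)} (SimpleGraph.is3Clique_triple_iff.2 ⟨hadj, h1, h2⟩)
    · intro hmem
      rw [h, Finset.mem_insert, Finset.mem_singleton] at hmem
      rcases hmem with h | h
      · exact absurd (by linear_combination h) (ne0_1 hk)
      · exact absurd (by linear_combination -h) (ne0_1 hk)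
  · rw [if_neg h, ← mem_pat, hv]

theorem clone_update (hk : 5 ≤ k) {G : SimpleGraph V} (hG : G.CliqueFree 3)
    {z : ZMod k → V} (hz : IsCyc G z)
    {j : ZMod k} {x : V} (hx : x ∈ clone G z j) :
    clone G (Function.update z j x) j = clone G z j := by
  apply Finset.Subset.antisymm
  · have h1 := clone_update_sub hk hG hz hx
    have h2 : z j ∈ clone G (Function.update z j x) j := h1 (self_mem_clone hz j)
    have h3 := clone_update_sub hk hG (update_isCyc hk hz hx) h2
    rw [Function.update_idem, Function.update_eq_self] at h3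
    exact h3
  · exact clone_update_sub hk hG hz hx

/-- **Exchange lemma** -/
theorem exchange (hk : 5 ≤ k) {G : SimpleGraph V} (hG : G.CliqueFree 3) (j : ZMod k)
    (f : (ZMod k → V) → ℝ) :
    ∑ z ∈ cyc G k, (∑ x ∈ clone G z j, f (Function.update z j x)) / ((clone G z j).card : ℝ)
      = ∑ z ∈ cyc G k, f z := by
  have h1 : ∑ z ∈ cyc G k, (∑ x ∈ clone G z j, f (Function.update z j x)) / ((clone G z j).card : ℝ)
      = ∑ p ∈ (cyc G k).sigma (fun z => clone G z j),
        f (Function.update p.1 j p.2) / ((clone G p.1 j).card : ℝ) := by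
    rw [Finset.sum_sigma]
    apply Finset.sum_congr rfl
    intro z _
    rw [Finset.sum_div]
  have h2 : ∑ z ∈ cyc G k, f z = ∑ p ∈ (cyc G k).sigma (fun z => clone G z j),
        f p.1 / ((clone G p.1 j).card : ℝ) := by
    rw [Finset.sum_sigma]
    apply Finset.sum_congr rfl
    intro z hz
    rw [mem_cyc] at hz
    simp only
    rw [Finset.sum_const, nsmul_eq_mul]
    have : (0:ℝ) < ((clone G z j).card : ℝ) := by
      exact_mod_cast Finset.card_pos.2 ⟨z j, self_mem_clone hz j⟩
    field_simp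
  rw [h1, h2]
  refine Finset.sum_nbij' (fun p => ⟨Function.update p.1 j p.2, p.1 j⟩)
    (fun p => ⟨Function.update p.1 j p.2, p.1 j⟩) ?_ ?_ ?_ ?_ ?_
  · rintro ⟨z, x⟩ hp
    rw [Finset.mem_sigma] at hp ⊢
    simp only at hp ⊢
    rw [mem_cyc] at hp ⊢
    refine ⟨update_isCyc hk hp.1 hp.2, ?_⟩
    rw [clone_update hk hG hp.1 hp.2]
    exact self_mem_clone hp.1 j
  · rintro ⟨z, x⟩ hp
    rw [Finset.mem_sigma] at hp ⊢
    simp only at hp ⊢
    rw [mem_cyc] at hp ⊢
    refine ⟨update_isCyc hk hp.1 hp.2, ?_⟩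
    rw [clone_update hk hG hp.1 hp.2]
    exact self_mem_clone hp.1 j
  · rintro ⟨z, x⟩ hp
    simp
  · rintro ⟨z, x⟩ hp
    simp
  · rintro ⟨z, x⟩ hp
    rw [Finset.mem_sigma] at hp
    simp only at hp ⊢
    rw [mem_cyc] at hp
    rw [clone_update hk hG hp.1 hp.2]

/-- `y_j` -/
def yy (G : SimpleGraph V) (z : ZMod k → V) (j : ZMod k) : ℝ :=
  ((clone G z j).card : ℝ) / nu V k

theorem clone_rot (G : SimpleGraph V) (z : ZMod k → V) (ρ : ZMod k) :
    clone G (fun i => z (i + ρ)) 0 = clone G z ρ := by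
  ext v
  rw [mem_clone, mem_clone, pat_rot]
  constructor
  · intro h
    ext i
    have := Finset.ext_iff.1 h (i - ρ)
    rw [mem_shift, sub_add_cancel] at this
    rw [this]
    simp only [Finset.mem_insert, Finset.mem_singleton]
    constructor
    · rintro (h | h)
      · left; linear_combination h
      · right; linear_combination h
    · rintro (h | h)
      · left; linear_combination h
      · right; linear_combination h
  · intro h
    ext i
    rw [mem_shift, h]
    simp only [Finset.mem_insert, Finset.mem_singleton]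
    constructor
    · rintro (h | h)
      · left; linear_combination h
      · right; linear_combination h
    · rintro (h | h)
      · left; linear_combination h
      · right; linear_combination h

theorem sum_phi_rot (G : SimpleGraph V) (j : ZMod k) :
    ∑ z ∈ cyc G k, phi (yy G z j) = ∑ z ∈ cyc G k, phi (yy G z 0) := by
  rw [← sum_cyc_rot G (fun z => phi (yy G z 0)) j]
  apply Finset.sum_congr rfl
  intro z _
  unfold yy
  rw [clone_rot]

theorem nu_pos {z : ZMod k → V} : 0 < nu V k := by
  unfold nu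
  have h1 : 0 < Fintype.card V := Fintype.card_pos_iff.2 ⟨z 0⟩
  have h2 : 0 < k := NeZero.pos k
  have h1' : (0:ℝ) < (Fintype.card V : ℝ) := by exact_mod_cast h1
  have h2' : (0:ℝ) < (k : ℝ) := by exact_mod_cast h2
  positivity

theorem yy_pos {G : SimpleGraph V} {z : ZMod k → V} (hz : IsCyc G z) (j : ZMod k) :
    0 < yy G z j := by
  unfold yy
  have h1 : (0:ℝ) < ((clone G z j).card : ℝ) := by
    exact_mod_cast Finset.card_pos.2 ⟨z j, self_mem_clone hz j⟩
  have h2 : 0 < nu V k := nu_pos (z := z)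
  positivity

/-- the basic linearisation of the logarithm -/
theorem log_lin {W ω ν : ℝ} (hW : 0 < W) (hω : 0 < ω) (hν : 0 < ν) :
    Real.log W - Real.log ω ≤ (Real.log ν - 1) + (W / ω) / ν := by
  have h := Real.log_le_sub_one_of_pos (show 0 < W / ω / ν by positivity)
  rw [Real.log_div (by positivity) hν.ne', Real.log_div hW.ne' hω.ne'] at h
  linarith

end

end Pool.Agent.TH467
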