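import Pool.Agent.TH467.Defs

set_option autoImplicit false
set_option linter.unusedSectionVars false

open Finset

namespace Pool.Agent.TH467

noncomputable section
open Classical

variable {k : ℕ} [NeZero k]

theorem om_pos (P : Finset (ZMod k)) : 0 < om P := by
  unfold om; split_ifs <;> norm_num

theorem wt_nonneg (P B : Finset (ZMod k)) : 0 ≤ wt P B := by
  unfold wt; split_ifs <;> norm_num

theorem c3_nonneg (m : ℕ) (S P : Finset (ZMod k)) : 0 ≤ c3 m S P := by
  induction m using Nat.strong_induction_on generalizing P with
  | _ m ih =>
    match m with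
    | 0 => simp [c3]
    | 1 => simp only [c3]; split_ifs <;> norm_num
    | (m+2) =>
      simp only [c3]
      have := ih (m+1) (by omega) (insert (qq P) P)
      have h1 := wt_nonneg P (S ∩ P)
      have h2 := om_pos P
      positivity

/-- if `r ∉ S` the weight vanishes -/
theorem wt_zero_of_notMem {S P : Finset (ZMod k)} (h : qq P - 1 ∉ S) : wt P (S ∩ P) = 0 := by
  unfold wt
  rw [if_neg, if_neg]
  · rintro ⟨e, -, -, h2, -⟩
    have : qq P - 1 ∈ S ∩ P := by rw [h2]; simp
    exact h (Finset.mem_inter.1 this).1
  · intro h2
    have : qq P - 1 ∈ S ∩ P := by rw [h2]; simp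
    exact h (Finset.mem_inter.1 this).1

theorem closing_zero {S P : Finset (ZMod k)} (hP : P.card + 1 = k) (hS : Indep S)
    (htw : ¬ IsTw S) : S ∩ P ≠ {qq P - 1, bb P} := by
  intro h
  apply htw
  refine ⟨qq P, ?_⟩
  rw [bb_eq hP] at h
  have h1 : qq P - 1 ∈ S := by
    have : qq P - 1 ∈ S ∩ P := by rw [h]; simp
    exact (Finset.mem_inter.1 this).1
  have h2 : qq P ∉ S := by
    have := hS _ h1
    rwa [sub_add_cancel] at this
  rw [← h]
  ext x
  rw [Finset.mem_inter]
  constructor
  · intro hx
    refine ⟨hx, ?_⟩
    by_contra hxP
    have := eq_qq hP hxP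
    rw [this] at hx
    exact h2 hx
  · exact fun hx => hx.1

/-- the back end lies at value `0` or beyond the front -/
theorem bb_cases {P : Finset (ZMod k)} (h : P.card < k) (h0 : (0 : ZMod k) ∈ P) :
    (bb P = 0 ∧ (-1 : ZMod k) ∉ P) ∨ (fr P < (bb P).val ∧ (-1 : ZMod k) ∈ P) := by
  have hb1 := one_le_bk h h0
  rcases Nat.lt_or_ge 1 (bk P) with h1 | h1
  · right
    have h2 : (-1 : ZMod k) ∈ P := by
      have := mem_of_lt_bk h1
      simpa using this
    refine ⟨?_, h2⟩
    have hbn := bk_notMem h
    have hbk : bk P < k := by
      by_contra hcon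
      have : -((0 : ℕ) : ZMod k) ∈ P := by simpa using h0
      obtain ⟨x, hx⟩ := exists_notMem h
      have hxk : (-x).val < k := ZMod.val_lt _
      have := bk_le (P := P) (t := (-x).val) (by simpa using hx)
      omega
    have e1 : -(bk P : ZMod k) = ((k - bk P : ℕ) : ZMod k) := by
      rw [Nat.cast_sub hbk.le]; simp
    have e2 : bb P = ((k - bk P + 1 : ℕ) : ZMod k) := by
      unfold bb
      push_cast
      rw [← e1]; ring
    rw [e2, ZMod.val_natCast, Nat.mod_eq_of_lt (by omega)]
    rw [e1] at hbn
    have := fr_le hbn
    omega
  · left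
    have : bk P = 1 := by omega
    constructor
    · unfold bb; rw [this]; simp
    · have := bk_notMem h
      rw [‹bk P = 1›] at this
      simpa using this

theorem wt_zero_interior {S P : Finset (ZMod k)} {x : ZMod k} (hP : P.card < k)
    (h0 : (0 : ZMod k) ∈ P) (h1 : (1 : ZMod k) ∈ P)
    (hx : x ∈ S) (hxf : x.val + 1 < fr P) : wt P (S ∩ P) = 0 := by
  have h2f := two_le_fr hP h0 h1
  have hq := val_qq hP
  have hr : (qq P - 1).val = fr P - 1 := by
    rw [val_sub_one (by omega), hq]
  have hxP : x ∈ P := mem_of_val_lt (by omega)
  have hxr : x ≠ qq P - 1 := by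
    intro h
    rw [h, hr] at hxf
    omega
  have hxSP : x ∈ S ∩ P := Finset.mem_inter.2 ⟨hx, hxP⟩
  unfold wt
  rw [if_neg, if_neg]
  · rintro ⟨e, he1, he2, h2, h3⟩
    rw [h2] at hxSP
    simp only [Finset.mem_insert, Finset.mem_singleton] at hxSP
    rcases hxSP with h4 | h4
    · exact hxr h4
    · subst h4
      apply h3
      have hfk := fr_lt hP
      have hs : x + 1 ∈ P := by
        apply mem_of_val_lt
        rw [val_add_one (by omega)]
        exact hxf
      refine ⟨?_, hs⟩
      rcases Nat.eq_zero_or_pos x.val with h5 | h5
      · have hx0 : x = 0 := by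
          rw [ZMod.val_eq_zero] at h5; exact h5
        rcases bb_cases hP h0 with ⟨h6, _⟩ | ⟨_, h6⟩
        · exfalso; apply he2; rw [h6, hx0]
        · rw [hx0]; simpa using h6
      · apply mem_of_val_lt
        rw [val_sub_one h5]
        omega
  · intro h2
    rw [h2, Finset.mem_singleton] at hxSP
    exact hxr hxSP

theorem c3_zero {S : Finset (ZMod k)} {x : ZMod k} (hS : Indep S) (htw : ¬ IsTw S) (hx : x ∈ S)
    (m : ℕ) : ∀ P : Finset (ZMod k), P.card + m = k → (0 : ZMod k) ∈ P → (1 : ZMod k) ∈ P →
    x.val + 1 < fr P → c3 m S P = 0 := by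
  induction m using Nat.strong_induction_on with
  | _ m ih =>
    intro P hPm h0 h1 hxf
    match m, ih with
    | 0, _ => simp [c3]
    | 1, _ =>
      simp only [c3]
      rw [if_neg (closing_zero hPm hS htw)]
    | (m+2), ih =>
      simp only [c3]
      rw [wt_zero_interior (by omega) h0 h1 hx hxf]
      rw [ih (m+1) (by omega) (insert (qq P) P) (by rw [card_insert_qq (by omega)]; omega)
        (Finset.mem_insert_of_mem h0) (Finset.mem_insert_of_mem h1)
        (by have := fr_insert (P := P) (by omega); omega)]
      simp

def gg : ℕ → ℝ
  | 0 => 1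
  | 1 => 7/10
  | _ => 0

def uu (x : ZMod k) (S P : Finset (ZMod k)) : ℝ :=
  if x + 1 ∈ P then 0 else gg ((S ∩ P).erase x).card * (if x + 2 ∈ P then 10/7 else 1)

theorem gg_nonneg (n : ℕ) : 0 ≤ gg n := by
  unfold gg; split <;> norm_num

theorem gg_le_one (n : ℕ) : gg n ≤ 1 := by
  unfold gg; split <;> norm_num

theorem gg_anti {m n : ℕ} (h : m ≤ n) : gg n ≤ gg m := by
  match m, n with
  | 0, n => exact gg_le_one n
  | 1, 0 => omega
  | 1, 1 => exact le_rfl
  | 1, (n+2) => simp only [gg]; norm_num
  | (m+2), 0 => omega
  | (m+2), 1 => omega
  | (m+2), (n+2) => simp [gg]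

theorem uu_nonneg (x : ZMod k) (S P : Finset (ZMod k)) : 0 ≤ uu x S P := by
  unfold uu
  have := gg_nonneg ((S ∩ P).erase x).card
  split_ifs <;> first | exact le_rfl | positivity

theorem uu_le (x : ZMod k) (S P : Finset (ZMod k)) : uu x S P ≤ 10/7 := by
  unfold uu
  have := gg_nonneg ((S ∩ P).erase x).card
  have h2 := gg_le_one ((S ∩ P).erase x).card
  split_ifs <;> linarith

theorem c3_of_empty (hk : 5 ≤ k) (m : ℕ) : ∀ P : Finset (ZMod k), P.card + m = k → c3 m ∅ P = 0 := by
  induction m using Nat.strong_induction_on with
  | _ m ih =>
    intro P hPm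
    match m, ih with
    | 0, _ => simp [c3]
    | 1, _ =>
      simp only [c3]
      rw [if_neg]
      intro h
      have : qq P - 1 ∈ (∅ : Finset (ZMod k)) ∩ P := by rw [h]; simp
      simp at this
    | (m+2), ih =>
      simp only [c3]
      rw [wt_zero_of_notMem (by simp)]
      rw [ih (m+1) (by omega) (insert (qq P) P) (by rw [card_insert_qq (by omega)]; omega)]
      simp

/-- The scan lemma: `x` is the least element of `S`. -/
theorem c3_le (hk : 5 ≤ k) {S : Finset (ZMod k)} {x : ZMod k} (hS : Indep S) (htw : ¬ IsTw S)
    (hx : x ∈ S) (hmin : ∀ y ∈ S, x.val ≤ y.val)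
    (m : ℕ) : ∀ P : Finset (ZMod k), P.card + m = k → (0 : ZMod k) ∈ P → (1 : ZMod k) ∈ P →
    c3 m S P ≤ uu x S P := by
  induction m using Nat.strong_induction_on with
  | _ m ih =>
    intro P hPm h0 h1
    match m, ih with
    | 0, _ => simp only [c3]; exact uu_nonneg _ _ _
    | 1, _ =>
      simp only [c3]
      rw [if_neg (closing_zero hPm hS htw)]
      exact uu_nonneg _ _ _
    | (m+2), ih =>
      have hP : P.card < k := by omega
      have h2f := two_le_fr hP h0 h1
      have hq := val_qq hP
      have hqn := qq_notMem hP
      have hfk := fr_lt hP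
      have hr : (qq P - 1).val = fr P - 1 := by
        rw [val_sub_one (by omega), hq]
      have hins := ih (m+1) (by omega) (insert (qq P) P) (by rw [card_insert_qq (by omega)]; omega)
        (Finset.mem_insert_of_mem h0) (Finset.mem_insert_of_mem h1)
      simp only [c3]
      rcases lt_trichotomy (x.val + 1) (fr P) with hlt | heq | hgt
      · rw [wt_zero_interior hP h0 h1 hx hlt]
        rw [c3_zero hS htw hx (m+1) (insert (qq P) P) (by rw [card_insert_qq (by omega)]; omega)
          (Finset.mem_insert_of_mem h0) (Finset.mem_insert_of_mem h1)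
          (by have := fr_insert (P := P) (by omega); omega)]
        simp only [zero_div, add_zero]
        exact uu_nonneg _ _ _
      · -- x is the front
        rw [c3_zero hS htw hx (m+1) (insert (qq P) P) (by rw [card_insert_qq (by omega)]; omega)
          (Finset.mem_insert_of_mem h0) (Finset.mem_insert_of_mem h1)
          (by have := fr_insert (P := P) (by omega); omega)]
        have hxq : x = qq P - 1 := by
          apply ZMod.val_injective k
          rw [hr]; omega
        have hx1 : x + 1 = qq P := by rw [hxq]; ring
        have hx2 : x + 2 = qq P + 1 := by rw [hxq]; ring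
        have hxP : x ∈ P := mem_of_val_lt (by omega)
        have hxSP : x ∈ S ∩ P := Finset.mem_inter.2 ⟨hx, hxP⟩
        unfold uu
        rw [hx1, if_neg hqn, hx2]
        have hw : wt P (S ∩ P) ≤ gg ((S ∩ P).erase x).card := by
          unfold wt
          split_ifs with h3 h4
          · rw [h3, ← hxq]
            simp [gg]
          · obtain ⟨e, he1, he2, h5, h6⟩ := h4
            rw [h5, ← hxq]
            have : (({x, e} : Finset (ZMod k)).erase x) = {e} := by
              rw [Finset.erase_insert]
              simp only [Finset.mem_singleton]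
              rw [hxq]; exact fun h => he1 h.symm
            rw [this]
            simp [gg]
          · exact gg_nonneg _
        have hww := wt_nonneg P (S ∩ P)
        unfold om
        split_ifs with h7
        · have e1 : wt P (S ∩ P) / (7/10) = wt P (S ∩ P) * (10/7) := by ring
          rw [e1]; linarith
        · linarith
      · -- x beyond the front
        have hrS : qq P - 1 ∉ S := by
          intro h
          have := hmin _ h
          rw [hr] at this
          omega
        rw [wt_zero_of_notMem hrS]
        simp only [zero_div, zero_add]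
        refine hins.trans (le_of_eq ?_)
        have hxk := ZMod.val_lt x
        have hqx1 : x + 1 ≠ qq P := by
          intro h
          rcases Nat.lt_or_ge (x.val + 1) k with h3 | h3
          · have := val_add_one h3
            rw [h, hq] at this
            omega
          · have := add_one_eq_zero_of_val (x := x) (by omega)
            rw [h] at this
            apply hqn
            rw [this]; exact h0
        have hqx2 : x + 2 ≠ qq P := by
          intro h
          have e2 : x + 2 = (x + 1) + 1 := by ring
          rcases Nat.lt_or_ge (x.val + 2) k with h3 | h3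
          · have := val_add_two h3
            rw [h, hq] at this
            omega
          · rcases Nat.lt_or_ge (x.val + 1) k with h4 | h4
            · have h5 := val_add_one h4
              have := add_one_eq_zero_of_val (x := x + 1) (by omega)
              rw [← e2, h] at this
              apply hqn
              rw [this]; exact h0
            · have := add_one_eq_zero_of_val (x := x) (by omega)
              rw [e2, this] at h
              apply hqn
              rw [← h]; simpa using h1
        have hinter : (S ∩ insert (qq P) P).erase x = (S ∩ P).erase x := by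
          ext y
          simp only [Finset.mem_erase, Finset.mem_inter, Finset.mem_insert]
          constructor
          · rintro ⟨hyx, hyS, hy | hy⟩
            · exfalso
              apply hyx
              have h8 := hmin y hyS
              rw [hy, hq] at h8
              have : x.val = fr P := by omega
              rw [hy]
              exact qq_eq_val hP this
            · exact ⟨hyx, hyS, hy⟩
          · rintro ⟨hyx, hyS, hy⟩
            exact ⟨hyx, hyS, Or.inr hy⟩
        unfold uu
        rw [hinter]
        simp only [Finset.mem_insert, hqx1, hqx2, false_or]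

end

end Pool.Agent.TH467
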