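import Pool.Agent.TH467.LinA
import Pool.Agent.TH467.Scan

set_option autoImplicit false
set_option linter.unusedSectionVars false

open Finset

namespace Pool.Agent.TH467

noncomputable section
open Classical

variable {V : Type} [Fintype V] {k : ℕ} [NeZero k]

theorem fr_add_bk_ne {P : Finset (ZMod k)} (hP : P.card + 2 ≤ k) (h0 : (0 : ZMod k) ∈ P) :
    qq P ≠ -(bk P : ZMod k) := by
  intro h
  have hlt : P.card < k := by omega
  have hf := fr_lt hlt
  have hb1 := one_le_bk hlt h0
  have hbk : bk P < k := by
    by_contra hcon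
    obtain ⟨x, hx⟩ := exists_notMem hlt
    have hxk : (-x).val < k := ZMod.val_lt _
    have := bk_le (P := P) (t := (-x).val) (by simpa using hx)
    omega
  have e1 : -(bk P : ZMod k) = ((k - bk P : ℕ) : ZMod k) := by
    rw [Nat.cast_sub hbk.le]; simp
  have hsum : fr P = k - bk P := by
    have h2 : (qq P).val = k - bk P := by
      rw [h, e1, ZMod.val_natCast, Nat.mod_eq_of_lt (by omega)]
    rw [val_qq hlt] at h2
    exact h2
  -- everything except qq P is in P
  have hall : ∀ x : ZMod k, x ≠ qq P → x ∈ P := by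
    intro x hx
    rcases lt_trichotomy x.val (fr P) with h3 | h3 | h3
    · exact mem_of_val_lt h3
    · exact absurd (qq_eq_val hlt h3).symm hx
    · have hxk := ZMod.val_lt x
      have h4 : k - x.val < bk P := by omega
      have h5 := mem_of_lt_bk (P := P) h4
      have h6 : -((k - x.val : ℕ) : ZMod k) = x := by
        rw [Nat.cast_sub hxk.le]; simp
      rwa [h6] at h5
  have hsub : (Finset.univ.erase (qq P)) ⊆ P := by
    intro x hx
    exact hall x (Finset.ne_of_mem_erase hx)
  have := Finset.card_le_card hsub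
  rw [Finset.card_erase_of_mem (Finset.mem_univ _), Finset.card_univ, ZMod.card] at this
  omega

/-- the weight of the true next vertex -/
theorem wt_true (hk : 5 ≤ k) {P : Finset (ZMod k)} (hP : P.card + 2 ≤ k)
    (h0 : (0 : ZMod k) ∈ P) (h1 : (1 : ZMod k) ∈ P) :
    wt P (({qq P - 1, qq P + 1} : Finset (ZMod k)) ∩ P) = om P := by
  have hlt : P.card < k := by omega
  have h2f := two_le_fr hlt h0 h1
  have hr : qq P - 1 ∈ P := by
    apply mem_of_val_lt
    rw [val_sub_one (by rw [val_qq hlt]; omega), val_qq hlt]
    omega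
  have hne : qq P + 1 ≠ qq P - 1 := fun h => ne0_2 hk (by linear_combination h)
  by_cases h3 : qq P + 1 ∈ P
  · have e1 : ({qq P - 1, qq P + 1} : Finset (ZMod k)) ∩ P = {qq P - 1, qq P + 1} := by
      apply Finset.inter_eq_left.2
      intro y hy
      rw [Finset.mem_insert, Finset.mem_singleton] at hy
      rcases hy with hy | hy <;> rw [hy] <;> assumption
    rw [e1]
    unfold wt om
    rw [if_pos h3, if_neg, if_pos]
    · refine ⟨qq P + 1, hne, ?_, rfl, ?_⟩
      · intro h
        unfold bb at h
        exact fr_add_bk_ne hP h0 (by linear_combination h)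
      · rintro ⟨h4, -⟩
        rw [add_sub_cancel_right] at h4
        exact qq_notMem hlt h4
    · intro h
      have : qq P + 1 ∈ ({qq P - 1} : Finset (ZMod k)) := by rw [← h]; simp
      rw [Finset.mem_singleton] at this
      exact hne this
  · have e1 : ({qq P - 1, qq P + 1} : Finset (ZMod k)) ∩ P = {qq P - 1} := by
      ext y
      rw [Finset.mem_inter, Finset.mem_insert, Finset.mem_singleton, Finset.mem_singleton]
      constructor
      · rintro ⟨hy | hy, hyP⟩
        · exact hy
        · rw [hy] at hyP; exact absurd hyP h3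
      · intro hy; rw [hy]; exact ⟨Or.inl rfl, hr⟩
    rw [e1]
    unfold wt om
    rw [if_pos rfl, if_neg h3]

theorem clo_eq_clone (hk : 5 ≤ k) {G : SimpleGraph V} (hG : G.CliqueFree 3) {z : ZMod k → V}
    (hz : IsCyc G z) {P : Finset (ZMod k)} (hP : P.card + 1 = k) :
    clo G (P.image z) (z (qq P - 1)) (z (bb P)) = clone G z (qq P) := by
  have hinj := hz.inj hk
  ext v
  rw [mem_clone]
  unfold clo
  rw [Finset.mem_filter]
  simp only [Finset.mem_univ, true_and]
  rw [bb_eq hP, nb_image]
  have e1 : ({z (qq P - 1), z (qq P + 1)} : Finset V) = ({qq P - 1, qq P + 1} : Finset (ZMod k)).image z := by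
    rw [Finset.image_insert, Finset.image_singleton]
  rw [e1, image_eq_iff hinj]
  have hS := hz.indep_pat hG v
  have hqn := qq_notMem (P := P) (by omega)
  constructor
  · intro h
    have h1 : qq P - 1 ∈ pat G z v := by
      have : qq P - 1 ∈ pat G z v ∩ P := by rw [h]; simp
      exact (Finset.mem_inter.1 this).1
    have h2 : qq P ∉ pat G z v := by
      have := hS _ h1
      rwa [sub_add_cancel] at this
    rw [← h]
    ext x
    rw [Finset.mem_inter]
    constructor
    · intro hx
      refine ⟨hx, ?_⟩
      by_contra hxP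
      have := eq_qq hP hxP
      rw [this] at hx
      exact h2 hx
    · exact fun hx => hx.1
  · intro h
    rw [h]
    apply Finset.inter_eq_left.2
    intro y hy
    by_contra hyP
    have := eq_qq hP hyP
    rw [this, Finset.mem_insert, Finset.mem_singleton] at hy
    rcases hy with hy | hy
    · exact ne0_1 hk (by linear_combination hy)
    · exact ne0_1 hk (by linear_combination -hy)

/-- The linear bound for the scanning phase. -/
theorem L3_bound (hk : 5 ≤ k) {G : SimpleGraph V} (hG : G.CliqueFree 3) (m : ℕ) :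
    ∀ P : Finset (ZMod k), P.card + (m + 1) = k → (0 : ZMod k) ∈ P → (1 : ZMod k) ∈ P →
    ∑ z ∈ cyc G k, L3 G (m+1) P z ≤
      ∑ z ∈ cyc G k, (((m + 1 : ℕ) : ℝ) * (Real.log (nu V k) - 1)
        + (∑ v : V, c3 (m+1) (pat G z v) P) / nu V k) - ∑ z ∈ cyc G k, phi (yy G z 0) := by
  induction m with
  | zero =>
    intro P hP h0 h1
    rw [← sum_phi_rot G (qq P), ← Finset.sum_sub_distrib]
    apply Finset.sum_le_sum
    intro z hz
    rw [mem_cyc] at hz
    have hν : 0 < nu V k := nu_pos (z := z)
    simp only [zero_add, L3, c3]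
    rw [clo_eq_clone hk hG hz hP]
    have hc : ∑ v : V, (if pat G z v ∩ P = {qq P - 1, bb P} then (1:ℝ) else 0)
        = ((clone G z (qq P)).card : ℝ) := by
      rw [← clo_eq_clone hk hG hz hP]
      unfold clo
      rw [Finset.card_filter]
      push_cast
      apply Finset.sum_congr rfl
      intro v _
      have : nb G v (P.image z) = {z (qq P - 1), z (bb P)} ↔ pat G z v ∩ P = {qq P - 1, bb P} := by
        rw [nb_image, ← image_eq_iff (hz.inj hk), Finset.image_insert, Finset.image_singleton]
      by_cases h : pat G z v ∩ P = {qq P - 1, bb P}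
      · rw [if_pos h, if_pos (this.2 h)]
      · rw [if_neg h, if_neg (fun h' => h (this.1 h'))]
    rw [hc]
    have hpos : (0:ℝ) < ((clone G z (qq P)).card : ℝ) := by
      exact_mod_cast Finset.card_pos.2 ⟨z (qq P), self_mem_clone hz (qq P)⟩
    unfold phi yy
    rw [Real.log_div hpos.ne' hν.ne']
    push_cast
    linarith
  | succ m ih =>
    intro P hP h0 h1
    have hlt : P.card < k := by omega
    have hih := ih (insert (qq P) P) (by rw [card_insert_qq hlt]; omega)
      (Finset.mem_insert_of_mem h0) (Finset.mem_insert_of_mem h1)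
    have hstep : ∀ z ∈ cyc G k, L3 G (m+1+1) P z ≤ L3 G (m+1) (insert (qq P) P) z +
        ((Real.log (nu V k) - 1) + (∑ v : V, wt P (pat G z v ∩ P) / om P) / nu V k) := by
      intro z hz
      rw [mem_cyc] at hz
      have hν : 0 < nu V k := nu_pos (z := z)
      simp only [L3]
      have e1 : ∑ v : V, wG G (P.image z) (z (qq P - 1)) (z (bb P)) v =
          ∑ v : V, wt P (pat G z v ∩ P) := by
        apply Finset.sum_congr rfl
        intro v _
        exact wG_eq hk hz
      rw [e1]
      have hWpos : 0 < ∑ v : V, wt P (pat G z v ∩ P) := by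
        have h2 : wt P (pat G z (z (qq P)) ∩ P) ≤ ∑ v : V, wt P (pat G z v ∩ P) :=
          Finset.single_le_sum (f := fun v => wt P (pat G z v ∩ P))
            (fun v _ => wt_nonneg _ _) (Finset.mem_univ _)
        rw [hz.pat_self, wt_true hk (by omega) h0 h1] at h2
        exact lt_of_lt_of_le (om_pos P) h2
      have h3 := log_lin hWpos (om_pos P) hν
      rw [← Finset.sum_div]
      linarith
    refine (Finset.sum_le_sum hstep).trans ?_
    rw [Finset.sum_add_distrib]
    have h4 : ∑ z ∈ cyc G k, (((m + 1 + 1 : ℕ) : ℝ) * (Real.log (nu V k) - 1)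
        + (∑ v : V, c3 (m+1+1) (pat G z v) P) / nu V k) =
      ∑ z ∈ cyc G k, (((m + 1 : ℕ) : ℝ) * (Real.log (nu V k) - 1)
        + (∑ v : V, c3 (m+1) (pat G z v) (insert (qq P) P)) / nu V k) +
      ∑ z ∈ cyc G k, ((Real.log (nu V k) - 1) + (∑ v : V, wt P (pat G z v ∩ P) / om P) / nu V k) := by
      rw [← Finset.sum_add_distrib]
      apply Finset.sum_congr rfl
      intro z _
      have : ∑ v : V, c3 (m+1+1) (pat G z v) P = ∑ v : V, wt P (pat G z v ∩ P) / om P +
          ∑ v : V, c3 (m+1) (pat G z v) (insert (qq P) P) := by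
        rw [← Finset.sum_add_distrib]
        apply Finset.sum_congr rfl
        intro v _
        simp only [c3]
      rw [this]
      push_cast
      ring
    rw [h4]
    linarith

end

end Pool.Agent.TH467
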