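import Pool.Agent.TH467.LinB

set_option autoImplicit false
set_option linter.unusedSectionVars false

open Finset

namespace Pool.Agent.TH467

noncomputable section
open Classical

variable {V : Type} [Fintype V] {k : ℕ} [NeZero k]

def Xs (G : SimpleGraph V) (z : ZMod k → V) (P : Finset (ZMod k)) (a : ZMod k) : Finset V :=
  Finset.univ.filter (fun v => ¬ IsTw (pat G z v) ∧ (pat G z v ∩ P).card ≤ 2 ∧ a ∈ pat G z v)

/-- number of nonadjacent pairs, one in `clone j`, the other in `clone t` -/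
def Nn (G : SimpleGraph V) (z : ZMod k → V) (j t : ZMod k) : ℕ :=
  ∑ x ∈ clone G z j, ((clone G z t).filter (fun v => ¬ G.Adj v x)).card

def zeta (G : SimpleGraph V) (z : ZMod k → V) (j t : ZMod k) : ℝ :=
  (∑ x ∈ clone G z j, (((clone G z t).filter (fun v => ¬ G.Adj v x)).card : ℝ) / nu V k)
    / ((clone G z j).card : ℝ)

def sing (G : SimpleGraph V) (z : ZMod k → V) (s : ZMod k) : Finset V :=
  Finset.univ.filter (fun v => pat G z v = {s})

theorem sum_zeta (hk : 5 ≤ k) {G : SimpleGraph V} (hG : G.CliqueFree 3) {j t s : ZMod k}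
    (h : ({t - 1, t + 1} : Finset (ZMod k)) = {j, s}) (hs : s ≠ j) :
    ∑ z ∈ cyc G k, zeta G z j t ≤ ∑ z ∈ cyc G k, ((sing G z s).card : ℝ) / nu V k := by
  rw [← exchange hk hG j (fun z => ((sing G z s).card : ℝ) / nu V k)]
  apply Finset.sum_le_sum
  intro z hz
  have hν : 0 < nu V k := nu_pos (z := z)
  unfold zeta
  apply div_le_div_of_nonneg_right _ (by positivity)
  apply Finset.sum_le_sum
  intro x hx
  apply div_le_div_of_nonneg_right _ hν.le
  have : (clone G z t).filter (fun v => ¬ G.Adj v x) ⊆ sing G (Function.update z j x) s := by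
    intro v hv
    rw [Finset.mem_filter, mem_clone] at hv
    unfold sing
    rw [Finset.mem_filter]
    refine ⟨Finset.mem_univ _, ?_⟩
    ext i
    rw [pat_update, Finset.mem_singleton]
    by_cases hij : i = j
    · rw [if_pos hij]
      constructor
      · intro h'; exact absurd h' hv.2
      · intro h'; exact absurd (h'.symm.trans hij) hs
    · rw [if_neg hij, ← mem_pat, hv.1, h, Finset.mem_insert, Finset.mem_singleton]
      tauto
  exact_mod_cast Finset.card_le_card this

theorem card_filter_prod (A B : Finset V) (p : V → V → Prop) :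
    ((A ×ˢ B).filter (fun q => p q.1 q.2)).card = ∑ x ∈ A, (B.filter (fun v => p x v)).card := by
  rw [Finset.card_filter, Finset.sum_product]
  apply Finset.sum_congr rfl
  intro x _
  rw [Finset.card_filter]

theorem card_filter_prod' (A B : Finset V) (p : V → V → Prop) :
    ((A ×ˢ B).filter (fun q => p q.1 q.2)).card = ∑ v ∈ B, (A.filter (fun x => p x v)).card := by
  rw [Finset.card_filter, Finset.sum_product_right]
  apply Finset.sum_congr rfl
  intro x _
  rw [Finset.card_filter]

theorem prs_card (hk : 5 ≤ k) {G : SimpleGraph V} {z : ZMod k → V} (hz : IsCyc G z)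
    (P : Finset (ZMod k)) :
    (prs G (P.image z) (z 0) (z 1)).card ≤
      ((clone G z (-1)).card + (Xs G z P 0).card) * ((clone G z 2).card + (Xs G z P 1).card)
      + Nn G z (-1) 0 + (Xs G z P 0).card * (clone G z 0).card + Nn G z 2 1
      + (clone G z 1).card * (Xs G z P 1).card + Nn G z 1 0 := by
  have hinj := hz.inj hk
  have hsub : prs G (P.image z) (z 0) (z 1) ⊆
      ((((((clone G z (-1) ∪ Xs G z P 0) ×ˢ (clone G z 2 ∪ Xs G z P 1))
      ∪ ((clone G z (-1)) ×ˢ (clone G z 0)).filter (fun q => ¬ G.Adj q.2 q.1))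
      ∪ ((Xs G z P 0) ×ˢ (clone G z 0)))
      ∪ ((clone G z 1) ×ˢ (clone G z 2)).filter (fun q => ¬ G.Adj q.1 q.2))
      ∪ ((clone G z 1) ×ˢ (Xs G z P 1)))
      ∪ ((clone G z 1) ×ˢ (clone G z 0)).filter (fun q => ¬ G.Adj q.2 q.1) := by
    rintro ⟨x, v⟩ hp
    unfold prs at hp
    rw [Finset.mem_filter] at hp
    obtain ⟨-, hx0, hv1, hxv, hcx, hcv⟩ := hp
    simp only at hx0 hv1 hxv hcx hcv
    rw [card_nb_image hinj] at hcx hcv
    have hx : x ∈ clone G z (-1) ∨ x ∈ clone G z 1 ∨ x ∈ Xs G z P 0 := by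
      by_cases htw : IsTw (pat G z x)
      · obtain ⟨t, ht⟩ := htw
        have h0 : (0 : ZMod k) ∈ pat G z x := mem_pat.2 hx0
        rw [ht, Finset.mem_insert, Finset.mem_singleton] at h0
        rcases h0 with h0 | h0
        · right; left; rw [mem_clone, ht]
          have : t = 1 := by linear_combination -h0
          rw [this]
        · left; rw [mem_clone, ht]
          have : t = -1 := by linear_combination -h0
          rw [this]
      · right; right
        unfold Xs
        rw [Finset.mem_filter]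
        exact ⟨Finset.mem_univ _, htw, hcx, mem_pat.2 hx0⟩
    have hv : v ∈ clone G z 2 ∨ v ∈ clone G z 0 ∨ v ∈ Xs G z P 1 := by
      by_cases htw : IsTw (pat G z v)
      · obtain ⟨t, ht⟩ := htw
        have h0 : (1 : ZMod k) ∈ pat G z v := mem_pat.2 hv1
        rw [ht, Finset.mem_insert, Finset.mem_singleton] at h0
        rcases h0 with h0 | h0
        · left; rw [mem_clone, ht]
          have : t = 2 := by linear_combination -h0
          rw [this]
        · right; left; rw [mem_clone, ht]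
          have : t = 0 := by linear_combination -h0
          rw [this]
      · right; right
        unfold Xs
        rw [Finset.mem_filter]
        exact ⟨Finset.mem_univ _, htw, hcv, mem_pat.2 hv1⟩
    have hvx : ¬ G.Adj v x := fun h => hxv h.symm
    clear hcx hcv hx0 hv1
    simp only [Finset.mem_union, Finset.mem_product, Finset.mem_filter]
    rcases hx with hx | hx | hx
    · rcases hv with hv | hv | hv
      · exact Or.inl (Or.inl (Or.inl (Or.inl (Or.inl ⟨Or.inl hx, Or.inl hv⟩))))
      · exact Or.inl (Or.inl (Or.inl (Or.inl (Or.inr ⟨⟨hx, hv⟩, hvx⟩))))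
      · exact Or.inl (Or.inl (Or.inl (Or.inl (Or.inl ⟨Or.inl hx, Or.inr hv⟩))))
    · rcases hv with hv | hv | hv
      · exact Or.inl (Or.inl (Or.inr ⟨⟨hx, hv⟩, hxv⟩))
      · exact Or.inr ⟨⟨hx, hv⟩, hvx⟩
      · exact Or.inl (Or.inr ⟨hx, hv⟩)
    · rcases hv with hv | hv | hv
      · exact Or.inl (Or.inl (Or.inl (Or.inl (Or.inl ⟨Or.inr hx, Or.inl hv⟩))))
      · exact Or.inl (Or.inl (Or.inl (Or.inr ⟨hx, hv⟩)))
      · exact Or.inl (Or.inl (Or.inl (Or.inl (Or.inl ⟨Or.inr hx, Or.inr hv⟩))))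
  refine (Finset.card_le_card hsub).trans ?_
  have b1 : (((clone G z (-1)) ×ˢ (clone G z 0)).filter (fun q => ¬ G.Adj q.2 q.1)).card
      = Nn G z (-1) 0 := by
    unfold Nn
    convert card_filter_prod (clone G z (-1)) (clone G z 0) (fun x v => ¬ G.Adj v x)
  have b2 : (((clone G z 1) ×ˢ (clone G z 2)).filter (fun q => ¬ G.Adj q.1 q.2)).card
      = Nn G z 2 1 := by
    unfold Nn
    convert card_filter_prod' (clone G z 1) (clone G z 2) (fun x v => ¬ G.Adj x v)
  have b3 : (((clone G z 1) ×ˢ (clone G z 0)).filter (fun q => ¬ G.Adj q.2 q.1)).card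
      = Nn G z 1 0 := by
    unfold Nn
    convert card_filter_prod (clone G z 1) (clone G z 0) (fun x v => ¬ G.Adj v x)
  refine (Finset.card_union_le _ _).trans ?_
  refine Nat.add_le_add ?_ (le_of_eq b3)
  refine (Finset.card_union_le _ _).trans ?_
  refine Nat.add_le_add ?_ (le_of_eq (Finset.card_product _ _))
  refine (Finset.card_union_le _ _).trans ?_
  refine Nat.add_le_add ?_ (le_of_eq b2)
  refine (Finset.card_union_le _ _).trans ?_
  refine Nat.add_le_add ?_ (le_of_eq (Finset.card_product _ _))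
  refine (Finset.card_union_le _ _).trans ?_
  refine Nat.add_le_add ?_ (le_of_eq b1)
  rw [Finset.card_product]
  exact Nat.mul_le_mul (Finset.card_union_le _ _) (Finset.card_union_le _ _)

theorem mem_prs_self (hk : 5 ≤ k) {G : SimpleGraph V} {z : ZMod k → V} (hz : IsCyc G z)
    (P : Finset (ZMod k)) : (z (-1), z 2) ∈ prs G (P.image z) (z 0) (z 1) := by
  have hinj := hz.inj hk
  unfold prs
  rw [Finset.mem_filter]
  refine ⟨Finset.mem_univ _, ?_, ?_, ?_, ?_, ?_⟩
  · rw [hz]; left; ring
  · rw [hz]; right; ring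
  · rw [hz]
    rintro (h | h)
    · exact ne0_2 hk (by linear_combination h)
    · exact ne0_4 hk (by linear_combination -h)
  · rw [card_nb_image hinj, hz.pat_self]
    exact (Finset.card_le_card Finset.inter_subset_left).trans Finset.card_le_two
  · rw [card_nb_image hinj, hz.pat_self]
    exact (Finset.card_le_card Finset.inter_subset_left).trans Finset.card_le_two

theorem sum_cpair (hk : 5 ≤ k) {G : SimpleGraph V} (hG : G.CliqueFree 3) {z : ZMod k → V}
    (hz : IsCyc G z) (P : Finset (ZMod k)) :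
    ∑ v : V, cpair (pat G z v) P = ((clone G z (-1)).card : ℝ) + ((clone G z 2).card : ℝ)
      + 17 * (((Xs G z P 0).card : ℝ) + ((Xs G z P 1).card : ℝ))
      + ((sing G z 1).card : ℝ) + ((sing G z 0).card : ℝ) + 16 * ((sing G z (-1)).card : ℝ) := by
  unfold cpair
  rw [Finset.sum_add_distrib, Finset.sum_add_distrib, Finset.sum_add_distrib,
    Finset.sum_add_distrib, Finset.sum_add_distrib]
  have e1 : ∑ v : V, (if pat G z v = {-2, 0} then (1:ℝ) else 0) = ((clone G z (-1)).card : ℝ) := by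
    unfold clone
    rw [Finset.card_filter]
    push_cast
    apply Finset.sum_congr rfl
    intro v _
    have a1 : (-1 : ZMod k) - 1 = -2 := by ring
    have a2 : (-1 : ZMod k) + 1 = 0 := by ring
    rw [a1, a2]
  have e2 : ∑ v : V, (if pat G z v = {1, 3} then (1:ℝ) else 0) = ((clone G z 2).card : ℝ) := by
    unfold clone
    rw [Finset.card_filter]
    push_cast
    apply Finset.sum_congr rfl
    intro v _
    have a1 : (2 : ZMod k) - 1 = 1 := by ring
    have a2 : (2 : ZMod k) + 1 = 3 := by ring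
    rw [a1, a2]
  have e3 : ∀ s : ZMod k, ∑ v : V, (if pat G z v = {s} then (1:ℝ) else 0) = ((sing G z s).card : ℝ) := by
    intro s
    unfold sing
    rw [Finset.card_filter]
    push_cast
    rfl
  have e4 : ∑ v : V, (if pat G z v = {-1} then (16:ℝ) else 0) = 16 * ((sing G z (-1)).card : ℝ) := by
    rw [← e3, Finset.mul_sum]
    apply Finset.sum_congr rfl
    intro v _
    split_ifs <;> norm_num
  have e5 : ∑ v : V, (if ¬ IsTw (pat G z v) ∧ (pat G z v ∩ P).card ≤ 2 ∧
      (0 ∈ pat G z v ∨ 1 ∈ pat G z v) then (17:ℝ) else 0) =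
      17 * (((Xs G z P 0).card : ℝ) + ((Xs G z P 1).card : ℝ)) := by
    unfold Xs
    rw [Finset.card_filter, Finset.card_filter]
    push_cast
    rw [← Finset.sum_add_distrib, Finset.mul_sum]
    apply Finset.sum_congr rfl
    intro v _
    have hS := hz.indep_pat hG v
    by_cases h0 : (0 : ZMod k) ∈ pat G z v
    · have h1 : (1 : ZMod k) ∉ pat G z v := by
        have := hS 0 h0
        rwa [zero_add] at this
      by_cases h2 : ¬ IsTw (pat G z v) ∧ (pat G z v ∩ P).card ≤ 2
      · rw [if_pos ⟨h2.1, h2.2, Or.inl h0⟩, if_pos ⟨h2.1, h2.2, h0⟩, if_neg (fun h => h1 h.2.2)]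
        norm_num
      · rw [if_neg (fun h => h2 ⟨h.1, h.2.1⟩), if_neg (fun h => h2 ⟨h.1, h.2.1⟩),
          if_neg (fun h => h2 ⟨h.1, h.2.1⟩)]
        norm_num
    · by_cases h1 : (1 : ZMod k) ∈ pat G z v
      · by_cases h2 : ¬ IsTw (pat G z v) ∧ (pat G z v ∩ P).card ≤ 2
        · rw [if_pos ⟨h2.1, h2.2, Or.inr h1⟩, if_neg (fun h => h0 h.2.2), if_pos ⟨h2.1, h2.2, h1⟩]
          norm_num
        · rw [if_neg (fun h => h2 ⟨h.1, h.2.1⟩), if_neg (fun h => h2 ⟨h.1, h.2.1⟩),
            if_neg (fun h => h2 ⟨h.1, h.2.1⟩)]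
          norm_num
      · rw [if_neg (fun h => (not_or.2 ⟨h0, h1⟩) h.2.2), if_neg (fun h => h0 h.2.2),
          if_neg (fun h => h1 h.2.2)]
        norm_num
  rw [e1, e2, e3, e3, e4, e5]

theorem clone_card_pos {G : SimpleGraph V} {z : ZMod k → V} (hz : IsCyc G z) (j : ZMod k) :
    (0:ℝ) < ((clone G z j).card : ℝ) := by
  exact_mod_cast Finset.card_pos.2 ⟨z j, self_mem_clone hz j⟩

theorem Nn_eq {G : SimpleGraph V} {z : ZMod k → V} (hz : IsCyc G z) (j t : ZMod k) :
    (Nn G z j t : ℝ) = zeta G z j t * ((clone G z j).card : ℝ) * nu V k := by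
  have hν : 0 < nu V k := nu_pos (z := z)
  have h1 := clone_card_pos hz j
  unfold Nn zeta
  rw [← Finset.sum_div, div_mul_cancel₀ _ h1.ne', div_mul_cancel₀ _ hν.ne']
  push_cast
  rfl

theorem zeta_nonneg {G : SimpleGraph V} {z : ZMod k → V} (j t : ZMod k) :
    0 ≤ zeta G z j t := by
  have hν : 0 < nu V k := nu_pos (z := z)
  unfold zeta
  apply div_nonneg _ (by positivity)
  apply Finset.sum_nonneg
  intro x _
  positivity

/-- pure real inequality behind the pair step -/
theorem pair_real {ν a b c0 c1 X Y za zb zc Q : ℝ} (hν : 0 < ν) (ha0 : 0 < a) (hb0 : 0 < b)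
    (hc00 : 0 < c0) (hc10 : 0 < c1) (hX0 : 0 ≤ X) (hY0 : 0 ≤ Y) (hza0 : 0 ≤ za) (hzb0 : 0 ≤ zb)
    (hzc0 : 0 ≤ zc) (hQpos : 0 < Q)
    (hcardR : Q ≤ (a + X) * (b + Y) + za * a * ν + X * c0 + zb * b * ν
      + c1 * Y + zc * c1 * ν) :
    Real.log Q ≤
      2 * (Real.log ν - 1) + (a + b + 17 * (X + Y)) / ν
      + za + zb + 16 * zc + phi (c0 / ν) / 2 + phi (c1 / ν) / 2 := by
  have hmain := pair_ineq (ρ := a / ν + X / ν + zb) (ρ' := b / ν + Y / ν + za)
    (y0 := c0 / ν) (y1 := c1 / ν) (F0 := X / ν) (F1 := zc + Y / ν) (Q := Q / ν ^ 2)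
    (by positivity) (by positivity) (by positivity) (by positivity) (by positivity) (by positivity)
    (by positivity) (by
      rw [div_le_iff₀ (by positivity)]
      have e : ((a / ν + X / ν + zb) * (b / ν + Y / ν + za) + c0 / ν * (X / ν)
          + c1 / ν * (zc + Y / ν)) * ν ^ 2 =
          (a + X) * (b + Y) + za * a * ν + X * c0 + zb * b * ν
          + c1 * Y + zc * c1 * ν + za * X * ν + zb * Y * ν + zb * za * ν ^ 2 := by
        field_simp
        ring
      rw [e]
      have p1 : 0 ≤ za * X * ν := by positivity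
      have p2 : 0 ≤ zb * Y * ν := by positivity
      have p3 : 0 ≤ zb * za * ν ^ 2 := by positivity
      linarith)
  have hlog : Real.log (Q / ν ^ 2) = Real.log Q - 2 * Real.log ν := by
    rw [Real.log_div hQpos.ne' (by positivity), Real.log_pow]
    push_cast; ring
  rw [hlog] at hmain
  have e2 : (a + b + 17 * (X + Y)) / ν = a / ν + b / ν + 17 * (X / ν) + 17 * (Y / ν) := by
    field_simp
    ring
  rw [e2]
  linarith

/-- pointwise bound for the pair step -/
theorem pair_pointwise (hk : 5 ≤ k) {G : SimpleGraph V} {z : ZMod k → V}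
    (hz : IsCyc G z) (P : Finset (ZMod k)) :
    Real.log ((prs G (P.image z) (z 0) (z 1)).card : ℝ) ≤
      2 * (Real.log (nu V k) - 1) + (((clone G z (-1)).card : ℝ) + ((clone G z 2).card : ℝ)
      + 17 * (((Xs G z P 0).card : ℝ) + ((Xs G z P 1).card : ℝ))) / nu V k
      + zeta G z (-1) 0 + zeta G z 2 1 + 16 * zeta G z 1 0
      + phi (yy G z 0) / 2 + phi (yy G z 1) / 2 := by
  have hν : 0 < nu V k := nu_pos (z := z)
  have hcard := prs_card hk hz P
  have hQpos : (0:ℝ) < ((prs G (P.image z) (z 0) (z 1)).card : ℝ) := by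
    exact_mod_cast Finset.card_pos.2 ⟨_, mem_prs_self hk hz P⟩
  have hcardR : (((prs G (P.image z) (z 0) (z 1)).card : ℕ) : ℝ) ≤
      ((((clone G z (-1)).card + (Xs G z P 0).card) * ((clone G z 2).card + (Xs G z P 1).card)
      + Nn G z (-1) 0 + (Xs G z P 0).card * (clone G z 0).card + Nn G z 2 1
      + (clone G z 1).card * (Xs G z P 1).card + Nn G z 1 0 : ℕ) : ℝ) := by exact_mod_cast hcard
  push_cast at hcardR
  rw [Nn_eq hz, Nn_eq hz, Nn_eq hz] at hcardR
  exact pair_real hν (clone_card_pos hz (-1)) (clone_card_pos hz 2) (clone_card_pos hz 0)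
    (clone_card_pos hz 1) (by positivity) (by positivity) (zeta_nonneg _ _) (zeta_nonneg _ _)
    (zeta_nonneg _ _) hQpos hcardR

/-- The linear bound for the pair step (summed over all labelled cycles). -/
theorem pair_bound (hk : 5 ≤ k) {G : SimpleGraph V} (hG : G.CliqueFree 3) (P : Finset (ZMod k)) :
    ∑ z ∈ cyc G k, Real.log ((prs G (P.image z) (z 0) (z 1)).card : ℝ) ≤
      ∑ z ∈ cyc G k, (2 * (Real.log (nu V k) - 1) + (∑ v : V, cpair (pat G z v) P) / nu V k)
      + ∑ z ∈ cyc G k, phi (yy G z 0) := by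
  have h1 : ∑ z ∈ cyc G k, Real.log ((prs G (P.image z) (z 0) (z 1)).card : ℝ) ≤
    ∑ z ∈ cyc G k, (2 * (Real.log (nu V k) - 1) + (((clone G z (-1)).card : ℝ) + ((clone G z 2).card : ℝ)
      + 17 * (((Xs G z P 0).card : ℝ) + ((Xs G z P 1).card : ℝ))) / nu V k
      + zeta G z (-1) 0 + zeta G z 2 1 + 16 * zeta G z 1 0
      + phi (yy G z 0) / 2 + phi (yy G z 1) / 2) := by
    apply Finset.sum_le_sum
    intro z hz
    rw [mem_cyc] at hz
    exact pair_pointwise hk hz P
  refine h1.trans ?_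
  rw [Finset.sum_add_distrib, Finset.sum_add_distrib, Finset.sum_add_distrib,
    Finset.sum_add_distrib, Finset.sum_add_distrib, ← Finset.mul_sum, ← Finset.sum_div,
    ← Finset.sum_div, sum_phi_rot G 1]
  have z1 := sum_zeta hk hG (j := -1) (t := 0) (s := 1)
    (by rw [zero_sub, zero_add]) (fun h => ne0_2 hk (by linear_combination h))
  have z2 := sum_zeta hk hG (j := 2) (t := 1) (s := 0)
    (by rw [sub_self, Finset.pair_comm]; congr 1; ring) (fun h => ne0_2 hk (by linear_combination -h))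
  have z3 := sum_zeta hk hG (j := 1) (t := 0) (s := -1)
    (by rw [zero_sub, zero_add, Finset.pair_comm]) (fun h => ne0_2 hk (by linear_combination -h))
  have h2 : ∑ z ∈ cyc G k, (2 * (Real.log (nu V k) - 1) + (∑ v : V, cpair (pat G z v) P) / nu V k) =
      ∑ z ∈ cyc G k, (2 * (Real.log (nu V k) - 1) + (((clone G z (-1)).card : ℝ) + ((clone G z 2).card : ℝ)
      + 17 * (((Xs G z P 0).card : ℝ) + ((Xs G z P 1).card : ℝ))) / nu V k)
      + ∑ z ∈ cyc G k, ((sing G z 1).card : ℝ) / nu V k
      + ∑ z ∈ cyc G k, ((sing G z 0).card : ℝ) / nu V k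
      + 16 * ∑ z ∈ cyc G k, ((sing G z (-1)).card : ℝ) / nu V k := by
    rw [Finset.mul_sum, ← Finset.sum_add_distrib, ← Finset.sum_add_distrib, ← Finset.sum_add_distrib]
    apply Finset.sum_congr rfl
    intro z hz
    rw [mem_cyc] at hz
    rw [sum_cpair hk hG hz P]
    ring
  rw [h2]
  linarith

end

end Pool.Agent.TH467
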