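import Pool.Agent.TH467.LinC
import Pool.Agent.TH467.Edge

set_option autoImplicit false
set_option linter.unusedSectionVars false

open Finset

namespace Pool.Agent.TH467

noncomputable section
open Classical

variable {V : Type} [Fintype V] {k : ℕ} [NeZero k]

theorem card_emp {G : SimpleGraph V} {z : ZMod k → V} (P : Finset (ZMod k)) :
    ((emp G (P.image z)).card : ℝ) = ∑ v : V, (if pat G z v ∩ P = ∅ then (1:ℝ) else 0) := by
  unfold emp
  rw [Finset.card_filter]
  push_cast
  apply Finset.sum_congr rfl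
  intro v _
  have : nb G v (P.image z) = ∅ ↔ pat G z v ∩ P = ∅ := by
    rw [nb_image, Finset.image_eq_empty]
  by_cases h : pat G z v ∩ P = ∅
  · rw [if_pos h, if_pos (this.2 h)]
  · rw [if_neg h, if_neg (fun h' => h (this.1 h'))]

theorem card_nbd (hk : 5 ≤ k) {G : SimpleGraph V} {z : ZMod k → V} (hz : IsCyc G z)
    (P : Finset (ZMod k)) (w : ZMod k) :
    ((nbd G ((insert w P).image z) (z w)).card : ℝ) / 2 =
      ∑ v : V, (if w ∈ pat G z v ∧ (pat G z v ∩ insert w P).card ≤ 2 then (1/2:ℝ) else 0) := by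
  unfold nbd
  rw [Finset.card_filter]
  push_cast
  rw [Finset.sum_div]
  apply Finset.sum_congr rfl
  intro v _
  rw [card_nb_image (hz.inj hk)]
  by_cases h : w ∈ pat G z v ∧ (pat G z v ∩ insert w P).card ≤ 2
  · rw [if_pos h, if_pos ⟨mem_pat.1 h.1, h.2⟩]
  · rw [if_neg h, if_neg (fun h' => h ⟨mem_pat.2 h'.1, h'.2⟩)]
    norm_num

/-- self membership -/
theorem emp_pos (hk : 5 ≤ k) {G : SimpleGraph V} {z : ZMod k → V} (hz : IsCyc G z)
    {P : Finset (ZMod k)} {w : ZMod k} (hw : w ∈ Av P) : z w ∈ emp G (P.image z) := by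
  unfold emp
  rw [Finset.mem_filter]
  refine ⟨Finset.mem_univ _, ?_⟩
  rw [nb_image, Finset.image_eq_empty, hz.pat_self]
  rw [mem_Av] at hw
  ext y
  simp only [Finset.mem_inter, Finset.mem_insert, Finset.mem_singleton, Finset.notMem_empty,
    iff_false]
  rintro ⟨hy | hy, hyP⟩
  · rw [hy] at hyP; exact hw.2.2 hyP
  · rw [hy] at hyP; exact hw.2.1 hyP

theorem nbd_pos (hk : 5 ≤ k) {G : SimpleGraph V} {z : ZMod k → V} (hz : IsCyc G z)
    (P : Finset (ZMod k)) (w : ZMod k) : z (w + 1) ∈ nbd G ((insert w P).image z) (z w) := by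
  unfold nbd
  rw [Finset.mem_filter]
  refine ⟨Finset.mem_univ _, (hz.adj_succ w).symm, ?_⟩
  rw [card_nb_image (hz.inj hk), hz.pat_self]
  exact (Finset.card_le_card Finset.inter_subset_left).trans Finset.card_le_two

/-- target bound, pointwise in `z` -/
def rr (G : SimpleGraph V) (i : ℕ) (P : Finset (ZMod k)) (z : ZMod k → V) : ℝ :=
  ((k : ℝ) - (P.card : ℝ)) * (Real.log (nu V k) - 1) + (∑ v : V, c1 i (pat G z v) P) / nu V k

theorem rr_succ (hk : 5 ≤ k) {G : SimpleGraph V} {z : ZMod k → V} (hz : IsCyc G z) (i : ℕ)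
    (P : Finset (ZMod k)) (hM : 0 < (Av P).card) :
    rr G (i+1) P z = ((Real.log (nu V k) - 1) + (((emp G (P.image z)).card : ℝ) / ((Av P).card : ℝ)) / nu V k)
      + (∑ w ∈ Av P, (((Real.log (nu V k) - 1) + (((nbd G ((insert w P).image z) (z w)).card : ℝ) / 2) / nu V k)
        + (rr G i (insert (w+1) (insert w P)) z + rr G i (insert (w-1) (insert w P)) z) / 2))
        / ((Av P).card : ℝ) := by
  set M : ℝ := ((Av P).card : ℝ) with hMdef
  have hMpos : 0 < M := by rw [hMdef]; exact_mod_cast hM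
  have hν : 0 < nu V k := nu_pos (z := z)
  set ν := nu V k with hνdef
  set lg := Real.log ν - 1 with hlg
  have hcard : ∀ w ∈ Av P, ((insert (w+1) (insert w P)).card : ℝ) = (P.card : ℝ) + 2 ∧
      ((insert (w-1) (insert w P)).card : ℝ) = (P.card : ℝ) + 2 := by
    intro w hw
    rw [mem_Av] at hw
    constructor
    · rw [Finset.card_insert_of_notMem, Finset.card_insert_of_notMem hw.1]
      · push_cast; ring
      · rw [Finset.mem_insert, not_or]
        exact ⟨fun h => ne0_1 hk (by linear_combination h), hw.2.1⟩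
    · rw [Finset.card_insert_of_notMem, Finset.card_insert_of_notMem hw.1]
      · push_cast; ring
      · rw [Finset.mem_insert, not_or]
        exact ⟨fun h => ne0_1 hk (by linear_combination -h), hw.2.2⟩
  have h1 : ∑ w ∈ Av P, ((lg + (((nbd G ((insert w P).image z) (z w)).card : ℝ) / 2) / ν)
        + (rr G i (insert (w+1) (insert w P)) z + rr G i (insert (w-1) (insert w P)) z) / 2) =
      M * (lg + ((k : ℝ) - (P.card : ℝ) - 2) * lg) +
      (∑ v : V, ∑ w ∈ Av P, (if w ∈ pat G z v ∧ (pat G z v ∩ insert w P).card ≤ 2 then (1/2:ℝ) else 0)) / ν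
      + (∑ v : V, ∑ w ∈ Av P, (c1 i (pat G z v) (insert (w+1) (insert w P))
        + c1 i (pat G z v) (insert (w-1) (insert w P)))) / ν / 2 := by
    rw [Finset.sum_comm, Finset.sum_comm (s := Finset.univ) (t := Av P)
      (f := fun v w => c1 i (pat G z v) (insert (w+1) (insert w P))
        + c1 i (pat G z v) (insert (w-1) (insert w P)))]
    have e0 : M * (lg + ((k : ℝ) - (P.card : ℝ) - 2) * lg) =
        ∑ w ∈ Av P, (lg + ((k : ℝ) - (P.card : ℝ) - 2) * lg) := by
      rw [Finset.sum_const, nsmul_eq_mul, hMdef]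
    rw [e0, Finset.sum_div, Finset.sum_div, Finset.sum_div, ← Finset.sum_add_distrib,
      ← Finset.sum_add_distrib]
    apply Finset.sum_congr rfl
    intro w hw
    rw [card_nbd hk hz P w]
    unfold rr
    rw [(hcard w hw).1, (hcard w hw).2, Finset.sum_add_distrib]
    ring
  rw [h1, card_emp]
  unfold rr
  rw [← hνdef, ← hlg]
  have h2 : ∑ v : V, c1 (i+1) (pat G z v) P =
      (∑ v : V, (if pat G z v ∩ P = ∅ then (1:ℝ) else 0)) / M
      + (∑ v : V, ∑ w ∈ Av P, (if w ∈ pat G z v ∧ (pat G z v ∩ insert w P).card ≤ 2 then (1/2:ℝ) else 0)) / M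
      + (∑ v : V, ∑ w ∈ Av P, (c1 i (pat G z v) (insert (w+1) (insert w P))
        + c1 i (pat G z v) (insert (w-1) (insert w P)))) / (2 * M) := by
    rw [Finset.sum_div, Finset.sum_div, Finset.sum_div, ← Finset.sum_add_distrib,
      ← Finset.sum_add_distrib]
    apply Finset.sum_congr rfl
    intro v _
    rw [c1]
  rw [h2]
  field_simp
  ring

theorem L10_bound (hk : 5 ≤ k) {G : SimpleGraph V} (hG : G.CliqueFree 3) (P : Finset (ZMod k))
    (h0 : (0 : ZMod k) ∈ P) (h1 : (1 : ZMod k) ∈ P) (hP : P.card + 3 ≤ k) :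
    ∑ z ∈ cyc G k, L10 G P z ≤ ∑ z ∈ cyc G k, rr G 0 P z := by
  have hphi : 0 ≤ ∑ z ∈ cyc G k, phi (yy G z 0) := by
    apply Finset.sum_nonneg
    intro z hz
    rw [mem_cyc] at hz
    exact phi_nonneg (yy_pos hz 0)
  by_cases h2 : (-1 : ZMod k) ∈ P ∨ (2 : ZMod k) ∈ P
  · obtain ⟨m, hm⟩ : ∃ m, k - P.card = m + 1 := ⟨k - P.card - 1, by omega⟩
    have hb := L3_bound hk hG m P (by omega) h0 h1
    have e1 : ∑ z ∈ cyc G k, L10 G P z = ∑ z ∈ cyc G k, L3 G (m+1) P z := by
      apply Finset.sum_congr rfl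
      intro z _
      unfold L10
      rw [if_pos h2, hm]
    rw [e1]
    refine (hb.trans (sub_le_self _ hphi)).trans (le_of_eq ?_)
    apply Finset.sum_congr rfl
    intro z _
    unfold rr
    have e2 : ((m + 1 : ℕ) : ℝ) = (k : ℝ) - (P.card : ℝ) := by
      rw [← hm, Nat.cast_sub (by omega)]
    have e3 : ∑ v : V, c3 (m+1) (pat G z v) P = ∑ v : V, c1 0 (pat G z v) P := by
      apply Finset.sum_congr rfl
      intro v _
      simp only [c1]
      unfold c10
      rw [if_pos h2, hm]
    rw [e2, e3]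
  · obtain ⟨m, hm⟩ : ∃ m, k - P.card - 2 = m + 1 := ⟨k - P.card - 3, by omega⟩
    have hc := card_two_more hk h2
    have hb := L3_bound hk hG m (insert (-1) (insert 2 P)) (by omega) (by simp [h0]) (by simp [h1])
    have hb2 := pair_bound hk hG P
    have e1 : ∑ z ∈ cyc G k, L10 G P z =
        ∑ z ∈ cyc G k, Real.log ((prs G (P.image z) (z 0) (z 1)).card : ℝ) +
        ∑ z ∈ cyc G k, L3 G (m+1) (insert (-1) (insert 2 P)) z := by
      rw [← Finset.sum_add_distrib]
      apply Finset.sum_congr rfl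
      intro z _
      unfold L10
      rw [if_neg h2, hm]
    rw [e1]
    have e4 : ∑ z ∈ cyc G k, rr G 0 P z =
      ∑ z ∈ cyc G k, (2 * (Real.log (nu V k) - 1) + (∑ v : V, cpair (pat G z v) P) / nu V k) +
      ∑ z ∈ cyc G k, (((m + 1 : ℕ) : ℝ) * (Real.log (nu V k) - 1)
        + (∑ v : V, c3 (m+1) (pat G z v) (insert (-1) (insert 2 P))) / nu V k) := by
      rw [← Finset.sum_add_distrib]
      apply Finset.sum_congr rfl
      intro z _
      unfold rr
      have e2 : ((m + 1 : ℕ) : ℝ) = (k : ℝ) - (P.card : ℝ) - 2 := by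
        rw [← hm, Nat.cast_sub (by omega), Nat.cast_sub (by omega)]
        norm_num
      have e3 : ∑ v : V, c1 0 (pat G z v) P = ∑ v : V, cpair (pat G z v) P +
          ∑ v : V, c3 (m+1) (pat G z v) (insert (-1) (insert 2 P)) := by
        rw [← Finset.sum_add_distrib]
        apply Finset.sum_congr rfl
        intro v _
        simp only [c1]
        unfold c10
        rw [if_neg h2, hm]
      rw [e2, e3]
      ring
    rw [e4]
    linarith

theorem L1_bound (hk : 5 ≤ k) {G : SimpleGraph V} (hG : G.CliqueFree 3) (i : ℕ) :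
    ∀ P : Finset (ZMod k), (0 : ZMod k) ∈ P → (1 : ZMod k) ∈ P → 3 * (P.card + 2 * i) + 3 ≤ k →
    ∑ z ∈ cyc G k, L1 G i P z ≤ ∑ z ∈ cyc G k, rr G i P z := by
  induction i with
  | zero =>
    intro P h0 h1 hP
    simp only [L1]
    exact L10_bound hk hG P h0 h1 (by omega)
  | succ i ih =>
    intro P h0 h1 hP
    have hMn : 0 < (Av P).card := by
      have := card_Av_ge P
      omega
    set M : ℝ := ((Av P).card : ℝ) with hMdef
    have hMpos : 0 < M := by rw [hMdef]; exact_mod_cast hMn
    obtain ⟨w₀, hw₀⟩ := Finset.card_pos.1 hMn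
    have hcard : ∀ w ∈ Av P, ((insert (w+1) (insert w P)).card) = P.card + 2 ∧
        ((insert (w-1) (insert w P)).card) = P.card + 2 := by
      intro w hw
      rw [mem_Av] at hw
      constructor
      · rw [Finset.card_insert_of_notMem, Finset.card_insert_of_notMem hw.1]
        rw [Finset.mem_insert, not_or]
        exact ⟨fun h => ne0_1 hk (by linear_combination h), hw.2.1⟩
      · rw [Finset.card_insert_of_notMem, Finset.card_insert_of_notMem hw.1]
        rw [Finset.mem_insert, not_or]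
        exact ⟨fun h => ne0_1 hk (by linear_combination -h), hw.2.2⟩
    -- expand both sides
    have hL : ∑ z ∈ cyc G k, L1 G (i+1) P z =
        ∑ z ∈ cyc G k, (Real.log ((emp G (P.image z)).card : ℝ) - Real.log M) +
        (∑ w ∈ Av P, (∑ z ∈ cyc G k, (Real.log ((nbd G ((insert w P).image z) (z w)).card : ℝ) - Real.log 2)
          + (∑ z ∈ cyc G k, L1 G i (insert (w+1) (insert w P)) z
            + ∑ z ∈ cyc G k, L1 G i (insert (w-1) (insert w P)) z) / 2)) / M := by
      simp only [← Finset.sum_add_distrib, Finset.sum_div]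
      rw [Finset.sum_comm, ← Finset.sum_add_distrib]
      apply Finset.sum_congr rfl
      intro z _
      simp only [L1]
      rw [← hMdef, Finset.sum_div]
    have hR : ∑ z ∈ cyc G k, rr G (i+1) P z =
        ∑ z ∈ cyc G k, ((Real.log (nu V k) - 1) + (((emp G (P.image z)).card : ℝ) / M) / nu V k) +
        (∑ w ∈ Av P, (∑ z ∈ cyc G k, ((Real.log (nu V k) - 1) +
            (((nbd G ((insert w P).image z) (z w)).card : ℝ) / 2) / nu V k)
          + (∑ z ∈ cyc G k, rr G i (insert (w+1) (insert w P)) z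
            + ∑ z ∈ cyc G k, rr G i (insert (w-1) (insert w P)) z) / 2)) / M := by
      simp only [← Finset.sum_add_distrib, Finset.sum_div]
      rw [Finset.sum_comm (s := Av P), ← Finset.sum_add_distrib]
      apply Finset.sum_congr rfl
      intro z hz
      rw [mem_cyc] at hz
      rw [rr_succ hk hz i P hMn, ← hMdef, Finset.sum_div]
    rw [hL, hR]
    apply add_le_add
    · apply Finset.sum_le_sum
      intro z hz
      rw [mem_cyc] at hz
      have hν : 0 < nu V k := nu_pos (z := z)
      refine log_lin ?_ hMpos hν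
      exact_mod_cast Finset.card_pos.2 ⟨_, emp_pos hk hz hw₀⟩
    · apply div_le_div_of_nonneg_right _ hMpos.le
      apply Finset.sum_le_sum
      intro w hw
      have a1 := ih (insert (w+1) (insert w P)) (by simp [h0]) (by simp [h1])
        (by rw [(hcard w hw).1]; omega)
      have a2 := ih (insert (w-1) (insert w P)) (by simp [h0]) (by simp [h1])
        (by rw [(hcard w hw).2]; omega)
      have a3 : ∑ z ∈ cyc G k, (Real.log ((nbd G ((insert w P).image z) (z w)).card : ℝ) - Real.log 2) ≤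
        ∑ z ∈ cyc G k, ((Real.log (nu V k) - 1) +
            (((nbd G ((insert w P).image z) (z w)).card : ℝ) / 2) / nu V k) := by
        apply Finset.sum_le_sum
        intro z hz
        rw [mem_cyc] at hz
        have hν : 0 < nu V k := nu_pos (z := z)
        refine log_lin ?_ (by norm_num) hν
        exact_mod_cast Finset.card_pos.2 ⟨_, nbd_pos hk hz P w⟩
      linarith

end

end Pool.Agent.TH467
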