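import Pool.Agent.TH467.Defs

set_option autoImplicit false
set_option linter.unusedSectionVars false

open Finset

namespace Pool.Agent.TH467

noncomputable section
open Classical

variable {V : Type} [Fintype V] {k : ℕ} [NeZero k]

/-- neighbours of `v` inside `Q` -/
def nb (G : SimpleGraph V) (v : V) (Q : Finset V) : Finset V := Q.filter (fun u => G.Adj v u)

/-- weight of a vertex in a scanning step -/
def wG (G : SimpleGraph V) (Q : Finset V) (r b v : V) : ℝ :=
  if nb G v Q = {r} then 1 else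
  if ∃ e, e ≠ r ∧ e ≠ b ∧ nb G v Q = {r, e} ∧ (nb G e Q).card ≤ 1 then 7/10 else 0

/-- admissible vertices in the closing step -/
def clo (G : SimpleGraph V) (Q : Finset V) (r b : V) : Finset V :=
  Finset.univ.filter (fun v => nb G v Q = {r, b})

/-- scanning code length -/
def L3 (G : SimpleGraph V) : ℕ → Finset (ZMod k) → (ZMod k → V) → ℝ
  | 0, _, _ => 0
  | 1, P, z => Real.log ((clo G (P.image z) (z (qq P - 1)) (z (bb P))).card : ℝ)
  | (m+2), P, z => Real.log (∑ v : V, wG G (P.image z) (z (qq P - 1)) (z (bb P)) v)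
      - Real.log (om P) + L3 G (m+1) (insert (qq P) P) z

/-- admissible pairs in the pair step -/
def prs (G : SimpleGraph V) (Q : Finset V) (a b : V) : Finset (V × V) :=
  Finset.univ.filter (fun p => G.Adj p.1 a ∧ G.Adj p.2 b ∧ ¬ G.Adj p.1 p.2 ∧
    (nb G p.1 Q).card ≤ 2 ∧ (nb G p.2 Q).card ≤ 2)

def L10 (G : SimpleGraph V) (P : Finset (ZMod k)) (z : ZMod k → V) : ℝ :=
  if -1 ∈ P ∨ 2 ∈ P then L3 G (k - P.card) P z
  else Real.log ((prs G (P.image z) (z 0) (z 1)).card : ℝ)
    + L3 G (k - P.card - 2) (insert (-1) (insert 2 P)) z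

/-- vertices with no neighbour in `Q` -/
def emp (G : SimpleGraph V) (Q : Finset V) : Finset V :=
  Finset.univ.filter (fun v => nb G v Q = ∅)

/-- neighbours of `u` with at most two neighbours in `Q` -/
def nbd (G : SimpleGraph V) (Q : Finset V) (u : V) : Finset V :=
  Finset.univ.filter (fun v => G.Adj v u ∧ (nb G v Q).card ≤ 2)

def L1 (G : SimpleGraph V) : ℕ → Finset (ZMod k) → (ZMod k → V) → ℝ
  | 0, P, z => L10 G P z
  | (i+1), P, z => Real.log ((emp G (P.image z)).card : ℝ) - Real.log ((Av P).card : ℝ)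
      + (∑ w ∈ Av P, (Real.log ((nbd G ((insert w P).image z) (z w)).card : ℝ) - Real.log 2
          + (L1 G i (insert (w+1) (insert w P)) z + L1 G i (insert (w-1) (insert w P)) z) / 2))
        / ((Av P).card : ℝ)

/-- The normalised size. -/
def nu (V : Type) [Fintype V] (k : ℕ) : ℝ := (Fintype.card V : ℝ) / (k : ℝ)

/-- clones of `z j` -/
def clone (G : SimpleGraph V) (z : ZMod k → V) (j : ZMod k) : Finset V :=
  Finset.univ.filter (fun v => pat G z v = {j - 1, j + 1})

/-- labelled cycles through `Q` with prescribed values at positions `0` and `1` -/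
def zs (G : SimpleGraph V) (k : ℕ) [NeZero k] (a b : V) (Q : Finset V) :
    Finset (ZMod k → V) :=
  (cyc G k).filter (fun z => z 0 = a ∧ z 1 = b ∧ Q ⊆ Finset.univ.image z)

/-- the positions of `z` whose vertices lie in `Q` -/
def Pz (z : ZMod k → V) (Q : Finset V) : Finset (ZMod k) := Finset.univ.filter (fun i => z i ∈ Q)

/-! ### basic facts -/

theorem mem_zs {G : SimpleGraph V} {a b : V} {Q : Finset V} {z : ZMod k → V} :
    z ∈ zs G k a b Q ↔ IsCyc G z ∧ z 0 = a ∧ z 1 = b ∧ ∀ u ∈ Q, ∃ i, z i = u := by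
  unfold zs
  rw [Finset.mem_filter, mem_cyc]
  constructor
  · rintro ⟨h1, h2, h3, h4⟩
    refine ⟨h1, h2, h3, fun u hu => ?_⟩
    have := h4 hu
    rw [Finset.mem_image] at this
    obtain ⟨i, -, hi⟩ := this
    exact ⟨i, hi⟩
  · rintro ⟨h1, h2, h3, h4⟩
    refine ⟨h1, h2, h3, fun u hu => ?_⟩
    obtain ⟨i, hi⟩ := h4 u hu
    exact Finset.mem_image.2 ⟨i, Finset.mem_univ i, hi⟩

theorem mem_Pz {z : ZMod k → V} {Q : Finset V} {i : ZMod k} : i ∈ Pz z Q ↔ z i ∈ Q := by
  simp [Pz]

theorem image_Pz {z : ZMod k → V} {Q : Finset V} (h : ∀ u ∈ Q, ∃ i, z i = u) :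
    (Pz z Q).image z = Q := by
  ext u
  rw [Finset.mem_image]
  constructor
  · rintro ⟨i, hi, rfl⟩; exact mem_Pz.1 hi
  · intro hu
    obtain ⟨i, rfl⟩ := h u hu
    exact ⟨i, mem_Pz.2 hu, rfl⟩

theorem card_Pz {z : ZMod k → V} (hz : Function.Injective z) {Q : Finset V}
    (h : ∀ u ∈ Q, ∃ i, z i = u) : (Pz z Q).card = Q.card := by
  conv_rhs => rw [← image_Pz h]
  rw [Finset.card_image_of_injective _ hz]

theorem Pz_insert {z : ZMod k → V} (hz : Function.Injective z) (Q : Finset V) (i : ZMod k) :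
    Pz z (insert (z i) Q) = insert i (Pz z Q) := by
  ext j
  rw [mem_Pz, Finset.mem_insert, Finset.mem_insert, mem_Pz, hz.eq_iff]

theorem mem_nb {G : SimpleGraph V} {v u : V} {Q : Finset V} :
    u ∈ nb G v Q ↔ u ∈ Q ∧ G.Adj v u := by simp [nb]

theorem nb_image {G : SimpleGraph V} {z : ZMod k → V} (v : V) (P : Finset (ZMod k)) :
    nb G v (P.image z) = (pat G z v ∩ P).image z := by
  ext u
  rw [mem_nb, Finset.mem_image, Finset.mem_image]
  constructor
  · rintro ⟨⟨i, hi, rfl⟩, h⟩
    exact ⟨i, Finset.mem_inter.2 ⟨mem_pat.2 h, hi⟩, rfl⟩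
  · rintro ⟨i, hi, rfl⟩
    rw [Finset.mem_inter, mem_pat] at hi
    exact ⟨⟨i, hi.2, rfl⟩, hi.1⟩

theorem card_nb_image {G : SimpleGraph V} {z : ZMod k → V} (hz : Function.Injective z) (v : V)
    (P : Finset (ZMod k)) : (nb G v (P.image z)).card = (pat G z v ∩ P).card := by
  rw [nb_image, Finset.card_image_of_injective _ hz]

theorem image_eq_iff {z : ZMod k → V} (hz : Function.Injective z) (A B : Finset (ZMod k)) :
    A.image z = B.image z ↔ A = B := (Finset.image_injective hz).eq_iff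

theorem mem_clone {G : SimpleGraph V} {z : ZMod k → V} {j : ZMod k} {v : V} :
    v ∈ clone G z j ↔ pat G z v = {j - 1, j + 1} := by simp [clone]

theorem self_mem_clone {G : SimpleGraph V} {z : ZMod k → V} (hz : IsCyc G z) (j : ZMod k) :
    z j ∈ clone G z j := by
  rw [mem_clone]; exact hz.pat_self j

/-- weights in terms of positions -/
theorem wG_eq {G : SimpleGraph V} (hk : 5 ≤ k) {z : ZMod k → V} (hz : IsCyc G z)
    {P : Finset (ZMod k)} {v : V} :
    wG G (P.image z) (z (qq P - 1)) (z (bb P)) v = wt P (pat G z v ∩ P) := by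
  have hinj := hz.inj hk
  unfold wG wt
  have h1 : nb G v (P.image z) = {z (qq P - 1)} ↔ pat G z v ∩ P = {qq P - 1} := by
    rw [nb_image, ← image_eq_iff hinj, Finset.image_singleton]
  have h2 : (∃ e, e ≠ z (qq P - 1) ∧ e ≠ z (bb P) ∧ nb G v (P.image z) = {z (qq P - 1), e} ∧
      (nb G e (P.image z)).card ≤ 1) ↔ (∃ e, e ≠ qq P - 1 ∧ e ≠ bb P ∧
        pat G z v ∩ P = {qq P - 1, e} ∧ ¬ (e - 1 ∈ P ∧ e + 1 ∈ P)) := by
    have h3 : ∀ e : ZMod k, (nb G (z e) (P.image z)).card ≤ 1 ↔ ¬ (e - 1 ∈ P ∧ e + 1 ∈ P) := by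
      intro e
      rw [card_nb_image hinj, hz.pat_self]
      have hne : e - 1 ≠ e + 1 := fun h => ne0_2 hk (by linear_combination -h)
      constructor
      · rintro h ⟨h4, h5⟩
        have : ({e - 1, e + 1} : Finset (ZMod k)) ∩ P = {e - 1, e + 1} := by
          apply Finset.inter_eq_left.2
          intro y hy
          rw [Finset.mem_insert, Finset.mem_singleton] at hy
          rcases hy with hy | hy <;> rw [hy] <;> assumption
        rw [this, Finset.card_pair hne] at h
        omega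
      · intro h
        by_contra hcon
        apply h
        have h6 : ({e - 1, e + 1} : Finset (ZMod k)) ∩ P ⊆ {e - 1, e + 1} := Finset.inter_subset_left
        have h7 : ({e - 1, e + 1} : Finset (ZMod k)).card ≤ 2 := Finset.card_le_two
        have h8 := Finset.eq_of_subset_of_card_le h6 (by omega)
        constructor
        · have : e - 1 ∈ ({e - 1, e + 1} : Finset (ZMod k)) ∩ P := by rw [h8]; simp
          exact (Finset.mem_inter.1 this).2
        · have : e + 1 ∈ ({e - 1, e + 1} : Finset (ZMod k)) ∩ P := by rw [h8]; simp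
          exact (Finset.mem_inter.1 this).2
    constructor
    · rintro ⟨u, hu1, hu2, hu3, hu4⟩
      have hmem : u ∈ nb G v (P.image z) := by rw [hu3]; simp
      rw [mem_nb, Finset.mem_image] at hmem
      obtain ⟨⟨e, he, rfl⟩, -⟩ := hmem
      refine ⟨e, fun h => hu1 (by rw [h]), fun h => hu2 (by rw [h]), ?_, (h3 e).1 hu4⟩
      rw [← image_eq_iff hinj, ← nb_image, hu3, Finset.image_insert, Finset.image_singleton]
    · rintro ⟨e, he1, he2, he3, he4⟩
      refine ⟨z e, fun h => he1 (hinj h), fun h => he2 (hinj h), ?_, (h3 e).2 he4⟩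
      rw [nb_image, he3, Finset.image_insert, Finset.image_singleton]
  simp only [h1, h2]

end

end Pool.Agent.TH467
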