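import Pool.Agent.TH467.Edge

set_option autoImplicit false
set_option linter.unusedSectionVars false

open Finset

namespace Pool.Agent.TH467

noncomputable section
open Classical

variable {k : ℕ} [NeZero k]

/-- `S` avoids `-3, …, 3`. -/
def Good (S : Finset (ZMod k)) : Prop := ∀ j : ℤ, -3 ≤ j → j ≤ 3 → (j : ZMod k) ∉ S

theorem Good.m3 {S : Finset (ZMod k)} (h : Good S) : (-3 : ZMod k) ∉ S := by
  have := h (-3) (by norm_num) (by norm_num); push_cast at this; exact this
theorem Good.m2 {S : Finset (ZMod k)} (h : Good S) : (-2 : ZMod k) ∉ S := by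
  have := h (-2) (by norm_num) (by norm_num); push_cast at this; exact this
theorem Good.m1 {S : Finset (ZMod k)} (h : Good S) : (-1 : ZMod k) ∉ S := by
  have := h (-1) (by norm_num) (by norm_num); push_cast at this; exact this
theorem Good.p0 {S : Finset (ZMod k)} (h : Good S) : (0 : ZMod k) ∉ S := by
  have := h 0 (by norm_num) (by norm_num); push_cast at this; exact this
theorem Good.p1 {S : Finset (ZMod k)} (h : Good S) : (1 : ZMod k) ∉ S := by
  have := h 1 (by norm_num) (by norm_num); push_cast at this; exact this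
theorem Good.p2 {S : Finset (ZMod k)} (h : Good S) : (2 : ZMod k) ∉ S := by
  have := h 2 (by norm_num) (by norm_num); push_cast at this; exact this
theorem Good.p3 {S : Finset (ZMod k)} (h : Good S) : (3 : ZMod k) ∉ S := by
  have := h 3 (by norm_num) (by norm_num); push_cast at this; exact this

theorem card_le_k (P : Finset (ZMod k)) : P.card ≤ k := by
  have := Finset.card_le_univ P
  rwa [ZMod.card] at this

/-- base case for good patterns -/
theorem c10_good (hk : 5 ≤ k) {S : Finset (ZMod k)} {x : ZMod k} (hS : Indep S) (htw : ¬ IsTw S)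
    (hx : x ∈ S) (hmin : ∀ y ∈ S, x.val ≤ y.val) (hG : Good S) (P : Finset (ZMod k))
    (h0 : (0 : ZMod k) ∈ P) (h1 : (1 : ZMod k) ∈ P) : c10 S P ≤ uu x S P := by
  have hle := card_le_k P
  unfold c10
  split_ifs with h2
  · exact c3_le hk hS htw hx hmin _ P (by omega) h0 h1
  · have hc := card_two_more hk h2
    have hle2 := card_le_k (insert (-1 : ZMod k) (insert 2 P))
    have h3 := c3_le hk hS htw hx hmin (k - P.card - 2) (insert (-1) (insert 2 P)) (by omega)
      (by simp [h0]) (by simp [h1])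
    have e0 : cpair S P = 0 := by
      unfold cpair
      have a1 : S ≠ {-2, 0} := by intro h; exact hG.p0 (by rw [h]; simp)
      have a2 : S ≠ {1, 3} := by intro h; exact hG.p1 (by rw [h]; simp)
      have a3 : S ≠ {1} := by intro h; exact hG.p1 (by rw [h]; simp)
      have a4 : S ≠ {0} := by intro h; exact hG.p0 (by rw [h]; simp)
      have a5 : S ≠ {-1} := by intro h; exact hG.m1 (by rw [h]; simp)
      have a6 : ¬ (¬ IsTw S ∧ (S ∩ P).card ≤ 2 ∧ (0 ∈ S ∨ 1 ∈ S)) := by
        rintro ⟨-, -, h | h⟩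
        · exact hG.p0 h
        · exact hG.p1 h
      rw [if_neg a1, if_neg a2, if_neg a3, if_neg a4, if_neg a5, if_neg a6]; norm_num
    rw [e0, zero_add]
    refine h3.trans (le_of_eq ?_)
    unfold uu
    have b1 : S ∩ insert (-1) (insert 2 P) = S ∩ P := by
      ext y
      simp only [Finset.mem_inter, Finset.mem_insert]
      constructor
      · rintro ⟨hy, h | h | h⟩
        · exact absurd (h ▸ hy) hG.m1
        · exact absurd (h ▸ hy) hG.p2
        · exact ⟨hy, h⟩
      · rintro ⟨hy, h⟩; exact ⟨hy, Or.inr (Or.inr h)⟩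
    have b2 : x + 1 ∈ insert (-1 : ZMod k) (insert 2 P) ↔ x + 1 ∈ P := by
      simp only [Finset.mem_insert]
      constructor
      · rintro (h | h | h)
        · exfalso; apply hG.m2
          have : x = -2 := by linear_combination h
          rw [← this]; exact hx
        · exfalso; apply hG.p1
          have : x = 1 := by linear_combination h
          rw [← this]; exact hx
        · exact h
      · intro h; exact Or.inr (Or.inr h)
    have b3 : x + 2 ∈ insert (-1 : ZMod k) (insert 2 P) ↔ x + 2 ∈ P := by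
      simp only [Finset.mem_insert]
      constructor
      · rintro (h | h | h)
        · exfalso; apply hG.m3
          have : x = -3 := by linear_combination h
          rw [← this]; exact hx
        · exfalso; apply hG.p0
          have : x = 0 := by linear_combination h
          rw [← this]; exact hx
        · exact h
      · intro h; exact Or.inr (Or.inr h)
    rw [b1]
    simp only [b2, b3]

theorem uu_mono {x : ZMod k} {S P P' : Finset (ZMod k)} (h : P ⊆ P') :
    uu x S P' ≤ uu x S P + (if x + 2 ∈ P' ∧ x + 2 ∉ P then 3/7 else 0) := by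
  unfold uu
  have hg : gg ((S ∩ P').erase x).card ≤ gg ((S ∩ P).erase x).card := by
    apply gg_anti
    apply Finset.card_le_card
    intro y hy
    rw [Finset.mem_erase, Finset.mem_inter] at hy ⊢
    exact ⟨hy.1, hy.2.1, h hy.2.2⟩
  have h1 := gg_nonneg ((S ∩ P').erase x).card
  have h2 := gg_le_one ((S ∩ P).erase x).card
  have h3 := gg_nonneg ((S ∩ P).erase x).card
  by_cases a1 : x + 1 ∈ P'
  · rw [if_pos a1]
    have : (0:ℝ) ≤ (if x + 2 ∈ P' ∧ x + 2 ∉ P then 3/7 else 0) := by split_ifs <;> norm_num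
    split_ifs <;> first | linarith | (simp_all; done) | nlinarith
  · have a2 : x + 1 ∉ P := fun hh => a1 (h hh)
    rw [if_neg a1, if_neg a2]
    by_cases a3 : x + 2 ∈ P
    · have a4 : x + 2 ∈ P' := h a3
      rw [if_pos a3, if_pos a4]
      have : (0:ℝ) ≤ (if x + 2 ∈ P' ∧ x + 2 ∉ P then 3/7 else 0) := by split_ifs <;> norm_num
      linarith
    · by_cases a4 : x + 2 ∈ P'
      · rw [if_neg a3, if_pos a4, if_pos ⟨a4, a3⟩]
        linarith
      · rw [if_neg a3, if_neg a4, if_neg (fun hh => a4 hh.1)]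
        linarith

theorem mu_edge_ge {P : Finset (ZMod k)} {y : ZMod k} (h1 : y - 1 ∈ Av P) (h2 : y ∈ Av P)
    (h3 : y + 1 ∈ Av P) : mu P y + mu P (y - 1) = 4 := by
  rw [mu_eq_two h2 h3, mu_eq_two h1 (by rw [sub_add_cancel]; exact h2)]; norm_num

/-- crude growth bound for good patterns -/
theorem c1_crude (hk : 5 ≤ k) {S : Finset (ZMod k)} {x : ZMod k} (hS : Indep S) (htw : ¬ IsTw S)
    (hx : x ∈ S) (hmin : ∀ y ∈ S, x.val ≤ y.val) (hG : Good S) (L : ℕ) (hL : 6 * L ≤ k) (i : ℕ) :
    ∀ P : Finset (ZMod k), (0 : ZMod k) ∈ P → (1 : ZMod k) ∈ P → P.card + 2 * i ≤ L →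
    c1 i S P ≤ uu x S P + i * ((4 + (S.card : ℝ)) / (k : ℝ)) := by
  induction i with
  | zero =>
    intro P h0 h1 _
    have := c10_good hk hS htw hx hmin hG P h0 h1
    simpa [c1] using this
  | succ i ih =>
    intro P h0 h1 hP
    rw [c1_succ]
    set M : ℝ := ((Av P).card : ℝ) with hM
    set s : ℝ := (S.card : ℝ) with hs
    set K : ℝ := (k : ℝ) with hK
    have hAv := card_Av_ge P
    have hKpos : 0 < K := by rw [hK]; exact_mod_cast (by omega : 0 < k)
    have hMge : K / 2 ≤ M := by
      have : k ≤ 2 * (Av P).card := by omega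
      have h' : (k : ℝ) ≤ 2 * ((Av P).card : ℝ) := by exact_mod_cast this
      rw [hK, hM]; linarith
    have hMpos : 0 < M := by linarith
    have hspos : 0 ≤ s := by rw [hs]; positivity
    have t1 : (if S ∩ P = ∅ then (1:ℝ) else 0) ≤ 1 := by split_ifs <;> norm_num
    have t2 := nbr_cost_le S P
    rw [← hs] at t2
    have t3 : ∑ e : ZMod k, mu P e * c1 i S (PE P e) ≤ ∑ e : ZMod k, mu P e *
        ((uu x S P + i * ((4 + s) / K)) + (3/7 * (if e = x + 2 then 1 else 0)
          + 3/7 * (if e = x + 1 then 1 else 0))) := by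
      apply sum_mu_le
      intro e he
      have a1 := ih (PE P e) (subset_PE P e h0) (subset_PE P e h1)
        (by rw [card_PE hk he]; omega)
      have a2 := uu_mono (x := x) (S := S) (subset_PE P e)
      have a3 : (if x + 2 ∈ PE P e ∧ x + 2 ∉ P then (3/7:ℝ) else 0) ≤
          3/7 * (if e = x + 2 then 1 else 0) + 3/7 * (if e = x + 1 then 1 else 0) := by
        by_cases b1 : e = x + 2
        · rw [if_pos b1]
          have : (0:ℝ) ≤ 3/7 * (if e = x + 1 then (1:ℝ) else 0) := by split_ifs <;> norm_num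
          split_ifs <;> linarith
        · by_cases b2 : e = x + 1
          · rw [if_neg b1, if_pos b2]
            split_ifs <;> linarith
          · rw [if_neg b1, if_neg b2, if_neg]
            · norm_num
            · rw [mem_PE]
              rintro ⟨h | h | h, h'⟩
              · exact b2 (by linear_combination -h)
              · exact b1 h.symm
              · exact h' h
      linarith
    have t4 : ∑ e : ZMod k, mu P e *
        ((uu x S P + i * ((4 + s) / K)) + (3/7 * (if e = x + 2 then 1 else 0)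
          + 3/7 * (if e = x + 1 then 1 else 0))) = 2 * M * (uu x S P + i * ((4 + s) / K))
          + 3/7 * mu P (x + 2) + 3/7 * mu P (x + 1) := by
      have e1 : ∀ e : ZMod k, mu P e *
        ((uu x S P + i * ((4 + s) / K)) + (3/7 * (if e = x + 2 then 1 else 0)
          + 3/7 * (if e = x + 1 then 1 else 0))) = mu P e * (uu x S P + i * ((4 + s) / K))
          + 3/7 * (mu P e * (if e = x + 2 then 1 else 0))
          + 3/7 * (mu P e * (if e = x + 1 then 1 else 0)) := by intro e; ring
      rw [Finset.sum_congr rfl (fun e _ => e1 e), Finset.sum_add_distrib, Finset.sum_add_distrib,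
        ← Finset.mul_sum, ← Finset.mul_sum, sum_mu_ind, sum_mu_ind, ← Finset.sum_mul, sum_mu]
    have m1 := mu_le_two P (x + 2)
    have m2 := mu_le_two P (x + 1)
    have t5 : (∑ e : ZMod k, mu P e * c1 i S (PE P e)) / (2 * M) ≤
        (uu x S P + i * ((4 + s) / K)) + 1 / M := by
      rw [div_le_iff₀ (by positivity)]
      have : ((uu x S P + i * ((4 + s) / K)) + 1 / M) * (2 * M) =
        2 * M * (uu x S P + i * ((4 + s) / K)) + 2 := by field_simp
      rw [this]
      linarith
    have t6 : (if S ∩ P = ∅ then (1:ℝ) else 0) / M ≤ 1 / M :=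
      div_le_div_of_nonneg_right t1 hMpos.le
    have t7 : (∑ w ∈ Av P, (if w ∈ S ∧ (S ∩ insert w P).card ≤ 2 then (1/2 : ℝ) else 0)) / M ≤
      (s / 2) / M := div_le_div_of_nonneg_right t2 hMpos.le
    have t8 : 1 / M + (s / 2) / M + 1 / M ≤ (4 + s) / K := by
      have : 1 / M + (s / 2) / M + 1 / M = (2 + s / 2) / M := by ring
      rw [this, div_le_div_iff₀ hMpos hKpos]
      nlinarith
    push_cast
    linarith

/-- cleanliness -/
def Clean (S P : Finset (ZMod k)) : Prop :=
  ∀ y ∈ S, ∀ j : ℤ, -2 ≤ j → j ≤ 3 → y + (j : ZMod k) ∉ P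

theorem Clean.get {S P : Finset (ZMod k)} (h : Clean S P) {y : ZMod k} (hy : y ∈ S) (j : ℤ)
    (h1 : -2 ≤ j) (h2 : j ≤ 3) {t : ZMod k} (ht : t = y + (j : ZMod k)) : t ∉ P := by
  rw [ht]; exact h y hy j h1 h2

theorem Clean.av {S P : Finset (ZMod k)} (h : Clean S P) {y : ZMod k} (hy : y ∈ S) (j : ℤ)
    (h1 : -1 ≤ j) (h2 : j ≤ 2) {t : ZMod k} (ht : t = y + (j : ZMod k)) : t ∈ Av P := by
  rw [mem_Av]
  refine ⟨h.get hy j (by omega) (by omega) ht, h.get hy (j+1) (by omega) (by omega) ?_,
    h.get hy (j-1) (by omega) (by omega) ?_⟩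
  · rw [ht]; push_cast; ring
  · rw [ht]; push_cast; ring

theorem uu_step (hk : 5 ≤ k) {S P : Finset (ZMod k)} {x : ZMod k} (hS : Indep S)
    (hx : x ∈ S) (hC : Clean S P) (e : ZMod k) :
    uu x S (PE P e) ≤ 1 - 3/10 * (if e ∈ S.erase x then 1 else 0)
      - 3/10 * (if e + 1 ∈ S.erase x then 1 else 0)
      - (if e = x then 1 else 0) - (if e = x + 1 then 1 else 0)
      + (if x + 2 ∈ S ∨ x + 3 ∈ S then 3/10 else 3/7) * (if e = x + 2 then 1 else 0)
      + (if x + 2 ∈ S then 3/10 else 0) * (if e = x + 1 then 1 else 0) := by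
  have n1 := ne0_1 hk
  have n2 := ne0_2 hk
  have x1P : x + 1 ∉ P := hC.get hx 1 (by norm_num) (by norm_num) (by push_cast; ring)
  have x2P : x + 2 ∉ P := hC.get hx 2 (by norm_num) (by norm_num) (by push_cast; ring)
  by_cases h1 : e = x
  · have hu : uu x S (PE P e) = 0 := by
      unfold uu; rw [if_pos]; rw [mem_PE, h1]; left; rfl
    rw [hu, h1]
    rw [if_neg (Finset.notMem_erase x S), if_neg (fun h => hS x hx (Finset.mem_of_mem_erase h)),
      if_pos rfl, if_neg (fun h : x = x + 1 => n1 (by linear_combination -h)),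
      if_neg (fun h : x = x + 2 => n2 (by linear_combination -h))]
    simp
  by_cases h2 : e = x + 1
  · have hu : uu x S (PE P e) = 0 := by
      unfold uu; rw [if_pos]; rw [mem_PE, h2]; right; left; rfl
    have e12 : x + 1 + 1 = x + 2 := by ring
    rw [hu, h2, e12]
    have h3 : (x + 2 ∈ S.erase x) ↔ x + 2 ∈ S := by
      rw [Finset.mem_erase]
      exact ⟨fun h => h.2, fun h => ⟨fun h' => n2 (by linear_combination h'), h⟩⟩
    rw [if_neg (fun h : x + 1 ∈ S.erase x => hS x hx (Finset.mem_of_mem_erase h)),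
      if_neg (fun h : x + 1 = x => n1 (by linear_combination h)), if_pos rfl,
      if_neg (fun h : x + 1 = x + 2 => n1 (by linear_combination -h))]
    simp only [h3]
    split_ifs <;> norm_num
  have hcardpos : (e ∈ S.erase x ∨ e + 1 ∈ S.erase x) → gg ((S ∩ PE P e).erase x).card ≤ 7/10 := by
    intro h
    have : 1 ≤ ((S ∩ PE P e).erase x).card := by
      rw [Nat.succ_le_iff, Finset.card_pos]
      rcases h with h | h
      · refine ⟨e, ?_⟩
        rw [Finset.mem_erase] at h ⊢
        exact ⟨h.1, Finset.mem_inter.2 ⟨h.2, by rw [mem_PE]; tauto⟩⟩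
      · refine ⟨e + 1, ?_⟩
        rw [Finset.mem_erase] at h ⊢
        exact ⟨h.1, Finset.mem_inter.2 ⟨h.2, by rw [mem_PE]; tauto⟩⟩
    have := gg_anti this
    simpa [gg] using this
  have hg1 := gg_le_one ((S ∩ PE P e).erase x).card
  have hg0 := gg_nonneg ((S ∩ PE P e).erase x).card
  have x1PE : x + 1 ∉ PE P e := by
    rw [mem_PE]
    rintro (h | h | h)
    · exact h1 (by linear_combination -h)
    · exact h2 h.symm
    · exact x1P h
  by_cases h3 : e = x + 2
  · have hu : uu x S (PE P e) = gg ((S ∩ PE P e).erase x).card * (10/7) := by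
      unfold uu; rw [if_neg x1PE, if_pos]; rw [mem_PE, h3]; right; left; rfl
    have h4 : (e ∈ S.erase x) ↔ x + 2 ∈ S := by
      rw [h3, Finset.mem_erase]
      exact ⟨fun h => h.2, fun h => ⟨fun h' => n2 (by linear_combination h'), h⟩⟩
    have e23 : x + 2 + 1 = x + 3 := by ring
    have h5 : (e + 1 ∈ S.erase x) ↔ x + 3 ∈ S := by
      rw [h3, Finset.mem_erase, e23]
      exact ⟨fun h => h.2, fun h => ⟨fun h' => ne0_3 hk (by linear_combination h'), h⟩⟩
    rw [hu]
    simp only [h4, h5] at hcardpos ⊢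
    rw [if_neg h1, if_neg h2, if_pos h3]
    by_cases a1 : x + 2 ∈ S
    · have a2 : x + 3 ∉ S := by
        have := hS _ a1
        rwa [e23] at this
      have := hcardpos (Or.inl a1)
      rw [if_pos a1, if_neg a2, if_pos (Or.inl a1)]
      linarith
    · by_cases a2 : x + 3 ∈ S
      · have := hcardpos (Or.inr a2)
        rw [if_neg a1, if_pos a2, if_pos (Or.inr a2)]
        linarith
      · rw [if_neg a1, if_neg a2, if_neg (not_or.2 ⟨a1, a2⟩)]
        linarith
  · have hu : uu x S (PE P e) = gg ((S ∩ PE P e).erase x).card := by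
      unfold uu; rw [if_neg x1PE, if_neg, mul_one]
      rw [mem_PE]
      rintro (h | h | h)
      · exact h2 (by linear_combination -h)
      · exact h3 h.symm
      · exact x2P h
    rw [hu, if_neg h1, if_neg h2, if_neg h3]
    simp only [mul_zero, sub_zero, add_zero]
    by_cases a1 : e ∈ S.erase x
    · have a2 : e + 1 ∉ S.erase x := fun h =>
        hS e (Finset.mem_of_mem_erase a1) (Finset.mem_of_mem_erase h)
      have := hcardpos (Or.inl a1)
      rw [if_pos a1, if_neg a2]; linarith
    · by_cases a2 : e + 1 ∈ S.erase x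
      · have := hcardpos (Or.inr a2)
        rw [if_neg a1, if_pos a2]; linarith
      · rw [if_neg a1, if_neg a2]; linarith

theorem sum_mu_mem (P A : Finset (ZMod k)) :
    ∑ e : ZMod k, mu P e * (if e ∈ A then 1 else 0) = ∑ y ∈ A, mu P y := by
  have : ∀ e : ZMod k, mu P e * (if e ∈ A then (1:ℝ) else 0) = if e ∈ A then mu P e else 0 := by
    intro e; split_ifs <;> simp
  rw [Finset.sum_congr rfl (fun e _ => this e), ← Finset.sum_filter]
  congr 1
  ext; simp

theorem sum_mu_mem1 (P A : Finset (ZMod k)) :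
    ∑ e : ZMod k, mu P e * (if e + 1 ∈ A then 1 else 0) = ∑ y ∈ A, mu P (y - 1) := by
  have e0 : ∑ e : ZMod k, mu P e * (if e + 1 ∈ A then (1:ℝ) else 0) =
      ∑ e : ZMod k, mu P (e - 1) * (if e ∈ A then (1:ℝ) else 0) := by
    refine Fintype.sum_equiv (Equiv.addRight (1 : ZMod k)) _ _ ?_
    intro e
    by_cases h : e + 1 ∈ A <;> simp [h]
  rw [e0]
  have : ∀ e : ZMod k, mu P (e-1) * (if e ∈ A then (1:ℝ) else 0) = if e ∈ A then mu P (e-1) else 0 := by
    intro e; split_ifs <;> simp
  rw [Finset.sum_congr rfl (fun e _ => this e), ← Finset.sum_filter]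
  congr 1
  ext; simp

/-- the key drift computation -/
theorem sum_uu_clean (hk : 5 ≤ k) {S P : Finset (ZMod k)} {x : ZMod k} (hS : Indep S)
    (htw : ¬ IsTw S) (hx : x ∈ S) (hC : Clean S P) :
    ∑ e : ZMod k, mu P e * uu x S (PE P e) ≤
      2 * ((Av P).card : ℝ) - 2 - (S.card : ℝ) - (S.card : ℝ) / 15 := by
  have h1 : ∑ e : ZMod k, mu P e * uu x S (PE P e) ≤ ∑ e : ZMod k, mu P e * (
      1 - 3/10 * (if e ∈ S.erase x then 1 else 0)
      - 3/10 * (if e + 1 ∈ S.erase x then 1 else 0)
      - (if e = x then 1 else 0) - (if e = x + 1 then 1 else 0)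
      + (if x + 2 ∈ S ∨ x + 3 ∈ S then 3/10 else 3/7) * (if e = x + 2 then 1 else 0)
      + (if x + 2 ∈ S then 3/10 else 0) * (if e = x + 1 then 1 else 0)) :=
    sum_mu_le (fun e _ => uu_step hk hS hx hC e)
  refine h1.trans ?_
  have h2 : ∀ e : ZMod k, mu P e * (
      1 - 3/10 * (if e ∈ S.erase x then 1 else 0)
      - 3/10 * (if e + 1 ∈ S.erase x then 1 else 0)
      - (if e = x then 1 else 0) - (if e = x + 1 then 1 else 0)
      + (if x + 2 ∈ S ∨ x + 3 ∈ S then 3/10 else 3/7) * (if e = x + 2 then 1 else 0)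
      + (if x + 2 ∈ S then 3/10 else 0) * (if e = x + 1 then 1 else 0)) =
      mu P e - 3/10 * (mu P e * (if e ∈ S.erase x then 1 else 0))
      - 3/10 * (mu P e * (if e + 1 ∈ S.erase x then 1 else 0))
      - mu P e * (if e = x then 1 else 0) - mu P e * (if e = x + 1 then 1 else 0)
      + (if x + 2 ∈ S ∨ x + 3 ∈ S then 3/10 else 3/7) * (mu P e * (if e = x + 2 then 1 else 0))
      + (if x + 2 ∈ S then 3/10 else 0) * (mu P e * (if e = x + 1 then 1 else 0)) := by
    intro e; ring
  rw [Finset.sum_congr rfl (fun e _ => h2 e), Finset.sum_add_distrib, Finset.sum_add_distrib,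
    Finset.sum_sub_distrib, Finset.sum_sub_distrib, Finset.sum_sub_distrib,
    Finset.sum_sub_distrib, ← Finset.mul_sum, ← Finset.mul_sum, ← Finset.mul_sum,
    ← Finset.mul_sum, sum_mu_ind, sum_mu_ind, sum_mu_ind, sum_mu_mem, sum_mu_mem1, sum_mu]
  have h3 : ∑ y ∈ S.erase x, mu P y = 2 * ((S.card : ℝ) - 1) := by
    have : ∀ y ∈ S.erase x, mu P y = 2 := by
      intro y hy
      have hyS := Finset.mem_of_mem_erase hy
      exact mu_eq_two (hC.av hyS 0 (by norm_num) (by norm_num) (by push_cast; ring))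
        (hC.av hyS 1 (by norm_num) (by norm_num) (by push_cast; ring))
    rw [Finset.sum_congr rfl this, Finset.sum_const, nsmul_eq_mul, Finset.card_erase_of_mem hx,
      Nat.cast_sub (Finset.card_pos.2 ⟨x, hx⟩)]
    push_cast; ring
  have h4 : ∑ y ∈ S.erase x, mu P (y - 1) = 2 * ((S.card : ℝ) - 1) := by
    have : ∀ y ∈ S.erase x, mu P (y - 1) = 2 := by
      intro y hy
      have hyS := Finset.mem_of_mem_erase hy
      exact mu_eq_two (hC.av hyS (-1) (by norm_num) (by norm_num) (by push_cast; ring))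
        (hC.av hyS 0 (by norm_num) (by norm_num) (by push_cast; ring))
    rw [Finset.sum_congr rfl this, Finset.sum_const, nsmul_eq_mul, Finset.card_erase_of_mem hx,
      Nat.cast_sub (Finset.card_pos.2 ⟨x, hx⟩)]
    push_cast; ring
  have h5 : mu P x = 2 := mu_eq_two (hC.av hx 0 (by norm_num) (by norm_num) (by push_cast; ring))
        (hC.av hx 1 (by norm_num) (by norm_num) (by push_cast; ring))
  have h6 : mu P (x + 1) = 2 :=
    mu_eq_two (hC.av hx 1 (by norm_num) (by norm_num) (by push_cast; ring))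
        (hC.av hx 2 (by norm_num) (by norm_num) (by push_cast; ring))
  have h7 := mu_le_two P (x + 2)
  have h7' := mu_nonneg P (x + 2)
  rw [h3, h4, h5, h6]
  have hs1 : 1 ≤ S.card := Finset.card_pos.2 ⟨x, hx⟩
  have hs1' : (1:ℝ) ≤ (S.card : ℝ) := by exact_mod_cast hs1
  by_cases a1 : x + 2 ∈ S
  · -- then |S| ≥ 3
    have hs3 : 3 ≤ S.card := by
      by_contra hcon
      apply htw
      refine ⟨x + 1, ?_⟩
      have hsub : ({x, x + 2} : Finset (ZMod k)) ⊆ S := by
        intro y hy
        rw [Finset.mem_insert, Finset.mem_singleton] at hy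
        rcases hy with hy | hy
        · rw [hy]; exact hx
        · rw [hy]; exact a1
      have hc2 : ({x, x + 2} : Finset (ZMod k)).card = 2 := by
        rw [Finset.card_insert_of_notMem, Finset.card_singleton]
        rw [Finset.mem_singleton]
        intro h; exact ne0_2 hk (by linear_combination -h)
      have := Finset.eq_of_subset_of_card_le hsub (by rw [hc2]; omega)
      rw [← this]
      have e1 : x + 1 - 1 = x := by ring
      have e2 : x + 1 + 1 = x + 2 := by ring
      rw [e1, e2]
    have hs3' : (3:ℝ) ≤ (S.card : ℝ) := by exact_mod_cast hs3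
    rw [if_pos (Or.inl a1), if_pos a1]
    linarith
  · by_cases a2 : x + 3 ∈ S
    · rw [if_pos (Or.inr a2), if_neg a1]; linarith
    · rw [if_neg (not_or.2 ⟨a1, a2⟩), if_neg a1]; linarith

end

end Pool.Agent.TH467
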