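import Pool.Agent.TH467.RegA

set_option autoImplicit false
set_option linter.unusedSectionVars false

open Finset

namespace Pool.Agent.TH467

noncomputable section
open Classical

variable {k : ℕ} [NeZero k]

theorem unclean_le {S P : Finset (ZMod k)} (hC : Clean S P) (e : ZMod k) :
    (if Clean S (PE P e) then (0:ℝ) else 1) ≤
      ∑ y ∈ S, ∑ j ∈ Finset.Icc (-2 : ℤ) 3,
        ((if e = y + (j : ZMod k) then (1:ℝ) else 0) + (if e = y + (j : ZMod k) - 1 then 1 else 0)) := by
  have hnn : ∀ y ∈ S, ∀ j ∈ Finset.Icc (-2 : ℤ) 3, (0:ℝ) ≤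
      (if e = y + (j : ZMod k) then (1:ℝ) else 0) + (if e = y + (j : ZMod k) - 1 then 1 else 0) := by
    intro y _ j _; split_ifs <;> norm_num
  by_cases h : Clean S (PE P e)
  · rw [if_pos h]
    exact Finset.sum_nonneg (fun y hy => Finset.sum_nonneg (fun j hj => hnn y hy j hj))
  · rw [if_neg h]
    unfold Clean at h
    push Not at h
    obtain ⟨y, hy, j, hj1, hj2, hmem⟩ := h
    have hjm : j ∈ Finset.Icc (-2 : ℤ) 3 := Finset.mem_Icc.2 ⟨hj1, hj2⟩
    have h1 : (1:ℝ) ≤ (if e = y + (j : ZMod k) then (1:ℝ) else 0)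
        + (if e = y + (j : ZMod k) - 1 then 1 else 0) := by
      rw [mem_PE] at hmem
      rcases hmem with h2 | h2 | h2
      · rw [if_pos (show e = y + (j : ZMod k) - 1 by rw [h2]; ring)]
        split_ifs <;> norm_num
      · rw [if_pos h2.symm]
        split_ifs <;> norm_num
      · exact absurd h2 (hC y hy j hj1 hj2)
    refine h1.trans ?_
    refine (Finset.single_le_sum (f := fun j : ℤ => (if e = y + (j : ZMod k) then (1:ℝ) else 0)
        + (if e = y + (j : ZMod k) - 1 then 1 else 0)) (fun j hj => hnn y hy j hj) hjm).trans ?_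
    exact Finset.single_le_sum (f := fun y : ZMod k => ∑ j ∈ Finset.Icc (-2 : ℤ) 3,
      ((if e = y + (j : ZMod k) then (1:ℝ) else 0)
        + (if e = y + (j : ZMod k) - 1 then 1 else 0)))
        (fun y hy => Finset.sum_nonneg (fun j hj => hnn y hy j hj)) hy

theorem sum_unclean {S P : Finset (ZMod k)} (hC : Clean S P) :
    ∑ e : ZMod k, mu P e * (if Clean S (PE P e) then (0:ℝ) else 1) ≤ 24 * (S.card : ℝ) := by
  have h1 : ∑ e : ZMod k, mu P e * (if Clean S (PE P e) then (0:ℝ) else 1) ≤
      ∑ e : ZMod k, mu P e * (∑ y ∈ S, ∑ j ∈ Finset.Icc (-2 : ℤ) 3,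
        ((if e = y + (j : ZMod k) then (1:ℝ) else 0) + (if e = y + (j : ZMod k) - 1 then 1 else 0))) :=
    sum_mu_le (fun e _ => unclean_le hC e)
  refine h1.trans ?_
  have h2 : ∑ e : ZMod k, mu P e * (∑ y ∈ S, ∑ j ∈ Finset.Icc (-2 : ℤ) 3,
        ((if e = y + (j : ZMod k) then (1:ℝ) else 0) + (if e = y + (j : ZMod k) - 1 then 1 else 0)))
      = ∑ y ∈ S, ∑ j ∈ Finset.Icc (-2 : ℤ) 3, (mu P (y + (j : ZMod k)) + mu P (y + (j : ZMod k) - 1)) := by
    simp_rw [Finset.mul_sum]
    rw [Finset.sum_comm]
    apply Finset.sum_congr rfl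
    intro y _
    rw [Finset.sum_comm]
    apply Finset.sum_congr rfl
    intro j _
    simp_rw [mul_add]
    rw [Finset.sum_add_distrib, sum_mu_ind, sum_mu_ind]
  rw [h2]
  have h3 : ∀ y ∈ S, ∑ j ∈ Finset.Icc (-2 : ℤ) 3,
      (mu P (y + (j : ZMod k)) + mu P (y + (j : ZMod k) - 1)) ≤ 24 := by
    intro y _
    have : ∀ j ∈ Finset.Icc (-2 : ℤ) 3,
      (mu P (y + (j : ZMod k)) + mu P (y + (j : ZMod k) - 1)) ≤ 4 := by
      intro j _
      have a1 := mu_le_two P (y + (j : ZMod k))
      have a2 := mu_le_two P (y + (j : ZMod k) - 1)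
      linarith
    refine (Finset.sum_le_card_nsmul _ _ _ this).trans ?_
    simp
    norm_num
  refine (Finset.sum_le_card_nsmul _ _ _ h3).trans ?_
  rw [nsmul_eq_mul]; linarith

theorem c1_clean {S : Finset (ZMod k)} {x : ZMod k} (hS : Indep S) (htw : ¬ IsTw S)
    (hx : x ∈ S) (hmin : ∀ y ∈ S, x.val ≤ y.val) (hG : Good S)
    (hbig : 10 ^ 20 ≤ k) (hsm : 20000000 * S.card ≤ k) (i : ℕ) :
    ∀ P : Finset (ZMod k), (0 : ZMod k) ∈ P → (1 : ZMod k) ∈ P → P.card + 2 * i ≤ 40002 →
    Clean S P → c1 i S P ≤ 1 - i * ((S.card : ℝ) / (60 * (k : ℝ))) := by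
  have hk : 5 ≤ k := by omega
  induction i with
  | zero =>
    intro P h0 h1 _ hC
    have h2 := c10_good hk hS htw hx hmin hG P h0 h1
    have h3 : uu x S P ≤ 1 := by
      unfold uu
      have x2P : x + 2 ∉ P := hC.get hx 2 (by norm_num) (by norm_num) (by push_cast; ring)
      rw [if_neg x2P, mul_one]
      have := gg_le_one ((S ∩ P).erase x).card
      split_ifs <;> linarith
    simp only [c1]
    push_cast
    linarith
  | succ i ih =>
    intro P h0 h1 hP hC
    rw [c1_succ]
    set M : ℝ := ((Av P).card : ℝ) with hM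
    set s : ℝ := (S.card : ℝ) with hs
    set K : ℝ := (k : ℝ) with hK
    have hAv := card_Av_ge P
    have hKbig : (10:ℝ) ^ 20 ≤ K := by rw [hK]; exact_mod_cast hbig
    have hKpos : 0 < K := by linarith [show (0:ℝ) < 10 ^ 20 by norm_num]
    have hMge : K / 2 ≤ M := by
      have : k ≤ 2 * (Av P).card := by omega
      have h' : (k : ℝ) ≤ 2 * ((Av P).card : ℝ) := by exact_mod_cast this
      rw [hK, hM]; linarith
    have hMle : M ≤ K := by rw [hK, hM]; exact_mod_cast card_Av_le P
    have hMpos : 0 < M := by linarith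
    have hs1 : 1 ≤ S.card := Finset.card_pos.2 ⟨x, hx⟩
    have hs1' : (1:ℝ) ≤ s := by rw [hs]; exact_mod_cast hs1
    have hsm' : 20000000 * s ≤ K := by rw [hK, hs]; exact_mod_cast hsm
    have hi : (i : ℝ) ≤ 20000 := by
      have : i ≤ 20000 := by omega
      exact_mod_cast this
    have hi0 : (0:ℝ) ≤ i := by positivity
    set η : ℝ := s / (60 * K) with hη
    set e1 : ℝ := (4 + s) / K with he1
    have hη0 : 0 ≤ η := by rw [hη]; positivity
    have he10 : 0 ≤ e1 := by rw [he1]; positivity
    have t1 : (if S ∩ P = ∅ then (1:ℝ) else 0) ≤ 1 := by split_ifs <;> norm_num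
    have t2 := nbr_cost_le S P
    rw [← hs] at t2
    have hun := sum_unclean hC
    have hdr := sum_uu_clean hk hS htw hx hC
    rw [← hM, ← hs] at hdr
    rw [← hs] at hun
    have t3 : ∑ e : ZMod k, mu P e * c1 i S (PE P e) ≤ ∑ e : ZMod k, mu P e *
        (uu x S (PE P e) - i * η + (if Clean S (PE P e) then (0:ℝ) else 1) * (i * (η + e1))) := by
      apply sum_mu_le
      intro e he
      have hc := card_PE hk he
      by_cases hcl : Clean S (PE P e)
      · rw [if_pos hcl]
        have a1 := ih (PE P e) (subset_PE P e h0) (subset_PE P e h1) (by rw [hc]; omega) hcl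
        have a2 : uu x S (PE P e) = 1 := by
          unfold uu
          have x1P : x + 1 ∉ PE P e := hcl.get hx 1 (by norm_num) (by norm_num) (by push_cast; ring)
          have x2P : x + 2 ∉ PE P e := hcl.get hx 2 (by norm_num) (by norm_num) (by push_cast; ring)
          rw [if_neg x1P, if_neg x2P, mul_one]
          have : (S ∩ PE P e).erase x = ∅ := by
            rw [Finset.eq_empty_iff_forall_notMem]
            intro y hy
            rw [Finset.mem_erase, Finset.mem_inter] at hy
            exact hcl.get hy.2.1 0 (by norm_num) (by norm_num) (by push_cast; ring) hy.2.2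
          rw [this]; simp [gg]
        rw [a2]
        linarith
      · rw [if_neg hcl]
        have a1 := c1_crude hk hS htw hx hmin hG 40002 (by omega) i (PE P e) (subset_PE P e h0)
          (subset_PE P e h1) (by rw [hc]; omega)
        rw [← hs, ← hK, ← he1] at a1
        linarith
    have t4 : ∑ e : ZMod k, mu P e *
        (uu x S (PE P e) - i * η + (if Clean S (PE P e) then (0:ℝ) else 1) * (i * (η + e1))) =
        ∑ e : ZMod k, mu P e * uu x S (PE P e) - 2 * M * (i * η) +
        (∑ e : ZMod k, mu P e * (if Clean S (PE P e) then (0:ℝ) else 1)) * (i * (η + e1)) := by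
      rw [Finset.sum_mul, ← sum_mu P, Finset.sum_mul, ← Finset.sum_sub_distrib,
        ← Finset.sum_add_distrib]
      apply Finset.sum_congr rfl
      intro e _
      ring
    have hie : 0 ≤ i * (η + e1) := by positivity
    have t5 : (∑ e : ZMod k, mu P e * (if Clean S (PE P e) then (0:ℝ) else 1)) * (i * (η + e1)) ≤
        24 * s * (20000 * (η + e1)) := by
      refine (mul_le_mul_of_nonneg_right hun hie).trans ?_
      apply mul_le_mul_of_nonneg_left _ (by positivity)
      apply mul_le_mul_of_nonneg_right hi (by positivity)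
    have t6 : ∑ e : ZMod k, mu P e * c1 i S (PE P e) ≤
        2 * M - 2 - s - s / 15 - 2 * M * (i * η) + 24 * s * (20000 * (η + e1)) := by
      linarith
    have hsmall : 20000 * (η + e1) ≤ 1 / 720 := by
      have : 20000 * (η + e1) = 20000 * (s / 60 + 4 + s) / K := by
        rw [hη, he1]; field_simp; ring
      rw [this, div_le_div_iff₀ hKpos (by norm_num)]
      have : (10:ℝ)^20 = 100000000000000000000 := by norm_num
      rw [this] at hKbig
      linarith
    have t7 : (∑ e : ZMod k, mu P e * c1 i S (PE P e)) ≤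
        2 * M - 2 - s - 2 * M * (i * η) - s / 30 := by
      have : 24 * s * (20000 * (η + e1)) ≤ 24 * s * (1/720) :=
        mul_le_mul_of_nonneg_left hsmall (by positivity)
      linarith
    have hηM : 2 * M * η ≤ s / 30 := by
      have : 2 * M * η = s / 30 * (M / K) := by rw [hη]; field_simp; ring
      rw [this]
      have h2 : M / K ≤ 1 := by rw [div_le_one hKpos]; exact hMle
      nlinarith
    have t8 : (if S ∩ P = ∅ then (1:ℝ) else 0) / M
      + (∑ w ∈ Av P, (if w ∈ S ∧ (S ∩ insert w P).card ≤ 2 then (1/2 : ℝ) else 0)) / M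
      + (∑ e : ZMod k, mu P e * c1 i S (PE P e)) / (2 * M) ≤
      (2 * M - 2 * M * (i * η) - 2 * M * η) / (2 * M) := by
      have : (if S ∩ P = ∅ then (1:ℝ) else 0) / M
        + (∑ w ∈ Av P, (if w ∈ S ∧ (S ∩ insert w P).card ≤ 2 then (1/2 : ℝ) else 0)) / M
        + (∑ e : ZMod k, mu P e * c1 i S (PE P e)) / (2 * M) =
        (2 * (if S ∩ P = ∅ then (1:ℝ) else 0) +
        2 * (∑ w ∈ Av P, (if w ∈ S ∧ (S ∩ insert w P).card ≤ 2 then (1/2 : ℝ) else 0)) +
        (∑ e : ZMod k, mu P e * c1 i S (PE P e))) / (2 * M) := by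
        field_simp
      rw [this]
      apply div_le_div_of_nonneg_right _ (by positivity)
      linarith
    refine t8.trans (le_of_eq ?_)
    push_cast
    field_simp
    ring

/-- universal base bound for non-twin patterns -/
theorem c10_le_twenty (hk : 5 ≤ k) {S : Finset (ZMod k)} {x : ZMod k} (hS : Indep S)
    (htw : ¬ IsTw S) (hx : x ∈ S) (hmin : ∀ y ∈ S, x.val ≤ y.val) (P : Finset (ZMod k))
    (h0 : (0 : ZMod k) ∈ P) (h1 : (1 : ZMod k) ∈ P) : c10 S P ≤ 20 := by
  have hle := card_le_k P
  unfold c10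
  split_ifs with h2
  · have a1 := c3_le hk hS htw hx hmin _ P (show P.card + (k - P.card) = k by omega) h0 h1
    have a2 := uu_le x S P
    linarith
  · have hc := card_two_more hk h2
    have hle2 := card_le_k (insert (-1 : ZMod k) (insert 2 P))
    have h3 := c3_le hk hS htw hx hmin (k - P.card - 2) (insert (-1) (insert 2 P)) (by omega)
      (by simp [h0]) (by simp [h1])
    have h4 := uu_le x S (insert (-1) (insert 2 P))
    have a1 : S ≠ {-2, 0} := by
      intro h; apply htw; refine ⟨-1, ?_⟩
      rw [h]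
      have e1 : (-1 : ZMod k) - 1 = -2 := by ring
      have e2 : (-1 : ZMod k) + 1 = 0 := by ring
      rw [e1, e2]
    have a2 : S ≠ {1, 3} := by
      intro h; apply htw; refine ⟨2, ?_⟩
      rw [h]
      have e1 : (2 : ZMod k) - 1 = 1 := by ring
      have e2 : (2 : ZMod k) + 1 = 3 := by ring
      rw [e1, e2]
    have n01 : ({1} : Finset (ZMod k)) ≠ {0} := by
      intro h; rw [Finset.singleton_inj] at h; exact ne0_1 hk h
    have n12 : ({1} : Finset (ZMod k)) ≠ {-1} := by
      intro h; rw [Finset.singleton_inj] at h; exact ne0_2 hk (by linear_combination h)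
    have n02 : ({0} : Finset (ZMod k)) ≠ {-1} := by
      intro h; rw [Finset.singleton_inj] at h; exact ne0_1 hk (by linear_combination h)
    have e0 : cpair S P ≤ 18 := by
      unfold cpair
      rw [if_neg a1, if_neg a2]
      by_cases b1 : S = {1}
      · have b1' : S ≠ {0} := by rw [b1]; exact n01
        have b1'' : S ≠ {-1} := by rw [b1]; exact n12
        rw [if_pos b1, if_neg b1', if_neg b1'']
        split_ifs <;> norm_num
      · by_cases b2 : S = {0}
        · have b2' : S ≠ {-1} := by rw [b2]; exact n02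
          rw [if_neg b1, if_pos b2, if_neg b2']
          split_ifs <;> norm_num
        · by_cases b3 : S = {-1}
          · rw [if_neg b1, if_neg b2, if_pos b3, if_neg]
            · norm_num
            · rintro ⟨-, -, h | h⟩
              · rw [b3, Finset.mem_singleton] at h
                exact ne0_1 hk (by linear_combination h)
              · rw [b3, Finset.mem_singleton] at h
                exact ne0_2 hk (by linear_combination h)
          · rw [if_neg b1, if_neg b2, if_neg b3]
            split_ifs <;> norm_num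
    linarith

theorem c1_le_general (hk : 5 ≤ k) {S : Finset (ZMod k)} {x : ZMod k} (hS : Indep S)
    (htw : ¬ IsTw S) (hx : x ∈ S) (hmin : ∀ y ∈ S, x.val ≤ y.val) 
    (L : ℕ) (hL : 6 * L ≤ k) (i : ℕ) :
    ∀ P : Finset (ZMod k), (0 : ZMod k) ∈ P → (1 : ZMod k) ∈ P → P.card + 2 * i ≤ L →
    c1 i S P ≤ 20 + i * ((2 + (S.card : ℝ)) / (k : ℝ)) := by
  induction i with
  | zero =>
    intro P h0 h1 _
    have := c10_le_twenty hk hS htw hx hmin P h0 h1
    simpa [c1] using this
  | succ i ih =>
    intro P h0 h1 hP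
    rw [c1_succ]
    set M : ℝ := ((Av P).card : ℝ) with hM
    set s : ℝ := (S.card : ℝ) with hs
    set K : ℝ := (k : ℝ) with hK
    have hAv := card_Av_ge P
    have hKpos : 0 < K := by rw [hK]; exact_mod_cast (by omega : 0 < k)
    have hMge : K / 2 ≤ M := by
      have : k ≤ 2 * (Av P).card := by omega
      have h' : (k : ℝ) ≤ 2 * ((Av P).card : ℝ) := by exact_mod_cast this
      rw [hK, hM]; linarith
    have hMpos : 0 < M := by linarith
    have hspos : 0 ≤ s := by rw [hs]; positivity
    have t1 : (if S ∩ P = ∅ then (1:ℝ) else 0) ≤ 1 := by split_ifs <;> norm_num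
    have t2 := nbr_cost_le S P
    rw [← hs] at t2
    have t3 : ∑ e : ZMod k, mu P e * c1 i S (PE P e) ≤ ∑ e : ZMod k, mu P e *
        (20 + i * ((2 + s) / K)) := by
      apply sum_mu_le
      intro e he
      exact ih (PE P e) (subset_PE P e h0) (subset_PE P e h1) (by rw [card_PE hk he]; omega)
    rw [← Finset.sum_mul, sum_mu] at t3
    have t5 : (∑ e : ZMod k, mu P e * c1 i S (PE P e)) / (2 * M) ≤
        20 + i * ((2 + s) / K) := by
      rw [div_le_iff₀ (by positivity)]
      linarith
    have t6 : (if S ∩ P = ∅ then (1:ℝ) else 0) / M ≤ 1 / M :=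
      div_le_div_of_nonneg_right t1 hMpos.le
    have t7 : (∑ w ∈ Av P, (if w ∈ S ∧ (S ∩ insert w P).card ≤ 2 then (1/2 : ℝ) else 0)) / M ≤
      (s / 2) / M := div_le_div_of_nonneg_right t2 hMpos.le
    have t8 : 1 / M + (s / 2) / M ≤ (2 + s) / K := by
      have : 1 / M + (s / 2) / M = (1 + s / 2) / M := by ring
      rw [this, div_le_div_iff₀ hMpos hKpos]
      nlinarith
    push_cast
    linarith

/-! shifts -/

theorem shift_card (ρ : ZMod k) (S : Finset (ZMod k)) : (shift ρ S).card = S.card := by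
  have : shift ρ S = S.image (fun y => y - ρ) := by
    ext i
    rw [mem_shift, Finset.mem_image]
    constructor
    · intro h; exact ⟨i + ρ, h, by ring⟩
    · rintro ⟨y, hy, rfl⟩; rwa [sub_add_cancel]
  rw [this, Finset.card_image_of_injective]
  intro a b h
  simpa using h

theorem shift_indep {S : Finset (ZMod k)} (hS : Indep S) (ρ : ZMod k) : Indep (shift ρ S) := by
  intro i hi hi1
  rw [mem_shift] at hi hi1
  apply hS _ hi
  have : i + ρ + 1 = i + 1 + ρ := by ring
  rw [this]; exact hi1

theorem shift_not_tw {S : Finset (ZMod k)} (hS : ¬ IsTw S) (ρ : ZMod k) : ¬ IsTw (shift ρ S) := by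
  rintro ⟨x, hx⟩
  apply hS
  refine ⟨x + ρ, ?_⟩
  ext y
  have : y ∈ S ↔ y - ρ ∈ shift ρ S := by rw [mem_shift, sub_add_cancel]
  rw [this, hx]
  simp only [Finset.mem_insert, Finset.mem_singleton]
  constructor
  · rintro (h | h)
    · left; linear_combination h
    · right; linear_combination h
  · rintro (h | h)
    · left; linear_combination h
    · right; linear_combination h

theorem sum_shift_mem (S : Finset (ZMod k)) (a : ZMod k) :
    ∑ ρ : ZMod k, (if a ∈ shift ρ S then (1:ℝ) else 0) = (S.card : ℝ) := by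
  have h1 : ∑ ρ : ZMod k, (if a ∈ shift ρ S then (1:ℝ) else 0) =
      ∑ y : ZMod k, (if y ∈ S then (1:ℝ) else 0) := by
    refine Fintype.sum_equiv (Equiv.addLeft a) _ _ ?_
    intro ρ
    by_cases h : a + ρ ∈ S <;> simp [mem_shift, h]
  rw [h1]
  simp

theorem clean_init {S : Finset (ZMod k)} (hG : Good S) : Clean S {0, 1} := by
  intro y hy j hj1 hj2 hmem
  rw [Finset.mem_insert, Finset.mem_singleton] at hmem
  rcases hmem with h | h
  · apply hG (-j) (by omega) (by omega)
    have : ((-j : ℤ) : ZMod k) = y := by push_cast; linear_combination -h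
    rw [this]; exact hy
  · apply hG (1 - j) (by omega) (by omega)
    have : ((1 - j : ℤ) : ZMod k) = y := by push_cast; linear_combination -h
    rw [this]; exact hy

theorem card_init (hk : 5 ≤ k) : ({0, 1} : Finset (ZMod k)).card = 2 := by
  rw [Finset.card_insert_of_notMem, Finset.card_singleton]
  rw [Finset.mem_singleton]
  intro h; exact ne0_1 hk h.symm

theorem regimeA {S : Finset (ZMod k)} (hS : Indep S) (htw : ¬ IsTw S) (hne : S.Nonempty)
    (hbig : 10 ^ 20 ≤ k) (hsm : 20000000 * S.card ≤ k) :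
    ∑ ρ : ZMod k, ff 20000 (shift ρ S) ≤ (k : ℝ) - 1 := by
  have hk : 5 ≤ k := by omega
  set s : ℝ := (S.card : ℝ) with hs
  set K : ℝ := (k : ℝ) with hK
  have hKbig : (10:ℝ) ^ 20 ≤ K := by rw [hK]; exact_mod_cast hbig
  have hKpos : 0 < K := by linarith [show (0:ℝ) < 10 ^ 20 by norm_num]
  have hs1 : 1 ≤ S.card := Finset.card_pos.2 hne
  have hs1' : (1:ℝ) ≤ s := by rw [hs]; exact_mod_cast hs1
  have hsm' : 20000000 * s ≤ K := by rw [hK, hs]; exact_mod_cast hsm
  have key : ∀ ρ : ZMod k, ff 20000 (shift ρ S) ≤ (1 - 20000 * (s / (60 * K)))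
      + 22 * ∑ j ∈ Finset.Icc (-3 : ℤ) 3, (if (j : ZMod k) ∈ shift ρ S then (1:ℝ) else 0) := by
    intro ρ
    have hS' := shift_indep hS ρ
    have htw' := shift_not_tw htw ρ
    have hc' : ((shift ρ S).card : ℝ) = s := by rw [shift_card]
    have hne' : (shift ρ S).Nonempty := by rw [← Finset.card_pos, shift_card]; exact hs1
    obtain ⟨x, hx, hmin⟩ := Finset.exists_min_image (shift ρ S) ZMod.val hne'
    have hnn : ∀ j ∈ Finset.Icc (-3 : ℤ) 3, (0:ℝ) ≤
        (if (j : ZMod k) ∈ shift ρ S then (1:ℝ) else 0) := by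
      intro j _; split_ifs <;> norm_num
    by_cases hG : Good (shift ρ S)
    · have h1 := c1_clean hS' htw' hx hmin hG hbig (by rw [shift_card]; exact hsm) 20000 {0, 1}
        (by simp) (by simp) (by rw [card_init hk]) (clean_init hG)
      unfold ff
      rw [if_neg hG.p0]
      rw [hc'] at h1
      have h2 := Finset.sum_nonneg hnn
      push_cast at h1
      linarith
    · have h1 := c1_le_general hk hS' htw' hx hmin 40002 (by omega) 20000 {0, 1}
        (by simp) (by simp) (by rw [card_init hk])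
      rw [hc'] at h1
      unfold Good at hG
      push Not at hG
      obtain ⟨j, hj1, hj2, hmem⟩ := hG
      have h2 : (1:ℝ) ≤ ∑ j ∈ Finset.Icc (-3 : ℤ) 3,
          (if (j : ZMod k) ∈ shift ρ S then (1:ℝ) else 0) := by
        refine le_trans ?_ (Finset.single_le_sum (f := fun j : ℤ =>
          (if (j : ZMod k) ∈ shift ρ S then (1:ℝ) else 0)) hnn (Finset.mem_Icc.2 ⟨hj1, hj2⟩))
        simp only [if_pos hmem]; exact le_rfl
      unfold ff
      have h3 : (if (0 : ZMod k) ∈ shift ρ S then (1/2:ℝ) else 0) ≤ 1/2 := by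
        split_ifs <;> norm_num
      have h4 : 20000 * ((2 + s) / K) ≤ 1/2 := by
        rw [← mul_div_assoc, div_le_div_iff₀ hKpos (by norm_num)]
        linarith
      have h5 : 20000 * (s / (60 * K)) ≤ 1/2 := by
        rw [← mul_div_assoc, div_le_div_iff₀ (by positivity) (by norm_num)]
        linarith
      push_cast at h1
      linarith
  refine (Finset.sum_le_sum (fun ρ _ => key ρ)).trans ?_
  rw [Finset.sum_add_distrib, ← Finset.mul_sum, Finset.sum_comm]
  simp_rw [sum_shift_mem]
  rw [Finset.sum_const, Finset.sum_const, Finset.card_univ, ZMod.card]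
  simp only [nsmul_eq_mul]
  have hcI : ((Finset.Icc (-3 : ℤ) 3).card : ℝ) = 7 := by simp
  rw [hcI, ← hs, ← hK]
  have : K * (1 - 20000 * (s / (60 * K))) = K - 20000 * s / 60 := by field_simp
  rw [this]
  linarith

end

end Pool.Agent.TH467
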