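import Pool.Agent.TH467.RegA2

set_option autoImplicit false
set_option linter.unusedSectionVars false

open Finset

namespace Pool.Agent.TH467

noncomputable section
open Classical

variable {k : ℕ} [NeZero k]

/-- dirtiness -/
def dd (x : ZMod k) (P : Finset (ZMod k)) : ℝ := if x ∈ P ∨ x + 2 ∈ P then 1 else 0

theorem dd_nonneg (x : ZMod k) (P : Finset (ZMod k)) : 0 ≤ dd x P := by
  unfold dd; split_ifs <;> norm_num

theorem uu_le_gg (x : ZMod k) (S P : Finset (ZMod k)) :
    uu x S P ≤ gg (S ∩ P).card + 2 * dd x P := by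
  unfold dd
  by_cases h : x ∈ P ∨ x + 2 ∈ P
  · rw [if_pos h]
    have := uu_le x S P
    have := gg_nonneg (S ∩ P).card
    linarith
  · rw [if_neg h]
    push Not at h
    unfold uu
    rw [if_neg h.2, mul_one]
    have e1 : (S ∩ P).erase x = S ∩ P := by
      apply Finset.erase_eq_of_notMem
      intro h'
      exact h.1 (Finset.mem_inter.1 h').2
    rw [e1]
    have := gg_nonneg (S ∩ P).card
    split_ifs <;> linarith

/-- base, not hit -/
theorem c10_nothit (hk : 5 ≤ k) {S : Finset (ZMod k)} {x : ZMod k} (hS : Indep S)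
    (htw : ¬ IsTw S) (hx : x ∈ S) (hmin : ∀ y ∈ S, x.val ≤ y.val) (h4 : 4 ≤ S.card)
    (hS0 : (0 : ZMod k) ∉ S) (hS1 : (1 : ZMod k) ∉ S) (P : Finset (ZMod k))
    (h0 : (0 : ZMod k) ∈ P) (h1 : (1 : ZMod k) ∈ P) :
    c10 S P ≤ gg (S ∩ P).card + 2 * dd x P := by
  have hle := card_le_k P
  unfold c10
  split_ifs with h2
  · exact (c3_le hk hS htw hx hmin _ P (by omega) h0 h1).trans (uu_le_gg x S P)
  · have hc := card_two_more hk h2
    have hle2 := card_le_k (insert (-1 : ZMod k) (insert 2 P))
    have h3 := c3_le hk hS htw hx hmin (k - P.card - 2) (insert (-1) (insert 2 P)) (by omega)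
      (by simp [h0]) (by simp [h1])
    have e0 : cpair S P = 0 := by
      unfold cpair
      have a1 : S ≠ {-2, 0} := by intro h; exact hS0 (by rw [h]; simp)
      have a2 : S ≠ {1, 3} := by intro h; exact hS1 (by rw [h]; simp)
      have a3 : S ≠ {1} := by intro h; exact hS1 (by rw [h]; simp)
      have a4 : S ≠ {0} := by intro h; exact hS0 (by rw [h]; simp)
      have a5 : S ≠ {-1} := by intro h; rw [h] at h4; simp at h4
      have a6 : ¬ (¬ IsTw S ∧ (S ∩ P).card ≤ 2 ∧ (0 ∈ S ∨ 1 ∈ S)) := by
        rintro ⟨-, -, h | h⟩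
        · exact hS0 h
        · exact hS1 h
      rw [if_neg a1, if_neg a2, if_neg a3, if_neg a4, if_neg a5, if_neg a6]; norm_num
    rw [e0, zero_add]
    refine h3.trans ?_
    by_cases hd : x ∈ P ∨ x + 2 ∈ P
    · have := uu_le x S (insert (-1) (insert 2 P))
      have h5 := gg_nonneg (S ∩ P).card
      unfold dd
      rw [if_pos hd]; linarith
    · have hdd : dd x P = 0 := by unfold dd; rw [if_neg hd]
      rw [hdd]
      push Not at hd
      have hx2 : x + 2 ∉ insert (-1 : ZMod k) (insert 2 P) := by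
        simp only [Finset.mem_insert]
        rintro (h | h | h)
        · -- x = -3
          have hx3 : x = -3 := by linear_combination h
          have hv : k - 3 ≤ x.val := by
            have e1 : x = ((k - 3 : ℕ) : ZMod k) := by
              rw [Nat.cast_sub (by omega)]; push_cast; simp [hx3]
            rw [e1, ZMod.val_natCast, Nat.mod_eq_of_lt (by omega)]
          have hsub : S.image ZMod.val ⊆ Finset.Ico (k - 3) k := by
            intro t ht
            rw [Finset.mem_image] at ht
            obtain ⟨y, hy, rfl⟩ := ht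
            rw [Finset.mem_Ico]
            exact ⟨hv.trans (hmin y hy), ZMod.val_lt y⟩
          have hcc := Finset.card_le_card hsub
          rw [Finset.card_image_of_injective _ (ZMod.val_injective k), Nat.card_Ico] at hcc
          omega
        · apply hS0
          have : x = 0 := by linear_combination h
          rw [← this]; exact hx
        · exact hd.2 h
      have hg : gg ((S ∩ insert (-1) (insert 2 P)).erase x).card ≤ gg (S ∩ P).card := by
        apply gg_anti
        apply Finset.card_le_card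
        intro y hy
        rw [Finset.mem_inter] at hy
        rw [Finset.mem_erase, Finset.mem_inter]
        refine ⟨?_, hy.1, by simp [hy.2]⟩
        intro h; rw [h] at hy; exact hd.1 hy.2
      have hgn := gg_nonneg (S ∩ P).card
      unfold uu
      rw [if_neg hx2, mul_one]
      split_ifs <;> linarith

/-- base, hit -/
theorem c10_hit (hk : 5 ≤ k) {S : Finset (ZMod k)} {x : ZMod k} (hS : Indep S)
    (htw : ¬ IsTw S) (hx : x ∈ S) (hmin : ∀ y ∈ S, x.val ≤ y.val) (h4 : 4 ≤ S.card)
    (P : Finset (ZMod k))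
    (h0 : (0 : ZMod k) ∈ P) (h1 : (1 : ZMod k) ∈ P) (h3 : 3 ≤ (S ∩ P).card) :
    c10 S P ≤ 0 := by
  have hle := card_le_k P
  have key : ∀ P' : Finset (ZMod k), P ⊆ P' → uu x S P' = 0 := by
    intro P' hPP
    have hc : 2 ≤ ((S ∩ P').erase x).card := by
      have a1 : (S ∩ P).card ≤ (S ∩ P').card := by
        apply Finset.card_le_card
        intro y hy
        rw [Finset.mem_inter] at hy ⊢
        exact ⟨hy.1, hPP hy.2⟩
      have a2 := Finset.pred_card_le_card_erase (s := S ∩ P') (a := x)
      omega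
    have hg : gg ((S ∩ P').erase x).card = 0 := by
      obtain ⟨n, hn⟩ : ∃ n, ((S ∩ P').erase x).card = n + 2 := ⟨_, (Nat.sub_add_cancel hc).symm⟩
      rw [hn]; simp [gg]
    unfold uu
    rw [hg]; simp
  unfold c10
  split_ifs with h2
  · refine (c3_le hk hS htw hx hmin _ P (by omega) h0 h1).trans ?_
    rw [key P (Finset.Subset.refl P)]
  · have hc := card_two_more hk h2
    have hle2 := card_le_k (insert (-1 : ZMod k) (insert 2 P))
    have h3' := c3_le hk hS htw hx hmin (k - P.card - 2) (insert (-1) (insert 2 P)) (by omega)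
      (by simp [h0]) (by simp [h1])
    rw [key (insert (-1) (insert 2 P)) (fun y hy => by simp [hy])] at h3'
    have e0 : cpair S P = 0 := by
      unfold cpair
      have a1 : S ≠ {-2, 0} := by
        intro h; rw [h] at h4
        have := Finset.card_le_two (a := (-2 : ZMod k)) (b := 0)
        omega
      have a2 : S ≠ {1, 3} := by
        intro h; rw [h] at h4
        have := Finset.card_le_two (a := (1 : ZMod k)) (b := 3)
        omega
      have a3 : S ≠ {1} := by intro h; rw [h] at h4; simp at h4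
      have a4 : S ≠ {0} := by intro h; rw [h] at h4; simp at h4
      have a5 : S ≠ {-1} := by intro h; rw [h] at h4; simp at h4
      have a6 : ¬ (¬ IsTw S ∧ (S ∩ P).card ≤ 2 ∧ (0 ∈ S ∨ 1 ∈ S)) := by
        rintro ⟨-, h, -⟩
        omega
      rw [if_neg a1, if_neg a2, if_neg a3, if_neg a4, if_neg a5, if_neg a6]; norm_num
    linarith

theorem card_inter_PE (hk : 5 ≤ k) {S P : Finset (ZMod k)} (hS : Indep S) {e : ZMod k}
    (he : mu P e ≠ 0) :
    (S ∩ PE P e).card = (S ∩ P).card + if (e ∈ S ∨ e + 1 ∈ S) then 1 else 0 := by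
  obtain ⟨h1, h2⟩ := mu_ne_zero he
  by_cases a : e ∈ S
  · have b : e + 1 ∉ S := hS e a
    rw [if_pos (Or.inl a)]
    have : S ∩ PE P e = insert e (S ∩ P) := by
      ext y
      rw [Finset.mem_inter, mem_PE, Finset.mem_insert, Finset.mem_inter]
      constructor
      · rintro ⟨hy, h | h | h⟩
        · rw [h] at hy; exact absurd hy b
        · left; exact h
        · right; exact ⟨hy, h⟩
      · rintro (h | h)
        · rw [h]; exact ⟨a, Or.inr (Or.inl rfl)⟩
        · exact ⟨h.1, Or.inr (Or.inr h.2)⟩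
    rw [this, Finset.card_insert_of_notMem]
    intro h; exact h1 (Finset.mem_inter.1 h).2
  · by_cases b : e + 1 ∈ S
    · rw [if_pos (Or.inr b)]
      have : S ∩ PE P e = insert (e + 1) (S ∩ P) := by
        ext y
        rw [Finset.mem_inter, mem_PE, Finset.mem_insert, Finset.mem_inter]
        constructor
        · rintro ⟨hy, h | h | h⟩
          · left; exact h
          · rw [h] at hy; exact absurd hy a
          · right; exact ⟨hy, h⟩
        · rintro (h | h)
          · rw [h]; exact ⟨b, Or.inl rfl⟩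
          · exact ⟨h.1, Or.inr (Or.inr h.2)⟩
      rw [this, Finset.card_insert_of_notMem]
      intro h; exact h2 (Finset.mem_inter.1 h).2
    · rw [if_neg (not_or.2 ⟨a, b⟩), add_zero]
      congr 1
      ext y
      rw [Finset.mem_inter, mem_PE, Finset.mem_inter]
      constructor
      · rintro ⟨hy, h | h | h⟩
        · rw [h] at hy; exact absurd hy b
        · rw [h] at hy; exact absurd hy a
        · exact ⟨hy, h⟩
      · rintro ⟨hy, h⟩; exact ⟨hy, Or.inr (Or.inr h)⟩

/-- lower bound on the total hit weight -/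
theorem hit_ge {S P : Finset (ZMod k)} (hS : Indep S) :
    4 * (S.card : ℝ) - 12 * (P.card : ℝ) ≤
      ∑ e : ZMod k, mu P e * (if (e ∈ S ∨ e + 1 ∈ S) then 1 else 0) := by
  have h1 : ∀ e : ZMod k, mu P e * (if (e ∈ S ∨ e + 1 ∈ S) then (1:ℝ) else 0) =
      mu P e * (if e ∈ S then 1 else 0) + mu P e * (if e + 1 ∈ S then 1 else 0) := by
    intro e
    by_cases a : e ∈ S
    · have b : e + 1 ∉ S := hS e a
      simp [a, b]
    · by_cases b : e + 1 ∈ S
      · simp [a, b]
      · simp [a, b]
  rw [Finset.sum_congr rfl (fun e _ => h1 e), Finset.sum_add_distrib, sum_mu_mem, sum_mu_mem1]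
  have hcomp := card_compl_Av P
  have g1 : ∀ f : ZMod k → ZMod k, Function.Injective f →
      ∑ y ∈ S, (if f y ∈ Av P then (0:ℝ) else 1) ≤ 3 * (P.card : ℝ) := by
    intro f hf
    have e1 : ∑ y ∈ S, (if f y ∈ Av P then (0:ℝ) else 1) =
        ((S.filter (fun y => f y ∉ Av P)).card : ℝ) := by
      rw [Finset.card_filter]
      push_cast
      apply Finset.sum_congr rfl
      intro y _
      by_cases h : f y ∈ Av P <;> simp [h]
    rw [e1]
    have h2 : (S.filter (fun y => f y ∉ Av P)).card ≤
        (Finset.univ.filter (fun w => w ∉ Av P)).card := by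
      rw [← Finset.card_image_of_injective _ hf]
      apply Finset.card_le_card
      intro t ht
      rw [Finset.mem_image] at ht
      obtain ⟨y, hy, rfl⟩ := ht
      rw [Finset.mem_filter] at hy ⊢
      exact ⟨Finset.mem_univ _, hy.2⟩
    exact_mod_cast h2.trans hcomp
  have a1 := g1 id Function.injective_id
  have a2 := g1 (fun y => y + 1) (fun a b h => by simpa using h)
  have a3 := g1 (fun y => y - 1) (fun a b h => by simpa using h)
  have e2 : ∑ y ∈ S, mu P y + ∑ y ∈ S, mu P (y - 1) = 4 * (S.card : ℝ)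
      - 2 * ∑ y ∈ S, (if id y ∈ Av P then (0:ℝ) else 1)
      - ∑ y ∈ S, (if (fun y => y + 1) y ∈ Av P then (0:ℝ) else 1)
      - ∑ y ∈ S, (if (fun y => y - 1) y ∈ Av P then (0:ℝ) else 1) := by
    have e3 : 4 * (S.card : ℝ) = ∑ y ∈ S, (4:ℝ) := by
      rw [Finset.sum_const, nsmul_eq_mul]; ring
    rw [e3, Finset.mul_sum, ← Finset.sum_sub_distrib, ← Finset.sum_sub_distrib,
      ← Finset.sum_sub_distrib, ← Finset.sum_add_distrib]
    apply Finset.sum_congr rfl
    intro y _
    unfold mu
    simp only [id, sub_add_cancel]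
    split_ifs <;> norm_num
  rw [e2]
  linarith

/-- nbr cost vanishes when two hits are present -/
theorem nbr_cost_zero {S P : Finset (ZMod k)} (h : 2 ≤ (S ∩ P).card) :
    ∑ w ∈ Av P, (if w ∈ S ∧ (S ∩ insert w P).card ≤ 2 then (1/2 : ℝ) else 0) = 0 := by
  apply Finset.sum_eq_zero
  intro w hw
  rw [mem_Av] at hw
  rw [if_neg]
  rintro ⟨hwS, hc⟩
  have : (S ∩ P).card + 1 ≤ (S ∩ insert w P).card := by
    have e1 : insert w (S ∩ P) ⊆ S ∩ insert w P := by
      intro y hy
      rw [Finset.mem_insert, Finset.mem_inter] at hy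
      rw [Finset.mem_inter, Finset.mem_insert]
      rcases hy with h | h
      · rw [h]; exact ⟨hwS, Or.inl rfl⟩
      · exact ⟨h.1, Or.inr h.2⟩
    have e2 := Finset.card_le_card e1
    rw [Finset.card_insert_of_notMem] at e2
    · exact e2
    · intro h'; exact hw.1 (Finset.mem_inter.1 h').2
  omega

def vB (h : ℝ) (i : ℕ) : ℕ → ℝ
  | 0 => 19/20 + 1/20 * (1 - h) ^ i
  | 1 => 7/10
  | _ => 0

def wB (h : ℝ) (i : ℕ) (n : ℕ) : ℝ :=
  (if n = 1 then 1/4 else 0) + 80 / 2 ^ n * (1 - h/2) ^ i

/-- a common computation: one-step evolution of a value depending only on the hit count -/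
theorem sum_value (hk : 5 ≤ k) {S P : Finset (ZMod k)} (hS : Indep S) (v : ℕ → ℝ)
    (hv : v ((S ∩ P).card + 1) ≤ v (S ∩ P).card) :
    ∑ e : ZMod k, mu P e * v (S ∩ PE P e).card ≤
      2 * ((Av P).card : ℝ) * v (S ∩ P).card
      - (v (S ∩ P).card - v ((S ∩ P).card + 1)) * (4 * (S.card : ℝ) - 12 * (P.card : ℝ)) := by
  have h1 : ∑ e : ZMod k, mu P e * v (S ∩ PE P e).card ≤ ∑ e : ZMod k, mu P e *
      (v (S ∩ P).card - (v (S ∩ P).card - v ((S ∩ P).card + 1)) *
        (if (e ∈ S ∨ e + 1 ∈ S) then 1 else 0)) := by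
    apply sum_mu_le
    intro e he
    rw [card_inter_PE hk hS he]
    by_cases h : e ∈ S ∨ e + 1 ∈ S
    · rw [if_pos h, if_pos h]; linarith
    · rw [if_neg h, if_neg h]; simp
  refine h1.trans ?_
  have h2 : ∑ e : ZMod k, mu P e *
      (v (S ∩ P).card - (v (S ∩ P).card - v ((S ∩ P).card + 1)) *
        (if (e ∈ S ∨ e + 1 ∈ S) then 1 else 0)) = 2 * ((Av P).card : ℝ) * v (S ∩ P).card -
      (v (S ∩ P).card - v ((S ∩ P).card + 1)) *
        ∑ e : ZMod k, mu P e * (if (e ∈ S ∨ e + 1 ∈ S) then 1 else 0) := by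
    rw [← sum_mu, Finset.sum_mul, Finset.mul_sum, ← Finset.sum_sub_distrib]
    apply Finset.sum_congr rfl
    intro e _
    ring
  rw [h2]
  have h3 := hit_ge (S := S) (P := P) hS
  have h4 : 0 ≤ v (S ∩ P).card - v ((S ∩ P).card + 1) := by linarith
  have := mul_le_mul_of_nonneg_left h3 h4
  linarith

theorem dd_step (x : ZMod k) (P : Finset (ZMod k)) :
    ∑ e : ZMod k, mu P e * dd x (PE P e) ≤ 2 * ((Av P).card : ℝ) * dd x P + 8 := by
  have h1 : ∑ e : ZMod k, mu P e * dd x (PE P e) ≤ ∑ e : ZMod k, mu P e * (dd x P +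
      (if e = x then 1 else 0) + (if e = x - 1 then 1 else 0) + (if e = x + 2 then 1 else 0)
      + (if e = x + 1 then 1 else 0)) := by
    apply sum_mu_le
    intro e _
    have hp : ∀ a : ZMod k, (0:ℝ) ≤ (if e = a then 1 else 0) := by
      intro a; split_ifs <;> norm_num
    have h0 := dd_nonneg x P
    have p1 := hp x
    have p2 := hp (x - 1)
    have p3 := hp (x + 2)
    have p4 := hp (x + 1)
    by_cases hd : x ∈ P ∨ x + 2 ∈ P
    · have e1 : dd x P = 1 := by unfold dd; rw [if_pos hd]
      have e2 : dd x (PE P e) ≤ 1 := by unfold dd; split_ifs <;> norm_num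
      rw [e1]; linarith
    · push Not at hd
      by_cases h2 : x ∈ PE P e ∨ x + 2 ∈ PE P e
      · have e2 : dd x (PE P e) = 1 := by unfold dd; rw [if_pos h2]
        rw [e2]
        rw [mem_PE, mem_PE] at h2
        rcases h2 with (h | h | h) | (h | h | h)
        · rw [if_pos (show e = x - 1 by rw [h]; ring)] at *; linarith
        · rw [if_pos h.symm] at *; linarith
        · exact absurd h hd.1
        · rw [if_pos (show e = x + 1 by linear_combination -h)] at *; linarith
        · rw [if_pos h.symm] at *; linarith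
        · exact absurd h hd.2
      · have e2 : dd x (PE P e) = 0 := by unfold dd; rw [if_neg h2]
        rw [e2]; linarith
  refine h1.trans ?_
  have h2 : ∀ e : ZMod k, mu P e * (dd x P +
      (if e = x then 1 else 0) + (if e = x - 1 then 1 else 0) + (if e = x + 2 then 1 else 0)
      + (if e = x + 1 then 1 else 0)) = mu P e * dd x P + mu P e * (if e = x then 1 else 0)
      + mu P e * (if e = x - 1 then 1 else 0) + mu P e * (if e = x + 2 then 1 else 0)
      + mu P e * (if e = x + 1 then 1 else 0) := by intro e; ring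
  rw [Finset.sum_congr rfl (fun e _ => h2 e), Finset.sum_add_distrib, Finset.sum_add_distrib,
    Finset.sum_add_distrib, Finset.sum_add_distrib, sum_mu_ind, sum_mu_ind, sum_mu_ind, sum_mu_ind,
    ← Finset.sum_mul, sum_mu]
  have a1 := mu_le_two P x
  have a2 := mu_le_two P (x - 1)
  have a3 := mu_le_two P (x + 2)
  have a4 := mu_le_two P (x + 1)
  linarith

end

end Pool.Agent.TH467
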