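import Pool.Agent.TH467.Scan

set_option autoImplicit false
set_option linter.unusedSectionVars false

open Finset

namespace Pool.Agent.TH467

noncomputable section
open Classical

variable {k : ℕ} [NeZero k]

theorem wt_le_one (P B : Finset (ZMod k)) : wt P B ≤ 1 := by
  unfold wt; split_ifs <;> norm_num

theorem c3_twin (hk : 5 ≤ k) (x : ZMod k)
    (m : ℕ) : ∀ P : Finset (ZMod k), P.card + m = k → (0 : ZMod k) ∈ P → (1 : ZMod k) ∈ P →
    ((-1 : ZMod k) ∈ P ∨ (2 : ZMod k) ∈ P) →
    c3 m {x - 1, x + 1} P ≤ if x ∈ P then 0 else 1 := by
  induction m using Nat.strong_induction_on with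
  | _ m ih =>
    intro P hPm h0 h1 h2
    match m, ih with
    | 0, _ => simp only [c3]; split_ifs <;> norm_num
    | 1, _ =>
      simp only [c3]
      have hqn := qq_notMem (P := P) (by omega)
      by_cases hx : x ∈ P
      · rw [if_pos hx, if_neg]
        rw [bb_eq hPm]
        intro h
        have h3 : qq P - 1 ∈ ({x - 1, x + 1} : Finset (ZMod k)) := by
          have : qq P - 1 ∈ ({x - 1, x + 1} : Finset (ZMod k)) ∩ P := by rw [h]; simp
          exact (Finset.mem_inter.1 this).1
        have h4 : qq P + 1 ∈ ({x - 1, x + 1} : Finset (ZMod k)) := by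
          have : qq P + 1 ∈ ({x - 1, x + 1} : Finset (ZMod k)) ∩ P := by rw [h]; simp
          exact (Finset.mem_inter.1 this).1
        simp only [Finset.mem_insert, Finset.mem_singleton] at h3 h4
        rcases h3 with h3 | h3
        · apply hqn
          have : qq P = x := by linear_combination h3
          rw [this]; exact hx
        · rcases h4 with h4 | h4
          · exact ne0_4 hk (by linear_combination h4 - h3)
          · exact ne0_2 hk (by linear_combination h4 - h3)
      · rw [if_neg hx]; split_ifs <;> norm_num
    | (m+2), ih =>
      have hP : P.card < k := by omega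
      have h2f := two_le_fr hP h0 h1
      have hq := val_qq hP
      have hqn := qq_notMem hP
      have hfk := fr_lt hP
      have hins := ih (m+1) (by omega) (insert (qq P) P) (by rw [card_insert_qq (by omega)]; omega)
        (Finset.mem_insert_of_mem h0) (Finset.mem_insert_of_mem h1)
        (h2.imp (Finset.mem_insert_of_mem) (Finset.mem_insert_of_mem))
      simp only [c3]
      by_cases hxq : x = qq P
      · rw [if_pos (by rw [hxq]; exact Finset.mem_insert_self _ _)] at hins
        rw [if_neg (by rw [hxq]; exact hqn)]
        have : wt P ({x - 1, x + 1} ∩ P) / om P ≤ 1 := by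
          rw [div_le_one (om_pos P)]
          unfold om
          split_ifs with h3
          · unfold wt
            split_ifs with h4 h5
            · exfalso
              have h6 : x + 1 ∈ ({x - 1, x + 1} : Finset (ZMod k)) ∩ P := by
                rw [Finset.mem_inter]
                refine ⟨by simp, ?_⟩
                rw [hxq]; exact h3
              rw [h4, Finset.mem_singleton, hxq] at h6
              exact ne0_2 hk (by linear_combination h6)
            · exact le_rfl
            · norm_num
          · exact wt_le_one _ _
        linarith
      · have hcost : wt P ({x - 1, x + 1} ∩ P) = 0 := by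
          by_cases hr : qq P - 1 ∈ ({x - 1, x + 1} : Finset (ZMod k))
          · simp only [Finset.mem_insert, Finset.mem_singleton] at hr
            rcases hr with hr | hr
            · exact absurd (by linear_combination -hr) hxq
            · -- qq P = x + 2
              have hx : x = qq P - 1 - 1 := by rw [hr]; ring
              have hxv : x.val = fr P - 2 := by
                rw [hx, val_sub_one, val_sub_one (by omega), hq]
                · omega
                · rw [val_sub_one (by omega), hq]; omega
              have hxP : x ∈ P := mem_of_val_lt (by omega)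
              have key : x - 1 ∈ P ∧ ((x - 1 - 1 ∈ P) ∨ x - 1 = bb P) := by
                rcases Nat.eq_zero_or_pos x.val with h5 | h5
                · have hx0 : x = 0 := by
                    rw [ZMod.val_eq_zero] at h5; exact h5
                  have hq2 : qq P = 2 := by
                    rw [hx0] at hx; linear_combination -hx
                  have hm1 : (-1 : ZMod k) ∈ P := by
                    rcases h2 with h2 | h2
                    · exact h2
                    · exfalso; apply hqn; rw [hq2]; exact h2
                  rw [hx0]
                  refine ⟨by simpa using hm1, ?_⟩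
                  by_cases hm2 : (-2 : ZMod k) ∈ P
                  · left
                    have : (0 : ZMod k) - 1 - 1 = -2 := by ring
                    rw [this]; exact hm2
                  · right
                    have hb : bk P = 2 := by
                      apply le_antisymm
                      · apply bk_le; push_cast; exact hm2
                      · by_contra hcon
                        have hb1 := one_le_bk hP h0
                        have hb2 : bk P = 1 := by omega
                        have := bk_notMem hP
                        rw [hb2] at this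
                        apply this
                        simpa using hm1
                    unfold bb
                    rw [hb]; push_cast; ring
                · refine ⟨mem_of_val_lt (by rw [val_sub_one h5]; omega), ?_⟩
                  rcases Nat.lt_or_ge 1 x.val with h6 | h6
                  · left
                    apply mem_of_val_lt
                    rw [val_sub_one, val_sub_one h5]
                    · omega
                    · rw [val_sub_one h5]; omega
                  · have hx1 : x = 1 := by
                      have h7 : x.val = 1 := by omega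
                      have := cast_val' x
                      rw [h7] at this
                      rw [← this]; simp
                    rcases bb_cases hP h0 with ⟨h8, _⟩ | ⟨_, h8⟩
                    · right; rw [h8, hx1]; ring
                    · left; rw [hx1]; simpa using h8
              have hsub : x - 1 ∈ ({x - 1, x + 1} : Finset (ZMod k)) ∩ P :=
                Finset.mem_inter.2 ⟨by simp, key.1⟩
              have hne : x - 1 ≠ qq P - 1 := by
                intro h; exact hxq (by linear_combination h)
              unfold wt
              rw [if_neg, if_neg]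
              · rintro ⟨e, he1, he2, h5, h6⟩
                rw [h5, Finset.mem_insert, Finset.mem_singleton] at hsub
                rcases hsub with h7 | h7
                · exact hne h7
                · rw [← h7] at he2 h6
                  rcases key.2 with h8 | h8
                  · exact h6 ⟨h8, by rw [sub_add_cancel]; exact hxP⟩
                  · exact he2 h8
              · intro h5
                rw [h5, Finset.mem_singleton] at hsub
                exact hne hsub
          · exact wt_zero_of_notMem hr
        rw [hcost]
        simp only [zero_div, zero_add]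
        refine hins.trans (le_of_eq ?_)
        simp only [Finset.mem_insert, hxq, false_or]

theorem tw_card (hk : 5 ≤ k) (x : ZMod k) : ({x - 1, x + 1} : Finset (ZMod k)).card = 2 := by
  rw [Finset.card_insert_of_notMem, Finset.card_singleton]
  rw [Finset.mem_singleton]
  intro h
  exact ne0_2 hk (by linear_combination -h)

theorem card_two_more (hk : 5 ≤ k) {P : Finset (ZMod k)} (h : ¬ ((-1 : ZMod k) ∈ P ∨ (2 : ZMod k) ∈ P)) :
    (insert (-1 : ZMod k) (insert 2 P)).card = P.card + 2 := by
  push Not at h
  rw [Finset.card_insert_of_notMem, Finset.card_insert_of_notMem h.2]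
  rw [Finset.mem_insert, not_or]
  exact ⟨fun h => ne0_3 hk (by linear_combination -h), h.1⟩

theorem c10_twin (hk : 5 ≤ k) (x : ZMod k) (P : Finset (ZMod k)) 
    (h0 : (0 : ZMod k) ∈ P) (h1 : (1 : ZMod k) ∈ P) :
    c10 {x - 1, x + 1} P ≤ if x ∈ P then 0 else 1 := by
  have hle : P.card ≤ k := by
    have := Finset.card_le_univ P
    rwa [ZMod.card] at this
  unfold c10
  split_ifs with h2 hx hx
  · have := c3_twin hk x (k - P.card) P (by omega) h0 h1 h2
    rwa [if_pos hx] at this
  · have := c3_twin hk x (k - P.card) P (by omega) h0 h1 h2
    rwa [if_neg hx] at this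
  all_goals
    have hc := card_two_more hk h2
    have hle2 : (insert (-1 : ZMod k) (insert 2 P)).card ≤ k := by
      have := Finset.card_le_univ (insert (-1 : ZMod k) (insert 2 P))
      rwa [ZMod.card] at this
    have h3 := c3_twin hk x (k - P.card - 2) (insert (-1) (insert 2 P)) (by omega) 
      (by simp [h0]) (by simp [h1]) (by simp)
    have htw : IsTw ({x - 1, x + 1} : Finset (ZMod k)) := ⟨x, rfl⟩
    have hcd := tw_card hk x
    have e1 : ({x - 1, x + 1} : Finset (ZMod k)) ≠ {1} := by
      intro h; rw [h] at hcd; simp at hcd
    have e2 : ({x - 1, x + 1} : Finset (ZMod k)) ≠ {0} := by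
      intro h; rw [h] at hcd; simp at hcd
    have e3 : ({x - 1, x + 1} : Finset (ZMod k)) ≠ {-1} := by
      intro h; rw [h] at hcd; simp at hcd
    have e4 : ({x - 1, x + 1} : Finset (ZMod k)) = {-2, 0} → x = -1 := by
      intro h
      have h5 : x - 1 ∈ ({-2, 0} : Finset (ZMod k)) := by rw [← h]; simp
      have h6 : x + 1 ∈ ({-2, 0} : Finset (ZMod k)) := by rw [← h]; simp
      simp only [Finset.mem_insert, Finset.mem_singleton] at h5 h6
      rcases h5 with h5 | h5
      · linear_combination h5
      · rcases h6 with h6 | h6
        · exact absurd (by linear_combination h6 - h5) (ne0_4 hk)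
        · linear_combination h6
    have e5 : ({x - 1, x + 1} : Finset (ZMod k)) = {1, 3} → x = 2 := by
      intro h
      have h5 : x - 1 ∈ ({1, 3} : Finset (ZMod k)) := by rw [← h]; simp
      have h6 : x + 1 ∈ ({1, 3} : Finset (ZMod k)) := by rw [← h]; simp
      simp only [Finset.mem_insert, Finset.mem_singleton] at h5 h6
      rcases h5 with h5 | h5
      · linear_combination h5
      · rcases h6 with h6 | h6
        · exact absurd (by linear_combination h6 - h5 ) (ne0_4 hk)
        · linear_combination h6
    have e6 : cpair ({x - 1, x + 1} : Finset (ZMod k)) P ≤ (if x = -1 then 1 else 0) + (if x = 2 then 1 else 0) := by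
      have e0 : ¬ (¬ IsTw ({x - 1, x + 1} : Finset (ZMod k)) ∧
          (({x - 1, x + 1} : Finset (ZMod k)) ∩ P).card ≤ 2 ∧
          (0 ∈ ({x - 1, x + 1} : Finset (ZMod k)) ∨ 1 ∈ ({x - 1, x + 1} : Finset (ZMod k)))) :=
        fun h => h.1 htw
      unfold cpair
      rw [if_neg e1, if_neg e2, if_neg e3, if_neg e0]
      have a1 : (if ({x - 1, x + 1} : Finset (ZMod k)) = {-2, 0} then (1:ℝ) else 0) ≤ 
          (if x = -1 then 1 else 0) := by
        split_ifs with h5 h6 h6
        · exact le_rfl
        · exact absurd (e4 h5) h6
        · norm_num
        · exact le_rfl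
      have a2 : (if ({x - 1, x + 1} : Finset (ZMod k)) = {1, 3} then (1:ℝ) else 0) ≤ 
          (if x = 2 then 1 else 0) := by
        split_ifs with h5 h6 h6
        · exact le_rfl
        · exact absurd (e5 h5) h6
        · norm_num
        · exact le_rfl
      linarith
    push Not at h2
    have hne12 : (-1 : ZMod k) ≠ 2 := fun h => ne0_3 hk (by linear_combination -h)
  · have hx1 : x ≠ -1 := fun h => h2.1 (h ▸ hx)
    have hx2 : x ≠ 2 := fun h => h2.2 (h ▸ hx)
    rw [if_neg hx1, if_neg hx2] at e6
    rw [if_pos (by simp [hx])] at h3
    linarith
  · by_cases hx1 : x = -1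
    · rw [if_pos hx1, if_neg (by rw [hx1]; exact hne12)] at e6
      rw [if_pos (by simp [hx1])] at h3
      linarith
    · by_cases hx2 : x = 2
      · rw [if_neg hx1, if_pos hx2] at e6
        rw [if_pos (by simp [hx2])] at h3
        linarith
      · rw [if_neg hx1, if_neg hx2] at e6
        rw [if_neg (by simp [hx, hx1, hx2])] at h3
        linarith

/-- no isolated points -/
def NI (P : Finset (ZMod k)) : Prop := ∀ y ∈ P, y + 1 ∈ P ∨ y - 1 ∈ P

theorem NI.insP {P : Finset (ZMod k)} (h : NI P) (w : ZMod k) :
    NI (insert (w + 1) (insert w P)) := by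
  intro y hy
  simp only [Finset.mem_insert] at hy ⊢
  rcases hy with hy | hy | hy
  · right; right; left; rw [hy]; ring
  · left; left; rw [hy]
  · rcases h y hy with h | h
    · left; right; right; exact h
    · right; right; right; exact h

theorem NI.insM {P : Finset (ZMod k)} (h : NI P) (w : ZMod k) :
    NI (insert (w - 1) (insert w P)) := by
  intro y hy
  simp only [Finset.mem_insert] at hy ⊢
  rcases hy with hy | hy | hy
  · left; right; left; rw [hy]; ring
  · right; left; rw [hy]
  · rcases h y hy with h | h
    · left; right; right; exact h
    · right; right; right; exact h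

theorem sum_ind_eq (A : Finset (ZMod k)) (y : ZMod k) :
    ∑ w ∈ A, (if w = y then (1:ℝ) else 0) = if y ∈ A then 1 else 0 := by
  rw [Finset.sum_ite_eq']

theorem c1_twin (hk : 5 ≤ k) (x : ZMod k) (i : ℕ) : ∀ P : Finset (ZMod k),
    (0 : ZMod k) ∈ P → (1 : ZMod k) ∈ P → NI P →
    c1 i {x - 1, x + 1} P ≤ if x ∈ P then 0 else 1 := by
  induction i with
  | zero => intro P h0 h1 _; exact c10_twin hk x P h0 h1
  | succ i ih =>
    intro P h0 h1 hN
    simp only [c1]
    set M : ℝ := ((Av P).card : ℝ) with hM
    rcases Nat.eq_zero_or_pos (Av P).card with hz | hpos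
    · have : M = 0 := by rw [hM, hz]; simp
      rw [this]
      simp only [mul_zero, div_zero, add_zero]
      split_ifs <;> norm_num
    have hMpos : 0 < M := by rw [hM]; exact_mod_cast hpos
    by_cases hx : x ∈ P
    · rw [if_pos hx]
      have t1 : ¬ (({x - 1, x + 1} : Finset (ZMod k)) ∩ P = ∅) := by
        intro h
        rcases hN x hx with h3 | h3
        · have : x + 1 ∈ ({x - 1, x + 1} : Finset (ZMod k)) ∩ P :=
            Finset.mem_inter.2 ⟨by simp, h3⟩
          rw [h] at this; simp at this
        · have : x - 1 ∈ ({x - 1, x + 1} : Finset (ZMod k)) ∩ P :=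
            Finset.mem_inter.2 ⟨by simp, h3⟩
          rw [h] at this; simp at this
      rw [if_neg t1]
      have t2 : ∑ w ∈ Av P, (if w ∈ ({x - 1, x + 1} : Finset (ZMod k)) ∧
          (({x - 1, x + 1} : Finset (ZMod k)) ∩ insert w P).card ≤ 2 then (1/2 : ℝ) else 0) = 0 := by
        apply Finset.sum_eq_zero
        intro w hw
        rw [if_neg]
        rintro ⟨h3, -⟩
        simp only [Av, Finset.mem_filter, Finset.mem_univ, true_and] at hw
        simp only [Finset.mem_insert, Finset.mem_singleton] at h3
        rcases h3 with h3 | h3
        · apply hw.2.1; rw [h3, sub_add_cancel]; exact hx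
        · apply hw.2.2; rw [h3, add_sub_cancel_right]; exact hx
      rw [t2]
      have t3 : ∑ w ∈ Av P, (c1 i {x - 1, x + 1} (insert (w+1) (insert w P))
          + c1 i {x - 1, x + 1} (insert (w-1) (insert w P))) ≤ 0 := by
        apply Finset.sum_nonpos
        intro w _
        have a1 := ih (insert (w+1) (insert w P)) (by simp [h0]) (by simp [h1]) (hN.insP w)
        have a2 := ih (insert (w-1) (insert w P)) (by simp [h0]) (by simp [h1]) (hN.insM w)
        rw [if_pos (by simp [hx])] at a1 a2
        linarith
      have t4 : (∑ w ∈ Av P, (c1 i {x - 1, x + 1} (insert (w+1) (insert w P))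
          + c1 i {x - 1, x + 1} (insert (w-1) (insert w P)))) / (2 * M) ≤ 0 :=
        div_nonpos_of_nonpos_of_nonneg t3 (by positivity)
      simp only [zero_div, zero_add]
      exact t4
    · rw [if_neg hx]
      have t1 : (if ({x - 1, x + 1} : Finset (ZMod k)) ∩ P = ∅ then (1:ℝ) else 0) ≤
          if x ∈ Av P then 1 else 0 := by
        by_cases h3 : ({x - 1, x + 1} : Finset (ZMod k)) ∩ P = ∅
        · rw [if_pos h3, if_pos]
          simp only [Av, Finset.mem_filter, Finset.mem_univ, true_and]
          refine ⟨hx, ?_, ?_⟩
          · intro h4
            have : x + 1 ∈ ({x - 1, x + 1} : Finset (ZMod k)) ∩ P :=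
              Finset.mem_inter.2 ⟨by simp, h4⟩
            rw [h3] at this; simp at this
          · intro h4
            have : x - 1 ∈ ({x - 1, x + 1} : Finset (ZMod k)) ∩ P :=
              Finset.mem_inter.2 ⟨by simp, h4⟩
            rw [h3] at this; simp at this
        · rw [if_neg h3]; split_ifs <;> norm_num
      have t2 : ∑ w ∈ Av P, (if w ∈ ({x - 1, x + 1} : Finset (ZMod k)) ∧
          (({x - 1, x + 1} : Finset (ZMod k)) ∩ insert w P).card ≤ 2 then (1/2 : ℝ) else 0) ≤
          1/2 * (if x - 1 ∈ Av P then 1 else 0) + 1/2 * (if x + 1 ∈ Av P then 1 else 0) := by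
        rw [← sum_ind_eq (Av P) (x-1), ← sum_ind_eq (Av P) (x+1), Finset.mul_sum, Finset.mul_sum,
          ← Finset.sum_add_distrib]
        apply Finset.sum_le_sum
        intro w _
        by_cases h3 : w = x - 1
        · rw [if_pos h3]
          have : (0:ℝ) ≤ 1/2 * (if w = x + 1 then (1:ℝ) else 0) := by split_ifs <;> norm_num
          have h4 : (if w ∈ ({x - 1, x + 1} : Finset (ZMod k)) ∧
          (({x - 1, x + 1} : Finset (ZMod k)) ∩ insert w P).card ≤ 2 then (1/2 : ℝ) else 0) ≤ 1/2 := by
            split_ifs <;> norm_num
          linarith
        · by_cases h4 : w = x + 1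
          · rw [if_neg h3, if_pos h4]
            have h4 : (if w ∈ ({x - 1, x + 1} : Finset (ZMod k)) ∧
            (({x - 1, x + 1} : Finset (ZMod k)) ∩ insert w P).card ≤ 2 then (1/2 : ℝ) else 0) ≤ 1/2 := by
              split_ifs <;> norm_num
            linarith
          · rw [if_neg, if_neg h3, if_neg h4]
            · norm_num
            · rintro ⟨h5, -⟩
              simp only [Finset.mem_insert, Finset.mem_singleton] at h5
              tauto
      have t3 : ∑ w ∈ Av P, (c1 i {x - 1, x + 1} (insert (w+1) (insert w P))
          + c1 i {x - 1, x + 1} (insert (w-1) (insert w P))) ≤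
          2 * M - 2 * (if x ∈ Av P then 1 else 0) - (if x - 1 ∈ Av P then 1 else 0)
            - (if x + 1 ∈ Av P then 1 else 0) := by
        have e1 : 2 * M = ∑ w ∈ Av P, (2:ℝ) := by
          rw [Finset.sum_const, nsmul_eq_mul, hM]; ring
        rw [e1, ← sum_ind_eq (Av P) (x-1), ← sum_ind_eq (Av P) (x+1), ← sum_ind_eq (Av P) x,
          Finset.mul_sum, ← Finset.sum_sub_distrib, ← Finset.sum_sub_distrib,
          ← Finset.sum_sub_distrib]
        apply Finset.sum_le_sum
        intro w _
        have a1 := ih (insert (w+1) (insert w P)) (by simp [h0]) (by simp [h1]) (hN.insP w)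
        have a2 := ih (insert (w-1) (insert w P)) (by simp [h0]) (by simp [h1]) (hN.insM w)
        have b1 : (if x ∈ insert (w+1) (insert w P) then (0:ℝ) else 1) ≤
            1 - (if w = x then 1 else 0) - (if w = x - 1 then 1 else 0) := by
          by_cases h3 : w = x
          · have h4 : ¬ w = x - 1 := by
              intro h5; rw [h3] at h5; exact ne0_1 hk (by linear_combination h5)
            rw [if_pos (by simp [h3]), if_pos h3, if_neg h4]; norm_num
          · by_cases h4 : w = x - 1
            · rw [if_pos (by simp [h4]), if_neg h3, if_pos h4]; norm_num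
            · rw [if_neg h3, if_neg h4]; split_ifs <;> norm_num
        have b2 : (if x ∈ insert (w-1) (insert w P) then (0:ℝ) else 1) ≤
            1 - (if w = x then 1 else 0) - (if w = x + 1 then 1 else 0) := by
          by_cases h3 : w = x
          · have h4 : ¬ w = x + 1 := by
              intro h5; rw [h3] at h5; exact ne0_1 hk (by linear_combination -h5)
            rw [if_pos (by simp [h3]), if_pos h3, if_neg h4]; norm_num
          · by_cases h4 : w = x + 1
            · rw [if_pos (by simp [h4]), if_neg h3, if_pos h4]; norm_num
            · rw [if_neg h3, if_neg h4]; split_ifs <;> norm_num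
        linarith
      rw [← add_div]
      have e2 : ∀ X Y : ℝ, X / M + Y / (2 * M) = (2 * X + Y) / (2 * M) := by
        intro X Y; field_simp
      rw [e2, div_le_one (by positivity)]
      linarith

theorem shift_tw (x ρ : ZMod k) : shift ρ ({x - 1, x + 1} : Finset (ZMod k)) =
    {(x - ρ) - 1, (x - ρ) + 1} := by
  ext i
  rw [mem_shift]
  simp only [Finset.mem_insert, Finset.mem_singleton]
  constructor
  · rintro (h | h)
    · left; linear_combination h
    · right; linear_combination h
  · rintro (h | h)
    · left; linear_combination h
    · right; linear_combination h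

theorem NI_init : NI ({0, 1} : Finset (ZMod k)) := by
  intro y hy
  simp only [Finset.mem_insert, Finset.mem_singleton] at hy ⊢
  rcases hy with hy | hy
  · left; right; rw [hy]; ring
  · right; left; rw [hy]; ring

theorem twin_total (hk : 5 ≤ k) (T : ℕ) {S : Finset (ZMod k)} (hS : IsTw S) :
    ∑ ρ : ZMod k, ff T (shift ρ S) ≤ (k : ℝ) - 1 := by
  obtain ⟨x, rfl⟩ := hS
  have h1 : ∀ ρ : ZMod k, ff T (shift ρ ({x - 1, x + 1} : Finset (ZMod k))) ≤
      1/2 * (if ρ = x - 1 then 1 else 0) + 1/2 * (if ρ = x + 1 then 1 else 0) + 1 -
      (if ρ = x then 1 else 0) - (if ρ = x - 1 then 1 else 0) := by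
    intro ρ
    rw [shift_tw]
    unfold ff
    have h2 := c1_twin hk (x - ρ) T {0, 1} (by simp) (by simp) NI_init
    have h3 : (if (0 : ZMod k) ∈ ({x - ρ - 1, x - ρ + 1} : Finset (ZMod k)) then (1/2 : ℝ) else 0)
        ≤ 1/2 * (if ρ = x - 1 then 1 else 0) + 1/2 * (if ρ = x + 1 then 1 else 0) := by
      by_cases h4 : ρ = x - 1
      · rw [if_pos h4]
        have : (0:ℝ) ≤ 1/2 * (if ρ = x + 1 then (1:ℝ) else 0) := by split_ifs <;> norm_num
        split_ifs <;> linarith
      · by_cases h5 : ρ = x + 1
        · rw [if_neg h4, if_pos h5]; split_ifs <;> linarith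
        · rw [if_neg h4, if_neg h5, if_neg]
          · norm_num
          · simp only [Finset.mem_insert, Finset.mem_singleton]
            rintro (h | h)
            · exact h4 (by linear_combination h)
            · exact h5 (by linear_combination h)
    have h4 : (if x - ρ ∈ ({0, 1} : Finset (ZMod k)) then (0:ℝ) else 1) ≤
        1 - (if ρ = x then 1 else 0) - (if ρ = x - 1 then 1 else 0) := by
      by_cases h5 : ρ = x
      · have h6 : ¬ ρ = x - 1 := by
          intro h7; rw [h5] at h7; exact ne0_1 hk (by linear_combination h7)
        rw [if_pos (by simp [h5]), if_pos h5, if_neg h6]; norm_num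
      · by_cases h6 : ρ = x - 1
        · rw [if_pos (by simp [h6]), if_neg h5, if_pos h6]; norm_num
        · rw [if_neg h5, if_neg h6]; split_ifs <;> norm_num
    linarith
  refine (Finset.sum_le_sum (fun ρ _ => h1 ρ)).trans ?_
  rw [Finset.sum_sub_distrib, Finset.sum_sub_distrib, Finset.sum_add_distrib,
    Finset.sum_add_distrib, ← Finset.mul_sum, ← Finset.mul_sum]
  rw [sum_ind_eq, sum_ind_eq, sum_ind_eq]
  simp [ZMod.card]
  linarith

end

end Pool.Agent.TH467
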